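import Pool.Agent.Work.MP_8cbffb_h28.Interface

/-! # Block ATD (second copy, helper30) -/

set_option autoImplicit false

namespace Pool.Ipm

open ComplexConjugate

theorem ATDx_sq (β w : ℂ) (t : ℝ) (hβ : ‖β‖ = 1) :
    ‖At β t w‖ ^ 2 = (1 + t ^ 2) * ‖w‖ ^ 2 + 2 * t * (conj β * w ^ 2).re := by
  have h1 : β.re * β.re + β.im * β.im = 1 := by
    have := Complex.sq_norm β
    rw [hβ, Complex.normSq_apply] at this
    linarith
  unfold At
  rw [Complex.sq_norm, Complex.sq_norm, Complex.normSq_apply, Complex.normSq_apply]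
  simp only [Complex.add_re, Complex.add_im, Complex.mul_re, Complex.mul_im, Complex.ofReal_re,
    Complex.ofReal_im, Complex.conj_re, Complex.conj_im, pow_two]
  linear_combination (t ^ 2 * (w.re * w.re + w.im * w.im)) * h1

theorem p_ATD : S_ATD := by
  intro τ z β t hβ
  simp only [ATDx_sq β _ t hβ]
  unfold Dd Gg
  simp only [Fin.sum_univ_three]
  have e : (conj β * ((bc τ z 0 : ℂ) * τ 0 ^ 2 + (bc τ z 1 : ℂ) * τ 1 ^ 2 +
      (bc τ z 2 : ℂ) * τ 2 ^ 2 - z ^ 2)).re =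
      bc τ z 0 * (conj β * τ 0 ^ 2).re + bc τ z 1 * (conj β * τ 1 ^ 2).re +
      bc τ z 2 * (conj β * τ 2 ^ 2).re - (conj β * z ^ 2).re := by
    have e1 : conj β * ((bc τ z 0 : ℂ) * τ 0 ^ 2 + (bc τ z 1 : ℂ) * τ 1 ^ 2 +
      (bc τ z 2 : ℂ) * τ 2 ^ 2 - z ^ 2) = (bc τ z 0 : ℂ) * (conj β * τ 0 ^ 2) +
      (bc τ z 1 : ℂ) * (conj β * τ 1 ^ 2) + (bc τ z 2 : ℂ) * (conj β * τ 2 ^ 2) -
      conj β * z ^ 2 := by ring
    rw [e1, Complex.sub_re, Complex.add_re, Complex.add_re, Complex.re_ofReal_mul,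
      Complex.re_ofReal_mul, Complex.re_ofReal_mul]
  rw [e]
  ring

end Pool.Ipm
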