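import Pool.Agent.Work.MP_8cbffb_h28.Interface

set_option autoImplicit false
set_option linter.unusedVariables false

namespace Pool.Ipm

open MeasureTheory Finset ComplexConjugate

theorem CHO_cont (τ : Fin 3 → ℂ) (i : Fin 3) : Continuous fun z => bc τ z i := by
  have h : ∀ a b : ℂ, Continuous fun z : ℂ => crs (a - z) (b - z) / dtm τ := by
    intro a b
    have hr : ∀ a : ℂ, Continuous fun z : ℂ => (a - z).re := fun a =>
      Complex.continuous_re.comp (continuous_const.sub continuous_id)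
    have hi : ∀ a : ℂ, Continuous fun z : ℂ => (a - z).im := fun a =>
      Complex.continuous_im.comp (continuous_const.sub continuous_id)
    exact (((hr a).mul (hi b)).sub ((hi a).mul (hr b))).div_const _
  fin_cases i
  · exact h (τ 1) (τ 2)
  · exact h (τ 2) (τ 0)
  · exact h (τ 0) (τ 1)

theorem CHO_meas (τ : Fin 3 → ℂ) : MeasurableSet (Tri τ) := by
  have h : Tri τ = ⋂ i : Fin 3, {z | 0 < bc τ z i} := by
    ext z
    simp [Tri]
  rw [h]
  exact MeasurableSet.iInter fun i => (isOpen_lt continuous_const (CHO_cont τ i)).measurableSet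

theorem CHO_list (L : List (Fin 3 → ℂ)) : ∃ s : ℂ → Fin 3 → ℂ, (Set.range s).Finite ∧
    (∀ τ, MeasurableSet {z | s z = τ}) ∧ ∀ z, (∃ τ ∈ L, z ∈ Tri τ) → s z ∈ L ∧ z ∈ Tri (s z) := by
  classical
  induction L with
  | nil =>
    refine ⟨fun _ _ => 0, ?_, ?_, ?_⟩
    · exact Set.Finite.subset (Set.finite_singleton (fun _ => (0 : ℂ))) (by
        rintro _ ⟨z, rfl⟩
        rfl)
    · intro τ
      exact MeasurableSet.const _
    · rintro z ⟨τ, hτ, _⟩
      simp at hτ
  | cons τ0 L ih =>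
    obtain ⟨s, h1, h2, h3⟩ := ih
    refine ⟨fun z => if z ∈ Tri τ0 then τ0 else s z, ?_, ?_, ?_⟩
    · refine Set.Finite.subset (h1.insert τ0) ?_
      rintro _ ⟨z, rfl⟩
      by_cases hz : z ∈ Tri τ0
      · left
        simp only [hz, if_true]
      · right
        simp only [hz, if_false]
        exact ⟨z, rfl⟩
    · intro τ
      have h : {z | (if z ∈ Tri τ0 then τ0 else s z) = τ} =
          (Tri τ0 ∩ {z : ℂ | τ0 = τ}) ∪ ((Tri τ0)ᶜ ∩ {z | s z = τ}) := by
        ext z
        by_cases hz : z ∈ Tri τ0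
        · simp [hz]
        · simp [hz]
      rw [h]
      exact ((CHO_meas τ0).inter (MeasurableSet.const _)).union ((CHO_meas τ0).compl.inter (h2 τ))
    · rintro z ⟨τ, hτ, hz'⟩
      by_cases hz : z ∈ Tri τ0
      · simp only [hz, if_true]
        exact ⟨List.mem_cons_self, trivial⟩
      · simp only [hz, if_false]
        rcases List.mem_cons.mp hτ with rfl | h
        · exact absurd hz' hz
        · obtain ⟨h4, h5⟩ := h3 z ⟨τ, h, hz'⟩
          exact ⟨List.mem_cons_of_mem _ h4, h5⟩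

theorem p_CHO (hDEL : S_DEL) : S_CHO := by
  intro Z
  have hfin : {τ : Fin 3 → ℂ | Dl Z τ}.Finite := by
    refine Set.Finite.subset (Fintype.piFinset fun _ : Fin 3 => Z).finite_toSet ?_
    intro τ hτ
    rw [Finset.mem_coe, Fintype.mem_piFinset]
    exact hτ.2.1
  obtain ⟨s, h1, h2, h3⟩ := CHO_list hfin.toFinset.toList
  refine ⟨s, h1, h2, fun z hz => ?_⟩
  obtain ⟨τ, hτ, hz'⟩ := hDEL Z z hz
  have hm : ∀ σ : Fin 3 → ℂ, σ ∈ hfin.toFinset.toList ↔ Dl Z σ := by
    intro σ
    rw [Finset.mem_toList, Set.Finite.mem_toFinset]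
    rfl
  obtain ⟨h4, h5⟩ := h3 z ⟨τ, (hm τ).mpr hτ, hz'⟩
  exact ⟨(hm _).mp h4, h5⟩

end Pool.Ipm
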