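import Pool.Agent.Work.MP_8cbffb_h28.Interface

set_option autoImplicit false

namespace Pool.Ipm

theorem p_CIR (hBAR : S_BAR) : S_CIR := by
  intro τ c z R hd hR
  obtain ⟨h1, h2⟩ := hBAR τ z hd
  have hn : ∀ w : ℂ, ‖w‖ ^ 2 = w.re * w.re + w.im * w.im := fun w => by
    rw [Complex.sq_norm, Complex.normSq_apply]
  have hi : ∀ i, (τ i).re * (τ i).re + (τ i).im * (τ i).im =
      R ^ 2 + 2 * ((τ i).re * c.re + (τ i).im * c.im) - (c.re * c.re + c.im * c.im) := by
    intro i
    have := hR i
    have h3 : ‖τ i - c‖ ^ 2 = R ^ 2 := by rw [this]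
    rw [hn] at h3
    simp only [Complex.sub_re, Complex.sub_im] at h3
    linarith
  have hre := congrArg Complex.re h2
  have him := congrArg Complex.im h2
  simp only [Fin.sum_univ_three, Complex.add_re, Complex.add_im, Complex.mul_re, Complex.mul_im,
    Complex.ofReal_re, Complex.ofReal_im, zero_mul, sub_zero, add_zero] at hre him
  rw [Fin.sum_univ_three] at h1
  unfold Dd
  rw [Fin.sum_univ_three, hn, hn, hn, hn, hn, hi 0, hi 1, hi 2]
  simp only [Complex.sub_re, Complex.sub_im]
  rw [← hre, ← him]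
  linear_combination (R ^ 2 - (c.re * c.re + c.im * c.im)) * h1
end Pool.Ipm
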