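import Pool.Agent.Work.MP_8cbffb_h28.Interface

/-!
# MP_8cbffb_gt: block DDG
-/

set_option autoImplicit false

namespace Pool.Ipm

open MeasureTheory Finset ComplexConjugate

theorem DDG_D (l0 l1 l2 : ℝ) (a b c z : ℂ) (h : l0 + l1 + l2 = 1)
    (hz : (l0 : ℂ) * a + l1 * b + l2 * c = z) :
    l0 * ‖a‖ ^ 2 + l1 * ‖b‖ ^ 2 + l2 * ‖c‖ ^ 2 - ‖z‖ ^ 2 =
      l0 * l1 * ‖a - b‖ ^ 2 + l1 * l2 * ‖b - c‖ ^ 2 + l0 * l2 * ‖a - c‖ ^ 2 := by
  have hl : l2 = 1 - l0 - l1 := by linarith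
  subst hl
  subst hz
  simp only [Complex.sq_norm, Complex.normSq_apply, Complex.add_re, Complex.add_im, Complex.sub_re,
    Complex.sub_im, Complex.mul_re, Complex.mul_im, Complex.ofReal_re, Complex.ofReal_im]
  ring

theorem DDG_G (l0 l1 l2 a b c z : ℂ) (h : l0 + l1 + l2 = 1)
    (hz : l0 * a + l1 * b + l2 * c = z) :
    l0 * a ^ 2 + l1 * b ^ 2 + l2 * c ^ 2 - z ^ 2 =
      l0 * l1 * (a - b) ^ 2 + l1 * l2 * (b - c) ^ 2 + l0 * l2 * (a - c) ^ 2 := by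
  have hl : l2 = 1 - l0 - l1 := by linear_combination h
  subst hl
  subst hz
  ring

/-- Block DDG. -/
theorem p_DDG (hBAR : S_BAR) : S_DDG := by
  intro τ z hτ
  obtain ⟨h1, h2⟩ := hBAR τ z hτ
  rw [Fin.sum_univ_three] at h1 h2
  constructor
  · unfold Dd
    rw [Fin.sum_univ_three]
    exact DDG_D _ _ _ _ _ _ _ h1 h2
  · unfold Gg
    rw [Fin.sum_univ_three]
    have h1' : (bc τ z 0 : ℂ) + (bc τ z 1 : ℂ) + (bc τ z 2 : ℂ) = 1 := by exact_mod_cast h1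
    exact DDG_G _ _ _ _ _ _ _ h1' h2

end Pool.Ipm
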