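import Pool.Agent.Work.MP_8cbffb_h28.Interface

/-!
# Block DEL
-/

set_option autoImplicit false

namespace Pool.Ipm

open MeasureTheory Finset ComplexConjugate

theorem DEL_bc (τ : Fin 3 → ℂ) (l : Fin 3 → ℝ) (z : ℂ) (hd : dtm τ ≠ 0) (hl : ∑ i, l i = 1)
    (hz : ∑ i, (l i : ℂ) * τ i = z) : ∀ i, bc τ z i = l i := by
  rw [Fin.sum_univ_three] at hl hz
  have hre : z.re = l 0 * (τ 0).re + l 1 * (τ 1).re + l 2 * (τ 2).re := by
    rw [← hz]; simp
  have him : z.im = l 0 * (τ 0).im + l 1 * (τ 1).im + l 2 * (τ 2).im := by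
    rw [← hz]; simp
  have h0 : l 0 = 1 - l 1 - l 2 := by linarith
  intro i
  have hd' := hd
  simp only [dtm, crs, Complex.sub_re, Complex.sub_im] at hd'
  fin_cases i
  · change crs (τ 1 - z) (τ 2 - z) / dtm τ = l 0
    rw [div_eq_iff hd]
    simp only [dtm, crs, Complex.sub_re, Complex.sub_im]
    rw [hre, him, h0]; ring
  · change crs (τ 2 - z) (τ 0 - z) / dtm τ = l 1
    rw [div_eq_iff hd]
    simp only [dtm, crs, Complex.sub_re, Complex.sub_im]
    rw [hre, him, h0]; ring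
  · change crs (τ 0 - z) (τ 1 - z) / dtm τ = l 2
    rw [div_eq_iff hd]
    simp only [dtm, crs, Complex.sub_re, Complex.sub_im]
    rw [hre, him, h0]; ring

/-- the other direction of the convex combination of two points -/
theorem DEL_seg {Z : Finset ℂ} {z : ℂ} (hz : z ∈ Reg Z) (a b : ℂ) (ha : a ∈ Z) (hb : b ∈ Z)
    (s t : ℝ) (hs : 0 ≤ s) (ht : 0 ≤ t) (hst : s + t = 1) (h : (s : ℂ) * a + (t : ℂ) * b = z) :
    False := by
  refine hz.2 a ha b hb ⟨s, t, hs, ht, hst, ?_⟩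
  rw [Complex.real_smul, Complex.real_smul]
  exact h

theorem DEL_pos {Z : Finset ℂ} {z : ℂ} (hz : z ∈ Reg Z) (τ : Fin 3 → ℂ) (l : Fin 3 → ℝ)
    (hτ : ∀ i, τ i ∈ Z) (h0 : ∀ i, 0 ≤ l i) (hl : ∑ i, l i = 1)
    (hlz : ∑ i, (l i : ℂ) * τ i = z) : ∀ i, 0 < l i := by
  rw [Fin.sum_univ_three] at hl hlz
  intro i
  by_contra hcon
  have hi : l i = 0 := le_antisymm (not_lt.1 hcon) (h0 i)
  fin_cases i
  · have hi' : l 0 = 0 := hi
    rw [hi', Complex.ofReal_zero, zero_mul, zero_add] at hlz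
    exact DEL_seg hz _ _ (hτ 1) (hτ 2) _ _ (h0 1) (h0 2) (by linarith) hlz
  · have hi' : l 1 = 0 := hi
    rw [hi', Complex.ofReal_zero, zero_mul, add_zero] at hlz
    exact DEL_seg hz _ _ (hτ 0) (hτ 2) _ _ (h0 0) (h0 2) (by linarith) hlz
  · have hi' : l 2 = 0 := hi
    rw [hi', Complex.ofReal_zero, zero_mul, add_zero] at hlz
    exact DEL_seg hz _ _ (hτ 0) (hτ 1) _ _ (h0 0) (h0 1) (by linarith) hlz

/-- Caratheodory -/
theorem DEL_car {Z : Finset ℂ} {z : ℂ} (hz : z ∈ Reg Z) :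
    ∃ τ : Fin 3 → ℂ, (∀ i, τ i ∈ Z) ∧ dtm τ ≠ 0 ∧ z ∈ Tri τ := by
  obtain ⟨ι, _, p, w, hp, hind, hw, hw1, hwz⟩ := eq_pos_convex_span_of_mem_convexHull hz.1
  have hpZ : ∀ i, p i ∈ Z := fun i => hp ⟨i, rfl⟩
  have hcard : Fintype.card ι ≤ 3 := by
    have h1 := hind.card_le_finrank_succ
    have h2 : Module.finrank ℝ (vectorSpan ℝ (Set.range p)) ≤ 2 := by
      rw [← Complex.finrank_real_complex]
      exact Submodule.finrank_le _
    omega
  obtain ⟨n, hn⟩ : ∃ n, Fintype.card ι = n := ⟨_, rfl⟩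
  let e : Fin n ≃ ι := (Fintype.equivFinOfCardEq hn).symm
  have hw1' : ∑ i, w (e i) = 1 := by rw [← hw1]; exact e.sum_comp w
  have hwz' : ∑ i, (w (e i) : ℂ) * p (e i) = z := by
    rw [← hwz, ← e.sum_comp (fun i => w i • p i)]
    exact Finset.sum_congr rfl fun i _ => (Complex.real_smul).symm
  have hn3 : n ≤ 3 := by omega
  interval_cases n
  · simp at hw1'
  · rw [Fin.sum_univ_one] at hw1' hwz'
    exact (DEL_seg hz _ _ (hpZ (e 0)) (hpZ (e 0)) (w (e 0)) 0 (hw _).le le_rfl (by linarith)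
      (by rw [hwz', Complex.ofReal_zero, zero_mul, add_zero])).elim
  · rw [Fin.sum_univ_two] at hw1' hwz'
    exact (DEL_seg hz _ _ (hpZ (e 0)) (hpZ (e 1)) _ _ (hw _).le (hw _).le hw1' hwz').elim
  · have hind' : AffineIndependent ℝ (p ∘ e) := hind.comp_embedding e.toEmbedding
    have hd : dtm (p ∘ e) ≠ 0 := by
      intro hd
      rw [affineIndependent_iff] at hind'
      simp only [dtm, crs, Function.comp, Complex.sub_re, Complex.sub_im] at hd
      set x0 := p (e 0)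
      set x1 := p (e 1)
      set x2 := p (e 2)
      -- relation with the real parts
      have hrel : ∀ s t : ℝ, s * (x1 - x0).re + t * (x2 - x0).re = 0 →
          s * (x1 - x0).im + t * (x2 - x0).im = 0 → s = 0 ∧ t = 0 := by
        intro s t h1 h2
        have h3 := hind' Finset.univ ![-(s + t), s, t] (by
          rw [Fin.sum_univ_three]
          simp only [Matrix.cons_val_zero, Matrix.cons_val_one, Matrix.cons_val_two,
            Matrix.head_cons, Matrix.tail_cons, Matrix.cons_val]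
          ring) (by
          rw [Fin.sum_univ_three]
          simp only [Matrix.cons_val_zero, Matrix.cons_val_one, Matrix.cons_val,
            Function.comp]
          change (-(s + t)) • x0 + s • x1 + t • x2 = 0
          simp only [Complex.sub_re, Complex.sub_im] at h1 h2
          apply Complex.ext
          · simp only [Complex.add_re, Complex.real_smul, Complex.re_ofReal_mul, Complex.zero_re]
            linarith
          · simp only [Complex.add_im, Complex.real_smul, Complex.im_ofReal_mul, Complex.zero_im]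
            linarith)
        exact ⟨h3 1 (Finset.mem_univ _), h3 2 (Finset.mem_univ _)⟩
      have hA := hrel ((x2 - x0).re) (-(x1 - x0).re) (by ring) (by
        simp only [Complex.sub_re, Complex.sub_im]; linarith)
      have hB := hrel ((x2 - x0).im) (-(x1 - x0).im) (by
        simp only [Complex.sub_re, Complex.sub_im]; linarith) (by ring)
      have hC := hrel 1 0 (by
        have := hA.2; simp only [Complex.sub_re] at this ⊢; linarith) (by
        have := hB.2; simp only [Complex.sub_im] at this ⊢; linarith)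
      exact one_ne_zero hC.1
    refine ⟨p ∘ e, fun i => hpZ _, hd, fun i => ?_⟩
    rw [DEL_bc (p ∘ e) (fun i => w (e i)) z hd hw1' hwz' i]
    exact hw _

/-- the circumcircle -/
theorem DEL_circ (τ : Fin 3 → ℂ) (hd : dtm τ ≠ 0) :
    ∃ (c : ℂ) (R : ℝ), 0 ≤ R ∧ ∀ i, ‖τ i - c‖ = R := by
  set a := τ 1 - τ 0 with ha
  set b := τ 2 - τ 0 with hb
  have hd' : a.re * b.im - a.im * b.re ≠ 0 := hd
  set D := a.re * b.im - a.im * b.re with hD
  let u : ℂ := ⟨((a.re ^ 2 + a.im ^ 2) * b.im - (b.re ^ 2 + b.im ^ 2) * a.im) / (2 * D),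
    ((b.re ^ 2 + b.im ^ 2) * a.re - (a.re ^ 2 + a.im ^ 2) * b.re) / (2 * D)⟩
  have hua : 2 * (a.re * u.re + a.im * u.im) = a.re ^ 2 + a.im ^ 2 := by
    simp only [u]
    field_simp
    rw [hD]; ring
  have hub : 2 * (b.re * u.re + b.im * u.im) = b.re ^ 2 + b.im ^ 2 := by
    simp only [u]
    field_simp
    rw [hD]; ring
  have hsq : ∀ x : ℂ, ‖x‖ ^ 2 = x.re ^ 2 + x.im ^ 2 := by
    intro x
    rw [Complex.sq_norm, Complex.normSq_apply]; ring
  refine ⟨τ 0 + u, ‖u‖, norm_nonneg _, ?_⟩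
  have key : ∀ x : ℂ, ‖x‖ ^ 2 = ‖u‖ ^ 2 → ‖x‖ = ‖u‖ := by
    intro x hx
    exact (pow_left_inj₀ (norm_nonneg _) (norm_nonneg _) two_ne_zero).1 hx
  intro i
  fin_cases i
  · apply key
    rw [hsq, hsq]
    simp
  · apply key
    have e1 : τ 1 - (τ 0 + u) = a - u := by rw [ha]; ring
    change ‖τ 1 - (τ 0 + u)‖ ^ 2 = _
    rw [e1, hsq, hsq, Complex.sub_re, Complex.sub_im]
    linarith
  · apply key
    have e1 : τ 2 - (τ 0 + u) = b - u := by rw [hb]; ring
    change ‖τ 2 - (τ 0 + u)‖ ^ 2 = _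
    rw [e1, hsq, hsq, Complex.sub_re, Complex.sub_im]
    linarith

/-- the exchange step -/
theorem DEL_exch (hBAR : S_BAR) {Z : Finset ℂ} {z : ℂ} (hz : z ∈ Reg Z) (τ : Fin 3 → ℂ)
    (hτ : ∀ i, τ i ∈ Z) (hd : dtm τ ≠ 0) (hzt : z ∈ Tri τ) (w : ℂ) (hw : w ∈ Z)
    (hlt : ‖w‖ ^ 2 < ∑ i, bc τ w i * ‖τ i‖ ^ 2) :
    ∃ τ' : Fin 3 → ℂ, (∀ i, τ' i ∈ Z) ∧ dtm τ' ≠ 0 ∧ z ∈ Tri τ' ∧
      ∑ i, bc τ' z i * ‖τ' i‖ ^ 2 < ∑ i, bc τ z i * ‖τ i‖ ^ 2 := by
  classical
  obtain ⟨hl1, hlz⟩ := hBAR τ z hd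
  obtain ⟨hm1, hmw⟩ := hBAR τ w hd
  set l := bc τ z with hl
  set μ := bc τ w with hμ
  have hlpos : ∀ i, 0 < l i := hzt
  have hne : (Finset.univ.filter fun i => 0 < μ i).Nonempty := by
    by_contra hcon
    rw [Finset.not_nonempty_iff_eq_empty, Finset.filter_eq_empty_iff] at hcon
    have : ∑ i, μ i ≤ 0 := Finset.sum_nonpos fun i hi => not_lt.1 (hcon hi)
    linarith
  obtain ⟨j, hj, hjm⟩ := Finset.exists_min_image _ (fun i => l i / μ i) hne
  have hμj : 0 < μ j := (Finset.mem_filter.1 hj).2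
  set ε := l j / μ j with hε
  have hεpos : 0 < ε := div_pos (hlpos j) hμj
  have hεj : l j - ε * μ j = 0 := by
    rw [hε, div_mul_cancel₀ _ hμj.ne', sub_self]
  have hnn : ∀ i, 0 ≤ l i - ε * μ i := by
    intro i
    by_cases hi : 0 < μ i
    · have := hjm i (Finset.mem_filter.2 ⟨Finset.mem_univ _, hi⟩)
      rw [le_div_iff₀ hi] at this
      linarith
    · have h1 : ε * μ i ≤ 0 := mul_nonpos_of_nonneg_of_nonpos hεpos.le (not_lt.1 hi)
      have := hlpos i
      linarith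
  let τ' : Fin 3 → ℂ := Function.update τ j w
  let l' : Fin 3 → ℝ := Function.update (fun i => l i - ε * μ i) j ε
  have hτ' : ∀ i, τ' i ∈ Z := by
    intro i
    by_cases hij : i = j
    · subst hij; simp only [τ', Function.update_self]; exact hw
    · simp only [τ', Function.update_of_ne hij]; exact hτ i
  have hl' : ∀ i, 0 ≤ l' i := by
    intro i
    by_cases hij : i = j
    · subst hij; simp only [l', Function.update_self]; exact hεpos.le
    · simp only [l', Function.update_of_ne hij]; exact hnn i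
  -- general summation formula
  have hsum : ∀ f : ℂ → ℂ, ∑ i, (l' i : ℂ) * f (τ' i) =
      ∑ i, ((l i - ε * μ i : ℝ) : ℂ) * f (τ i) + (ε : ℂ) * f w := by
    intro f
    rw [← Finset.add_sum_erase _ _ (Finset.mem_univ j),
      ← Finset.add_sum_erase _ (fun i => ((l i - ε * μ i : ℝ) : ℂ) * f (τ i)) (Finset.mem_univ j)]
    rw [hεj, Complex.ofReal_zero, zero_mul, zero_add, add_comm]
    congr 1
    · refine Finset.sum_congr rfl fun i hi => ?_
      have hij : i ≠ j := Finset.ne_of_mem_erase hi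
      simp only [l', τ', Function.update_of_ne hij]
    · simp only [l', τ', Function.update_self]
  have hsumR : ∀ f : ℂ → ℝ, ∑ i, l' i * f (τ' i) =
      ∑ i, (l i - ε * μ i) * f (τ i) + ε * f w := by
    intro f
    have h1 := hsum (fun x => ((f x : ℝ) : ℂ))
    exact_mod_cast h1
  have h1' : ∑ i, l' i = 1 := by
    have h1 := hsumR (fun _ => 1)
    simp only [mul_one] at h1
    rw [h1, Finset.sum_sub_distrib, ← Finset.mul_sum, hl1, hm1]
    ring
  have hz' : ∑ i, (l' i : ℂ) * τ' i = z := by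
    have h1 := hsum (fun x => x)
    rw [h1]
    have h2 : ∑ i, ((l i - ε * μ i : ℝ) : ℂ) * τ i =
        ∑ i, (l i : ℂ) * τ i - ε * ∑ i, (μ i : ℂ) * τ i := by
      rw [Finset.mul_sum, ← Finset.sum_sub_distrib]
      refine Finset.sum_congr rfl fun i _ => ?_
      push_cast; ring
    rw [h2, hlz, hmw]; ring
  have hd' : dtm τ' = μ j * dtm τ := by
    have hbc : ∀ i, μ i * dtm τ = (![crs (τ 1 - w) (τ 2 - w), crs (τ 2 - w) (τ 0 - w),
        crs (τ 0 - w) (τ 1 - w)] : Fin 3 → ℝ) i := by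
      intro i
      fin_cases i
      · exact div_mul_cancel₀ _ hd
      · exact div_mul_cancel₀ _ hd
      · exact div_mul_cancel₀ _ hd
    rw [hbc j]
    fin_cases j
    · simp [τ', dtm, crs, Function.update]
    · simp [τ', dtm, crs, Function.update]
      ring
    · simp [τ', dtm, crs, Function.update]
      ring
  have hd2 : dtm τ' ≠ 0 := by
    rw [hd']
    exact mul_ne_zero hμj.ne' hd
  have hpos := DEL_pos hz τ' l' hτ' hl' h1' hz'
  have hbc' := DEL_bc τ' l' z hd2 h1' hz'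
  refine ⟨τ', hτ', hd2, fun i => by rw [hbc' i]; exact hpos i, ?_⟩
  have h3 := hsumR (fun x => ‖x‖ ^ 2)
  have h4 : ∑ i, bc τ' z i * ‖τ' i‖ ^ 2 = ∑ i, l' i * ‖τ' i‖ ^ 2 :=
    Finset.sum_congr rfl fun i _ => by rw [hbc' i]
  rw [h4, h3]
  have h5 : ∑ i, (l i - ε * μ i) * ‖τ i‖ ^ 2 =
      ∑ i, l i * ‖τ i‖ ^ 2 - ε * ∑ i, μ i * ‖τ i‖ ^ 2 := by
    rw [Finset.mul_sum, ← Finset.sum_sub_distrib]
    exact Finset.sum_congr rfl fun i _ => by ring
  rw [h5]
  have := mul_lt_mul_of_pos_left hlt hεpos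
  linarith

theorem p_DEL (hBAR : S_BAR) (hCIR : S_CIR) : S_DEL := by
  classical
  intro Z z hz
  obtain ⟨τ0, h01, h02, h03⟩ := DEL_car hz
  let T : Finset (Fin 3 → ℂ) := (Fintype.piFinset fun _ : Fin 3 => Z).filter
    fun τ => dtm τ ≠ 0 ∧ z ∈ Tri τ
  obtain ⟨τ, hτT, hmin⟩ := Finset.exists_min_image T (fun τ => ∑ i, bc τ z i * ‖τ i‖ ^ 2)
    ⟨τ0, Finset.mem_filter.2 ⟨Fintype.mem_piFinset.2 h01, h02, h03⟩⟩
  obtain ⟨hτZ, hd, hzt⟩ := Finset.mem_filter.1 hτT
  have hτZ' := Fintype.mem_piFinset.1 hτZ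
  obtain ⟨c, R, hR, hc⟩ := DEL_circ τ hd
  refine ⟨τ, ⟨hd, hτZ', c, R, hR, hc, ?_⟩, hzt⟩
  intro w hw
  by_contra hcon
  push Not at hcon
  have h1 := hCIR τ c w R hd hc
  have h2 : 0 < R ^ 2 - ‖w - c‖ ^ 2 := by
    have := pow_lt_pow_left₀ hcon (norm_nonneg _) two_ne_zero
    linarith
  rw [← h1] at h2
  unfold Dd at h2
  obtain ⟨τ', h3, h4, h5, h6⟩ := DEL_exch hBAR hz τ hτZ' hd hzt w hw (by linarith)
  have h7 := hmin τ' (Finset.mem_filter.2 ⟨Fintype.mem_piFinset.2 h3, h4, h5⟩)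
  exact absurd h6 (not_lt.2 h7)

end Pool.Ipm
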