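import Pool.Agent.Work.MP_8cbffb_h28.Interface

set_option autoImplicit false

namespace Pool.Ipm

open MeasureTheory Finset ComplexConjugate

theorem EMB_nq (w : ℂ) : ‖w‖ ^ 2 = w.re * w.re + w.im * w.im := by
  rw [Complex.sq_norm, Complex.normSq_apply]

theorem p_EMB : S_EMB := by
  intro Z v l t hv hl hsum ht hle
  refine ⟨ht, ?_, ?_⟩
  · show ∑ i, (l i : ℂ) * v i ∈ convexHull ℝ (Z : Set ℂ)
    have h := (convex_convexHull ℝ (Z : Set ℂ)).sum_mem (t := Finset.univ) (w := l) (z := v)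
      (fun i _ => hl i) hsum (fun i _ => subset_convexHull ℝ _ (hv i))
    have e : ∑ i, (l i : ℂ) * v i = ∑ i, l i • v i := by
      apply Finset.sum_congr rfl
      intro i _
      rw [Complex.real_smul]
    rw [e]
    exact h
  · intro a R hR
    show R ^ 2 ≤ ‖∑ i, (l i : ℂ) * v i - a‖ ^ 2 + t ^ 2
    have g0 := mul_le_mul_of_nonneg_left (hR (v 0) (hv 0)) (hl 0)
    have g1 := mul_le_mul_of_nonneg_left (hR (v 1) (hv 1)) (hl 1)
    have g2 := mul_le_mul_of_nonneg_left (hR (v 2) (hv 2)) (hl 2)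
    rw [Fin.sum_univ_three] at hsum
    have hl2 : l 2 = 1 - l 0 - l 1 := by linarith
    rw [Fin.sum_univ_three, Fin.sum_univ_three] at hle
    rw [Fin.sum_univ_three]
    have key : l 0 * ‖v 0 - a‖ ^ 2 + l 1 * ‖v 1 - a‖ ^ 2 + l 2 * ‖v 2 - a‖ ^ 2 =
        ‖(l 0 : ℂ) * v 0 + (l 1 : ℂ) * v 1 + (l 2 : ℂ) * v 2 - a‖ ^ 2 +
        (l 0 * ‖v 0‖ ^ 2 + l 1 * ‖v 1‖ ^ 2 + l 2 * ‖v 2‖ ^ 2 -
          ‖(l 0 : ℂ) * v 0 + (l 1 : ℂ) * v 1 + (l 2 : ℂ) * v 2‖ ^ 2) := by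
      simp only [EMB_nq, Complex.add_re, Complex.add_im, Complex.sub_re, Complex.sub_im,
        Complex.re_ofReal_mul, Complex.im_ofReal_mul]
      rw [hl2]
      ring
    have hRR : R ^ 2 = l 0 * R ^ 2 + l 1 * R ^ 2 + l 2 * R ^ 2 := by
      rw [hl2]; ring
    linarith

end Pool.Ipm
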