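import Pool.Agent.Work.MP_8cbffb_h28.Interface

/-!
# FIV: finiteness of the volume integral
-/

set_option autoImplicit false

namespace Pool.Ipm

open MeasureTheory Finset ComplexConjugate

theorem p_FIV (hFTR : S_FTR) : S_FIV := by
  classical
  intro Z s hs
  obtain ⟨hfin, hmeas, hreg⟩ := hs
  have : Finite (Set.range s) := hfin.to_subtype
  have : Fintype (Set.range s) := Fintype.ofFinite _
  have h0 : Reg Z = ⋃ τ : Set.range s, ({z | s z = (τ : Fin 3 → ℂ)} ∩ Reg Z) := by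
    ext z
    rw [Set.mem_iUnion]
    constructor
    · intro hz
      exact ⟨⟨s z, z, rfl⟩, rfl, hz⟩
    · rintro ⟨_, _, hz⟩
      exact hz
  have h1 : ∀ τ : Set.range s, ∫⁻ z in ({z | s z = (τ : Fin 3 → ℂ)} ∩ Reg Z),
      ENNReal.ofReal (1 / Dd (s z) z) < ⊤ := by
    intro τ
    by_cases hne : ({z | s z = (τ : Fin 3 → ℂ)} ∩ Reg Z).Nonempty
    · obtain ⟨z0, hz0, hz0r⟩ := hne
      have hd : dtm (τ : Fin 3 → ℂ) ≠ 0 := by
        have := (hreg z0 hz0r).1.1
        rwa [show s z0 = (τ : Fin 3 → ℂ) from hz0] at this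
      have hsub : ({z | s z = (τ : Fin 3 → ℂ)} ∩ Reg Z) ⊆ Tri (τ : Fin 3 → ℂ) := by
        rintro z ⟨hz, hzr⟩
        have := (hreg z hzr).2
        rwa [show s z = (τ : Fin 3 → ℂ) from hz] at this
      rw [← Measure.restrict_restrict (hmeas τ),
        setLIntegral_congr_fun (g := fun z => ENNReal.ofReal (1 / Dd (τ : Fin 3 → ℂ) z)) (hmeas τ)
          (fun z hz => by
            show ENNReal.ofReal (1 / Dd (s z) z) = _
            rw [show s z = (τ : Fin 3 → ℂ) from hz]),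
        Measure.restrict_restrict (hmeas τ)]
      exact lt_of_le_of_lt (lintegral_mono_set hsub) (hFTR τ hd)
    · rw [Set.not_nonempty_iff_eq_empty.1 hne]
      simp
  have h2 : ∫⁻ z in Reg Z, ENNReal.ofReal (1 / Dd (s z) z) ≤
      ∑' τ : Set.range s, ∫⁻ z in ({z | s z = (τ : Fin 3 → ℂ)} ∩ Reg Z),
        ENNReal.ofReal (1 / Dd (s z) z) := by
    conv_lhs => rw [h0]
    exact lintegral_iUnion_le _ _
  refine lt_of_le_of_lt h2 ?_
  rw [tsum_fintype]
  exact ENNReal.sum_lt_top.2 fun τ _ => h1 τ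

end Pool.Ipm
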