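import Pool.Agent.Work.MP_8cbffb_h28.Interface

/-! # MP_8cbffb_gt, block FNR -/

set_option autoImplicit false

namespace Pool.Ipm

open MeasureTheory Finset ComplexConjugate

theorem FNR_zero (r : ℝ) :
    ∫⁻ z in Metric.ball (0 : ℂ) r, ENNReal.ofReal (1 / ‖z‖) < ⊤ := by
  rw [← lintegral_indicator Metric.isOpen_ball.measurableSet,
    ← Complex.lintegral_comp_polarCoord_symm]
  have h1 : ∫⁻ p in polarCoord.target, ENNReal.ofReal p.1 •
      (Metric.ball (0 : ℂ) r).indicator (fun z => ENNReal.ofReal (1 / ‖z‖))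
        (Complex.polarCoord.symm p) ≤
      ∫⁻ p in polarCoord.target, (Set.Ioo (0 : ℝ) r ×ˢ Set.Ioo (-Real.pi) Real.pi).indicator
        (fun _ => (1 : ENNReal)) p := by
    apply setLIntegral_mono' (by
      rw [polarCoord_target]
      exact measurableSet_Ioi.prod measurableSet_Ioo)
    intro p hp
    rw [polarCoord_target] at hp
    have hp1 : 0 < p.1 := hp.1
    by_cases hb : Complex.polarCoord.symm p ∈ Metric.ball (0 : ℂ) r
    · have hn : ‖Complex.polarCoord.symm p‖ = p.1 := by
        rw [Complex.norm_polarCoord_symm, abs_of_pos hp1]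
      have hr : p.1 < r := by
        rw [mem_ball_zero_iff, hn] at hb
        exact hb
      rw [Set.indicator_of_mem hb, Set.indicator_of_mem (show p ∈ Set.Ioo (0 : ℝ) r ×ˢ
          Set.Ioo (-Real.pi) Real.pi from ⟨⟨hp1, hr⟩, hp.2⟩), hn,
        smul_eq_mul, ← ENNReal.ofReal_mul hp1.le, mul_one_div_cancel hp1.ne', ENNReal.ofReal_one]
    · rw [Set.indicator_of_notMem hb, smul_zero]
      exact bot_le
  refine lt_of_le_of_lt h1 (lt_of_le_of_lt (setLIntegral_le_lintegral _ _) ?_)
  rw [lintegral_indicator (measurableSet_Ioo.prod measurableSet_Ioo), setLIntegral_const, one_mul,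
    Measure.volume_eq_prod, Measure.prod_prod, Real.volume_Ioo, Real.volume_Ioo]
  exact ENNReal.mul_lt_top ENNReal.ofReal_lt_top ENNReal.ofReal_lt_top

theorem p_FNR : S_FNR := by
  intro w r
  have h := FNR_zero r
  have e : ∫⁻ z in Metric.ball w r, ENNReal.ofReal (1 / ‖z - w‖) =
      ∫⁻ z in Metric.ball (0 : ℂ) r, ENNReal.ofReal (1 / ‖z‖) := by
    rw [← lintegral_indicator Metric.isOpen_ball.measurableSet,
      ← lintegral_indicator Metric.isOpen_ball.measurableSet,
      ← lintegral_sub_right_eq_self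
        ((Metric.ball (0 : ℂ) r).indicator fun z => ENNReal.ofReal (1 / ‖z‖)) w]
    apply lintegral_congr
    intro z
    by_cases hz : z ∈ Metric.ball w r
    · have hz' : z - w ∈ Metric.ball (0 : ℂ) r := by
        rw [mem_ball_zero_iff, ← dist_eq_norm]
        exact hz
      rw [Set.indicator_of_mem hz, Set.indicator_of_mem hz']
    · have hz' : z - w ∉ Metric.ball (0 : ℂ) r := by
        rw [mem_ball_zero_iff, ← dist_eq_norm]
        exact hz
      rw [Set.indicator_of_notMem hz, Set.indicator_of_notMem hz']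
  rw [e]
  exact h

end Pool.Ipm
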