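import Pool.Agent.Work.MP_8cbffb_h28.Interface

/-!
# Block FTR: finiteness of the volume integral over one triangle
-/

set_option autoImplicit false

namespace Pool.Ipm

open MeasureTheory Finset ComplexConjugate

theorem FTR_key (l n D L q : ℝ) (hl : 1 / 3 ≤ l) (hl1 : l ≤ 1) (hL : 0 ≤ L) (hq : 0 < q) (hn : n ≤ (1 - l) * L)
    (hD : q * (l * (1 - l)) ≤ D) : n ≤ 3 * L / q * D := by
  have h1 : 3 * L / q * (q * (l * (1 - l))) ≤ 3 * L / q * D :=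
    mul_le_mul_of_nonneg_left hD (by positivity)
  have h2 : 3 * L / q * (q * (l * (1 - l))) = 3 * L * (l * (1 - l)) := by
    field_simp
  rw [h2] at h1
  have h3 : 0 ≤ (3 * l - 1) * ((1 - l) * L) := mul_nonneg (by linarith) (mul_nonneg (by linarith) hL)
  nlinarith

theorem FTR_inv (n D C : ℝ) (hn : 0 < n) (hD : 0 < D) (h : n ≤ C * D) : 1 / D ≤ C * (1 / n) := by
  rw [mul_one_div, div_le_div_iff₀ hD hn]
  linarith

theorem FTR_cont (τ : Fin 3 → ℂ) (i : Fin 3) : Continuous (fun z => bc τ z i) := by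
  have h : ∀ a b : ℂ, Continuous (fun z : ℂ => crs (a - z) (b - z) / dtm τ) := by
    intro a b
    unfold crs
    fun_prop
  fin_cases i
  · exact h (τ 1) (τ 2)
  · exact h (τ 2) (τ 0)
  · exact h (τ 0) (τ 1)

theorem FTR_meas (τ : Fin 3 → ℂ) : MeasurableSet (Tri τ) := by
  have h : Tri τ = ⋂ i : Fin 3, {z | 0 < bc τ z i} := by
    ext z
    rw [Set.mem_iInter]
    rfl
  rw [h]
  exact MeasurableSet.iInter fun i => (isOpen_lt continuous_const (FTR_cont τ i)).measurableSet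

theorem FTR_num (q a b c D : ℝ) (hq : 0 < q) (hbc : 0 < b * c) (hs : a + b + c = 1)
    (hD : q * (a * b + b * c + a * c) ≤ D) : q * (a * (1 - a)) ≤ D := by
  have h1 : a * (1 - a) = a * b + a * c := by
    rw [show 1 - a = b + c by linarith]
    ring
  rw [h1]
  refine le_trans (mul_le_mul_of_nonneg_left ?_ hq.le) hD
  linarith

/-- the bound -/
theorem FTR_bound (hBAR : S_BAR) (hDDG : S_DDG) (τ : Fin 3 → ℂ) (hd : dtm τ ≠ 0) : ∃ C r : ℝ, 0 ≤ C ∧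
    ∀ z ∈ Tri τ, (∀ i, ‖z - τ i‖ < r) ∧
      1 / Dd τ z ≤ C * (1 / ‖z - τ 0‖) + C * (1 / ‖z - τ 1‖) + C * (1 / ‖z - τ 2‖) := by
  have h01 : τ 0 - τ 1 ≠ 0 := by
    intro h
    apply hd
    have h3 : τ 1 = τ 0 := (sub_eq_zero.1 h).symm
    unfold dtm crs
    rw [h3]
    simp
  have h02 : τ 0 - τ 2 ≠ 0 := by
    intro h
    apply hd
    have h3 : τ 2 = τ 0 := (sub_eq_zero.1 h).symm
    unfold dtm crs
    rw [h3]
    simp
  have h12 : τ 1 - τ 2 ≠ 0 := by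
    intro h
    apply hd
    have h3 : τ 1 = τ 2 := sub_eq_zero.1 h
    unfold dtm crs
    rw [h3]
    ring
  have n01 := norm_pos_iff.2 h01
  have n02 := norm_pos_iff.2 h02
  have n12 := norm_pos_iff.2 h12
  obtain ⟨L, hL⟩ : ∃ L : ℝ, L = ‖τ 0 - τ 1‖ + ‖τ 0 - τ 2‖ + ‖τ 1 - τ 2‖ := ⟨_, rfl⟩
  obtain ⟨q, hq⟩ : ∃ q : ℝ, q = min (‖τ 0 - τ 1‖ ^ 2) (min (‖τ 0 - τ 2‖ ^ 2) (‖τ 1 - τ 2‖ ^ 2)) := ⟨_, rfl⟩
  have hq0 : 0 < q := by
    rw [hq]
    exact lt_min (by positivity) (lt_min (by positivity) (by positivity))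
  have q01 : q ≤ ‖τ 0 - τ 1‖ ^ 2 := by rw [hq]; exact min_le_left _ _
  have q02 : q ≤ ‖τ 0 - τ 2‖ ^ 2 := by rw [hq]; exact (min_le_right _ _).trans (min_le_left _ _)
  have q12 : q ≤ ‖τ 1 - τ 2‖ ^ 2 := by rw [hq]; exact (min_le_right _ _).trans (min_le_right _ _)
  have hL0 : 0 ≤ L := by rw [hL]; positivity
  refine ⟨3 * L / q, L + 1, by positivity, ?_⟩
  intro z hz
  obtain ⟨hs, hzz⟩ := hBAR τ z hd
  obtain ⟨hD, -⟩ := hDDG τ z hd
  have b0 : 0 < bc τ z 0 := hz 0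
  have b1 : 0 < bc τ z 1 := hz 1
  have b2 : 0 < bc τ z 2 := hz 2
  rw [Fin.sum_univ_three] at hs hzz
  have z0 : z ≠ τ 0 := by
    intro h
    rw [h] at b1
    apply b1.ne'
    change crs (τ 2 - τ 0) (τ 0 - τ 0) / dtm τ = 0
    unfold crs
    simp
  have z1 : z ≠ τ 1 := by
    intro h
    rw [h] at b0
    apply b0.ne'
    change crs (τ 1 - τ 1) (τ 2 - τ 1) / dtm τ = 0
    unfold crs
    simp
  have z2 : z ≠ τ 2 := by
    intro h
    rw [h] at b0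
    apply b0.ne'
    change crs (τ 1 - τ 2) (τ 2 - τ 2) / dtm τ = 0
    unfold crs
    simp
  generalize hl0 : bc τ z 0 = l0 at *
  generalize hl1 : bc τ z 1 = l1 at *
  generalize hl2 : bc τ z 2 = l2 at *
  have hsC : (l0 : ℂ) + l1 + l2 = 1 := by exact_mod_cast hs
  have comb : ∀ (a b : ℝ) (u v : ℂ), 0 ≤ a → 0 ≤ b → ‖u‖ ≤ L → ‖v‖ ≤ L → ‖(a : ℂ) * u + b * v‖ ≤ (a + b) * L := by
    intro a b u v ha hb hu hv
    refine (norm_add_le _ _).trans ?_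
    rw [norm_mul, norm_mul, Complex.norm_real, Complex.norm_real, Real.norm_of_nonneg ha, Real.norm_of_nonneg hb,
      add_mul]
    exact add_le_add (mul_le_mul_of_nonneg_left hu ha) (mul_le_mul_of_nonneg_left hv hb)
  have e01 : ‖τ 0 - τ 1‖ ≤ L := by rw [hL]; linarith
  have e02 : ‖τ 0 - τ 2‖ ≤ L := by rw [hL]; linarith
  have e12 : ‖τ 1 - τ 2‖ ≤ L := by rw [hL]; linarith
  have e10 : ‖τ 1 - τ 0‖ ≤ L := by rw [norm_sub_rev]; exact e01
  have e20 : ‖τ 2 - τ 0‖ ≤ L := by rw [norm_sub_rev]; exact e02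
  have e21 : ‖τ 2 - τ 1‖ ≤ L := by rw [norm_sub_rev]; exact e12
  have m0 : ‖z - τ 0‖ ≤ (1 - l0) * L := by
    have h : z - τ 0 = (l1 : ℂ) * (τ 1 - τ 0) + l2 * (τ 2 - τ 0) := by
      linear_combination (-1 : ℂ) * hzz + τ 0 * hsC
    rw [h, show 1 - l0 = l1 + l2 by linarith]
    exact comb l1 l2 _ _ b1.le b2.le e10 e20
  have m1 : ‖z - τ 1‖ ≤ (1 - l1) * L := by
    have h : z - τ 1 = (l0 : ℂ) * (τ 0 - τ 1) + l2 * (τ 2 - τ 1) := by
      linear_combination (-1 : ℂ) * hzz + τ 1 * hsC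
    rw [h, show 1 - l1 = l0 + l2 by linarith]
    exact comb l0 l2 _ _ b0.le b2.le e01 e21
  have m2 : ‖z - τ 2‖ ≤ (1 - l2) * L := by
    have h : z - τ 2 = (l0 : ℂ) * (τ 0 - τ 2) + l1 * (τ 1 - τ 2) := by
      linear_combination (-1 : ℂ) * hzz + τ 2 * hsC
    rw [h, show 1 - l2 = l0 + l1 by linarith]
    exact comb l0 l1 _ _ b0.le b1.le e02 e12
  have p0 : 0 < ‖z - τ 0‖ := norm_pos_iff.2 (sub_ne_zero.2 z0)
  have p1 : 0 < ‖z - τ 1‖ := norm_pos_iff.2 (sub_ne_zero.2 z1)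
  have p2 : 0 < ‖z - τ 2‖ := norm_pos_iff.2 (sub_ne_zero.2 z2)
  have hDq : q * (l0 * l1 + l1 * l2 + l0 * l2) ≤ Dd τ z := by
    rw [hD]
    have a1 : l0 * l1 * q ≤ l0 * l1 * ‖τ 0 - τ 1‖ ^ 2 := mul_le_mul_of_nonneg_left q01 (by positivity)
    have a2 : l1 * l2 * q ≤ l1 * l2 * ‖τ 1 - τ 2‖ ^ 2 := mul_le_mul_of_nonneg_left q12 (by positivity)
    have a3 : l0 * l2 * q ≤ l0 * l2 * ‖τ 0 - τ 2‖ ^ 2 := mul_le_mul_of_nonneg_left q02 (by positivity)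
    linarith
  have t01 : 0 < l0 * l1 := by positivity
  have t12 : 0 < l1 * l2 := by positivity
  have t02 : 0 < l0 * l2 := by positivity
  have hD0 : 0 < Dd τ z := lt_of_lt_of_le (by positivity) hDq
  have hC : 0 ≤ 3 * L / q := by positivity
  have s0 : 0 ≤ 3 * L / q * (1 / ‖z - τ 0‖) := by positivity
  have s1 : 0 ≤ 3 * L / q * (1 / ‖z - τ 1‖) := by positivity
  have s2 : 0 ≤ 3 * L / q * (1 / ‖z - τ 2‖) := by positivity
  have r : ∀ l : ℝ, 0 ≤ l → (1 - l) * L ≤ L := fun l hl => by nlinarith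
  refine ⟨?_, ?_⟩
  · intro i
    fin_cases i
    · exact lt_of_le_of_lt (m0.trans (r l0 b0.le)) (by linarith)
    · exact lt_of_le_of_lt (m1.trans (r l1 b1.le)) (by linarith)
    · exact lt_of_le_of_lt (m2.trans (r l2 b2.le)) (by linarith)
  · by_cases c0 : 1 / 3 ≤ l0
    · have h1 := FTR_num q l0 l1 l2 _ hq0 t12 hs hDq
      have h2 := FTR_inv _ _ _ p0 hD0 (FTR_key l0 _ _ L q c0 (by linarith) hL0 hq0 m0 h1)
      linarith
    · by_cases c1 : 1 / 3 ≤ l1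
      · have h1 := FTR_num q l1 l0 l2 (Dd τ z) hq0 t02 (by linarith)
          (by rw [show l1 * l0 + l0 * l2 + l1 * l2 = l0 * l1 + l1 * l2 + l0 * l2 by ring]; exact hDq)
        have h2 := FTR_inv _ _ _ p1 hD0 (FTR_key l1 _ _ L q c1 (by linarith) hL0 hq0 m1 h1)
        linarith
      · have c2 : 1 / 3 ≤ l2 := by linarith
        have h1 := FTR_num q l2 l0 l1 (Dd τ z) hq0 t01 (by linarith)
          (by rw [show l2 * l0 + l0 * l1 + l2 * l1 = l0 * l1 + l1 * l2 + l0 * l2 by ring]; exact hDq)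
        have h2 := FTR_inv _ _ _ p2 hD0 (FTR_key l2 _ _ L q c2 (by linarith) hL0 hq0 m2 h1)
        linarith

theorem p_FTR (hBAR : S_BAR) (hDDG : S_DDG) (hFNR : S_FNR) : S_FTR := by
  intro τ hd
  obtain ⟨C, r, hC, hb⟩ := FTR_bound hBAR hDDG τ hd
  have hm : ∀ i : Fin 3, Measurable (fun z : ℂ => ENNReal.ofReal (1 / ‖z - τ i‖)) := by
    intro i
    fun_prop
  have hfin : ∀ i : Fin 3, ∫⁻ z in Tri τ, ENNReal.ofReal C * ENNReal.ofReal (1 / ‖z - τ i‖) < ⊤ := by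
    intro i
    rw [lintegral_const_mul _ (hm i)]
    refine ENNReal.mul_lt_top ENNReal.ofReal_lt_top (lt_of_le_of_lt ?_ (hFNR (τ i) r))
    refine lintegral_mono_set fun z hz => ?_
    rw [Metric.mem_ball, dist_eq_norm]
    exact (hb z hz).1 i
  have hle : ∫⁻ z in Tri τ, ENNReal.ofReal (1 / Dd τ z) ≤ ∫⁻ z in Tri τ,
      ((ENNReal.ofReal C * ENNReal.ofReal (1 / ‖z - τ 0‖) + ENNReal.ofReal C * ENNReal.ofReal (1 / ‖z - τ 1‖)) +
        ENNReal.ofReal C * ENNReal.ofReal (1 / ‖z - τ 2‖)) := by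
    refine setLIntegral_mono' (FTR_meas τ) fun z hz => ?_
    rw [← ENNReal.ofReal_mul hC, ← ENNReal.ofReal_mul hC, ← ENNReal.ofReal_mul hC,
      ← ENNReal.ofReal_add (by positivity) (by positivity), ← ENNReal.ofReal_add (by positivity) (by positivity)]
    exact ENNReal.ofReal_le_ofReal (hb z hz).2
  refine lt_of_le_of_lt hle ?_
  have hc : ∀ i : Fin 3, Measurable (fun z : ℂ => ENNReal.ofReal C * ENNReal.ofReal (1 / ‖z - τ i‖)) :=
    fun i => (hm i).const_mul _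
  have e1 := lintegral_add_left (μ := volume.restrict (Tri τ)) ((hc 0).add (hc 1))
    (fun z : ℂ => ENNReal.ofReal C * ENNReal.ofReal (1 / ‖z - τ 2‖))
  have e2 := lintegral_add_left (μ := volume.restrict (Tri τ)) (hc 0)
    (fun z : ℂ => ENNReal.ofReal C * ENNReal.ofReal (1 / ‖z - τ 1‖))
  have e3 : ∫⁻ z in Tri τ,
      ((ENNReal.ofReal C * ENNReal.ofReal (1 / ‖z - τ 0‖) + ENNReal.ofReal C * ENNReal.ofReal (1 / ‖z - τ 1‖)) +
        ENNReal.ofReal C * ENNReal.ofReal (1 / ‖z - τ 2‖)) =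
      ((∫⁻ z in Tri τ, ENNReal.ofReal C * ENNReal.ofReal (1 / ‖z - τ 0‖)) +
        (∫⁻ z in Tri τ, ENNReal.ofReal C * ENNReal.ofReal (1 / ‖z - τ 1‖))) +
        (∫⁻ z in Tri τ, ENNReal.ofReal C * ENNReal.ofReal (1 / ‖z - τ 2‖)) := by
    rw [← e2]
    exact e1
  rw [e3]
  exact ENNReal.add_lt_top.2 ⟨ENNReal.add_lt_top.2 ⟨hfin 0, hfin 1⟩, hfin 2⟩

end Pool.Ipm
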