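import Pool.Agent.Work.MP_8cbffb_h28.Interface

set_option autoImplicit false

namespace Pool.Ipm

open MeasureTheory Finset ComplexConjugate

def GEV_Q (S : Set ℂ) (D : ℂ → ℝ) : Set (ℂ × ℝ) := {p | p.1 ∈ S ∧ 0 < p.2 ∧ D p.1 ≤ p.2 ^ 2}

theorem GEV_meas (S : Set ℂ) (D : ℂ → ℝ) (hS : MeasurableSet S) (hD : Measurable D) :
    MeasurableSet (GEV_Q S D) := by
  have h1 : MeasurableSet {p : ℂ × ℝ | p.1 ∈ S} := measurable_fst hS
  have h2 : MeasurableSet {p : ℂ × ℝ | 0 < p.2} := measurableSet_lt measurable_const measurable_snd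
  have h3 : MeasurableSet {p : ℂ × ℝ | D p.1 ≤ p.2 ^ 2} :=
    measurableSet_le (hD.comp measurable_fst) (measurable_snd.pow_const 2)
  exact h1.inter (h2.inter h3)

theorem GEV_ton (hFIB : S_FIB) (S : Set ℂ) (D : ℂ → ℝ) (hS : MeasurableSet S) (hD : Measurable D)
    (hpos : ∀ z ∈ S, 0 < D z) :
    ∫⁻ p in GEV_Q S D, ENNReal.ofReal (1 / p.2 ^ 3) = ∫⁻ z in S, ENNReal.ofReal (1 / (2 * D z)) := by
  have hQ := GEV_meas S D hS hD
  have hf : Measurable (fun p : ℂ × ℝ => ENNReal.ofReal (1 / p.2 ^ 3)) := by fun_prop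
  rw [← lintegral_indicator hQ, Measure.volume_eq_prod,
    lintegral_prod _ (hf.indicator hQ).aemeasurable, ← lintegral_indicator hS]
  apply lintegral_congr
  intro z
  by_cases hz : z ∈ S
  · rw [Set.indicator_of_mem hz, ← hFIB (D z) (hpos z hz)]
    have hT : MeasurableSet {t : ℝ | 0 < t ∧ D z ≤ t ^ 2} :=
      (measurableSet_lt measurable_const measurable_id).inter
        (measurableSet_le measurable_const (measurable_id.pow_const 2))
    rw [← lintegral_indicator hT]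
    apply lintegral_congr
    intro t
    by_cases ht : 0 < t ∧ D z ≤ t ^ 2
    · rw [Set.indicator_of_mem (show (z, t) ∈ GEV_Q S D from ⟨hz, ht.1, ht.2⟩),
        Set.indicator_of_mem (show t ∈ {t : ℝ | 0 < t ∧ D z ≤ t ^ 2} from ht)]
    · rw [Set.indicator_of_notMem (show (z, t) ∉ GEV_Q S D from fun h => ht ⟨h.2.1, h.2.2⟩),
        Set.indicator_of_notMem (show t ∉ {t : ℝ | 0 < t ∧ D z ≤ t ^ 2} from ht)]
  · rw [Set.indicator_of_notMem hz]
    have : ∀ t : ℝ, (GEV_Q S D).indicator (fun p : ℂ × ℝ => ENNReal.ofReal (1 / p.2 ^ 3)) (z, t) = 0 :=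
      fun t => Set.indicator_of_notMem (fun h => hz h.1) _
    rw [lintegral_congr this, lintegral_zero]

theorem p_GEV (hFIB : S_FIB) : S_GEV := by
  intro Z S D hS hD hpos hsub
  rw [← GEV_ton hFIB S D hS hD hpos]
  unfold vol
  apply lintegral_mono_set
  rintro ⟨z, t⟩ ⟨h1, h2, h3⟩
  exact hsub z h1 t h2 h3

end Pool.Ipm
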