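import Pool.Agent.Work.MP_8cbffb_h28.Interface

/-!
# Block IMG: the linear map is injective and keeps the points non-collinear
-/

set_option autoImplicit false

namespace Pool.Ipm

open MeasureTheory Finset ComplexConjugate

/-- the linear map -/
noncomputable def IMG_L (β : ℂ) (t : ℝ) : ℂ →ₗ[ℝ] ℂ where
  toFun := At β t
  map_add' a b := by
    simp only [At, map_add]
    ring
  map_smul' r a := by
    simp only [At, RingHom.id_apply, Complex.real_smul, map_mul, Complex.conj_ofReal]
    ring

theorem IMG_inj (β : ℂ) (t : ℝ) (hβ : ‖β‖ = 1) (ht : |t| < 1 / 2) :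
    Function.Injective (IMG_L β t) := by
  rw [injective_iff_map_eq_zero]
  intro d hd
  have h1 : d = -((t : ℂ) * β * conj d) := by
    have : d + (t : ℂ) * β * conj d = 0 := hd
    exact eq_neg_of_add_eq_zero_left this
  have h2 : ‖d‖ = |t| * ‖d‖ := by
    have := congrArg norm h1
    rw [norm_neg, norm_mul, norm_mul, hβ, Complex.norm_real, Real.norm_eq_abs, mul_one,
      Complex.norm_conj] at this
    exact this
  have h3 : ‖d‖ = 0 := by
    have h0 := norm_nonneg d
    nlinarith
  exact norm_eq_zero.mp h3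

theorem p_IMG : S_IMG := by
  intro Z β t hβ ht
  have hinj := IMG_inj β t hβ ht
  have hinj' : Function.Injective (At β t) := hinj
  refine ⟨Finset.card_image_of_injective Z hinj', ?_⟩
  intro hZ hc
  apply hZ
  let e : ℂ ≃ₗ[ℝ] ℂ := LinearEquiv.ofInjectiveEndo (IMG_L β t) hinj
  have he : ∀ w, e w = At β t w := fun w => rfl
  rw [collinear_iff_exists_forall_eq_smul_vadd] at hc ⊢
  obtain ⟨p0, v, h⟩ := hc
  refine ⟨e.symm p0, e.symm v, fun w hw => ?_⟩
  obtain ⟨r, hr⟩ := h (At β t w) (by
    rw [Finset.coe_image]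
    exact Set.mem_image_of_mem _ hw)
  refine ⟨r, ?_⟩
  rw [vadd_eq_add] at hr ⊢
  have h2 : w = e.symm (At β t w) := by rw [← he, e.symm_apply_apply]
  rw [h2, hr, map_add, map_smul]

end Pool.Ipm
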