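import Pool.Agent.Work.MP_8cbffb_h28.Interface

set_option autoImplicit false
set_option linter.unusedVariables false

namespace Pool.Ipm

open MeasureTheory Finset ComplexConjugate

theorem KAP_alg (a b d u ab bb db ub m0 m1 m2 r : ℂ) (E1 : m0 + m1 + m2 = 1)
    (E2 : m0 * a + m1 * b + m2 * d = u) (E3 : m0 * a ^ 2 + m1 * b ^ 2 + m2 * d ^ 2 = u ^ 2)
    (E4 : m0 * ab + m1 * bb + m2 * db = ub) (Qa : a * ab = r) (Qb : b * bb = r) (Qd : d * db = r)
    (Qu : u * ub = r) : ub * ((u - a) * (u - b) * (u - d)) = 0 := by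
  linear_combination (u ^ 2 - (a + b + d) * u + (a * b + b * d + a * d)) * Qu - r * E3
    + r * (a + b + d) * E2 - r * (a * b + b * d + a * d) * E1 + a * b * d * E4
    - m0 * (a ^ 2 - (a + b + d) * a + (a * b + b * d + a * d)) * Qa
    - m1 * (b ^ 2 - (a + b + d) * b + (a * b + b * d + a * d)) * Qb
    - m2 * (d ^ 2 - (a + b + d) * d + (a * b + b * d + a * d)) * Qd

theorem p_KAP (hBAR : S_BAR) (hNCO : S_NCO) : S_KAP := by
  intro τ c w R hinj hτ hw hne hG
  have hd := hNCO τ c R hinj hτ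
  obtain ⟨h1, h2⟩ := hBAR τ w hd
  have hG' : ∑ i, (bc τ w i : ℂ) * τ i ^ 2 = w ^ 2 := by
    unfold Gg at hG
    exact sub_eq_zero.mp hG
  have h1c : ∑ i, (bc τ w i : ℂ) = 1 := by
    rw [← Complex.ofReal_sum, h1, Complex.ofReal_one]
  rw [Fin.sum_univ_three] at h1c h2 hG'
  generalize bc τ w = m at h1c h2 hG'
  have e2 : (m 0 : ℂ) * (τ 0 - c) + m 1 * (τ 1 - c) + m 2 * (τ 2 - c) = w - c := by
    linear_combination h2 - c * h1c
  have e3 : (m 0 : ℂ) * (τ 0 - c) ^ 2 + m 1 * (τ 1 - c) ^ 2 + m 2 * (τ 2 - c) ^ 2 = (w - c) ^ 2 := by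
    linear_combination hG' - 2 * c * h2 + c ^ 2 * h1c
  have e4 : (m 0 : ℂ) * conj (τ 0 - c) + m 1 * conj (τ 1 - c) + m 2 * conj (τ 2 - c) = conj (w - c) := by
    have h := congrArg (starRingEnd ℂ) e2
    rw [map_add, map_add, map_mul, map_mul, map_mul, Complex.conj_ofReal, Complex.conj_ofReal,
      Complex.conj_ofReal] at h
    exact h
  have q : ∀ v : ℂ, ‖v‖ = R → v * conj v = ((R ^ 2 : ℝ) : ℂ) := by
    intro v hv
    rw [Complex.mul_conj, Complex.normSq_eq_norm_sq, hv]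
  have key := KAP_alg _ _ _ _ _ _ _ _ _ _ _ _ h1c e2 e3 e4 (q _ (hτ 0)) (q _ (hτ 1)) (q _ (hτ 2))
    (q _ hw)
  rcases mul_eq_zero.mp key with h | h
  · have h0 : w - c = 0 := by
      have := congrArg (starRingEnd ℂ) h
      rwa [Complex.conj_conj, map_zero] at this
    have hR : R = 0 := by rw [← hw, h0, norm_zero]
    have t0 : τ 0 - c = 0 := norm_eq_zero.mp ((hτ 0).trans hR)
    have t1 : τ 1 - c = 0 := norm_eq_zero.mp ((hτ 1).trans hR)
    have h01 : τ 0 = τ 1 := by linear_combination t0 - t1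
    exact absurd (hinj h01) (by decide)
  · rcases mul_eq_zero.mp h with h | h
    · rcases mul_eq_zero.mp h with h | h
      · exact hne 0 (by linear_combination -h)
      · exact hne 1 (by linear_combination -h)
    · exact hne 2 (by linear_combination -h)

end Pool.Ipm
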