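import Pool.Agent.Work.MP_8cbffb_h28.Interface

namespace Pool.Ipm

open MeasureTheory

theorem p_LEV (hFIB : S_FIB) : S_LEV := by
  classical
  intro Z S N D hS hD hN hpos hcov
  set f : ℂ × ℝ → ENNReal := fun p => ENNReal.ofReal (1 / p.2 ^ 3) with hf
  set K : Set (ℂ × ℝ) := {p | p.1 ∈ S ∧ 0 < p.2 ∧ D p.1 ≤ p.2 ^ 2} with hK
  have hfm : Measurable f := by
    apply Measurable.ennreal_ofReal
    exact (measurable_const.div (measurable_snd.pow_const 3))
  have hKm : MeasurableSet K := by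
    refine (measurable_fst hS).inter ((measurableSet_lt measurable_const measurable_snd).inter
      (measurableSet_le (hD.comp measurable_fst) (measurable_snd.pow_const 2)))
  have hsub : hull Z ⊆ (N ×ˢ (Set.univ : Set ℝ)) ∪ K := by
    rintro ⟨z, t⟩ hp
    rcases hcov z t hp with h | ⟨h1, h2⟩
    · left; exact ⟨h, Set.mem_univ _⟩
    · right; exact ⟨h1, hp.1, h2⟩
  have hzero : (volume : Measure (ℂ × ℝ)) (N ×ˢ (Set.univ : Set ℝ)) = 0 := by
    rw [Measure.volume_eq_prod, Measure.prod_prod, hN, zero_mul]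
  have hle : vol Z ≤ ∫⁻ p in K, f p := by
    calc vol Z = ∫⁻ p in hull Z, f p := rfl
      _ ≤ ∫⁻ p in (N ×ˢ (Set.univ : Set ℝ)) ∪ K, f p := lintegral_mono_set hsub
      _ ≤ (∫⁻ p in (N ×ˢ (Set.univ : Set ℝ)), f p) + ∫⁻ p in K, f p :=
          lintegral_union_le _ _ _
      _ = ∫⁻ p in K, f p := by rw [setLIntegral_measure_zero _ _ hzero, zero_add]
  refine hle.trans (le_of_eq ?_)
  rw [← lintegral_indicator hKm, Measure.volume_eq_prod,
    lintegral_prod _ ((hfm.indicator hKm).aemeasurable), ← lintegral_indicator hS]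
  refine lintegral_congr fun z => ?_
  by_cases hz : z ∈ S
  · rw [Set.indicator_of_mem hz, ← hFIB (D z) (hpos z hz)]
    have hm : MeasurableSet {t : ℝ | 0 < t ∧ D z ≤ t ^ 2} :=
      (measurableSet_lt measurable_const measurable_id).inter
        (measurableSet_le measurable_const (measurable_id.pow_const 2))
    rw [← lintegral_indicator hm]
    refine lintegral_congr fun t => ?_
    by_cases ht : 0 < t ∧ D z ≤ t ^ 2
    · rw [Set.indicator_of_mem (show (z, t) ∈ K from ⟨hz, ht.1, ht.2⟩),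
        Set.indicator_of_mem (show t ∈ {t : ℝ | 0 < t ∧ D z ≤ t ^ 2} from ht)]
    · rw [Set.indicator_of_notMem (show (z, t) ∉ K from fun h => ht ⟨h.2.1, h.2.2⟩),
        Set.indicator_of_notMem (show t ∉ {t : ℝ | 0 < t ∧ D z ≤ t ^ 2} from ht)]
  · rw [Set.indicator_of_notMem hz]
    have : ∀ t : ℝ, K.indicator f (z, t) = 0 := fun t =>
      Set.indicator_of_notMem (fun h => hz h.1) _
    simp only [this, lintegral_zero]

end Pool.Ipm
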