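import Pool.Agent.Work.MP_8cbffb_h28.Interface

/-!
# Block LOW
-/

set_option autoImplicit false

namespace Pool.Ipm

open MeasureTheory Finset ComplexConjugate

noncomputable def LOW_L (β : ℂ) (t : ℝ) : ℂ →ₗ[ℝ] ℂ where
  toFun w := At β t w
  map_add' := by
    intro x y
    simp only [At, map_add]; ring
  map_smul' := by
    intro r x
    simp only [At, Complex.real_smul, map_mul, Complex.conj_ofReal, RingHom.id_apply]; ring

theorem LOW_det (β : ℂ) (t : ℝ) (hβ : ‖β‖ = 1) : LinearMap.det (LOW_L β t) = 1 - t ^ 2 := by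
  have h1 : β.re ^ 2 + β.im ^ 2 = 1 := by
    have := Complex.sq_norm β
    rw [hβ, Complex.normSq_apply] at this
    linarith
  rw [← LinearMap.det_toMatrix Complex.basisOneI, Matrix.det_fin_two]
  simp only [LinearMap.toMatrix_apply, Complex.coe_basisOneI, Complex.coe_basisOneI_repr,
    LOW_L, LinearMap.coe_mk, AddHom.coe_mk, At]
  simp
  linear_combination (-t ^ 2) * h1

theorem LOW_inv (β : ℂ) (t : ℝ) (hβ : ‖β‖ = 1) (ht : |t| < 1 / 2) (w : ℂ) :
    (At β t w - t * β * conj (At β t w)) / ((1 - t ^ 2 : ℝ) : ℂ) = w := by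
  have h1 : β * conj β = 1 := by
    rw [Complex.mul_conj, Complex.normSq_eq_norm_sq, hβ]; norm_num
  have h2 : (1 - t ^ 2 : ℝ) ≠ 0 := by
    have := abs_lt.1 ht
    nlinarith
  have h3 : ((1 - t ^ 2 : ℝ) : ℂ) ≠ 0 := by exact_mod_cast h2
  rw [div_eq_iff h3]
  simp only [At, map_add, map_mul, Complex.conj_ofReal, Complex.conj_conj]
  push_cast
  linear_combination (-(t : ℂ) ^ 2 * w) * h1

theorem LOW_inv' (β : ℂ) (t : ℝ) (hβ : ‖β‖ = 1) (ht : |t| < 1 / 2) (y : ℂ) :
    At β t ((y - t * β * conj y) / ((1 - t ^ 2 : ℝ) : ℂ)) = y := by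
  have h1 : β * conj β = 1 := by
    rw [Complex.mul_conj, Complex.normSq_eq_norm_sq, hβ]; norm_num
  have h2 : (1 - t ^ 2 : ℝ) ≠ 0 := by
    have := abs_lt.1 ht
    nlinarith
  have h3 : ((1 - t ^ 2 : ℝ) : ℂ) ≠ 0 := by exact_mod_cast h2
  simp only [At, map_sub, map_mul, map_div₀, Complex.conj_ofReal, Complex.conj_conj]
  field_simp
  push_cast
  linear_combination (-(t : ℂ) ^ 2 * y) * h1

theorem p_LOW (hBAR : S_BAR) (hPOS : S_POS) (hATD : S_ATD) (hEMB : S_EMB) (hMEA : S_MEA)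
    (hGEV : S_GEV) : S_LOW := by
  classical
  intro Z s β t hCho hβ ht
  obtain ⟨hRm, -, hms⟩ := hMEA Z
  obtain ⟨hDm, hGm⟩ := hms s hCho
  let ψ : ℂ → ℂ := fun y => (y - t * β * conj y) / ((1 - t ^ 2 : ℝ) : ℂ)
  have hψA : ∀ w, ψ (At β t w) = w := LOW_inv β t hβ ht
  have hAψ : ∀ y, At β t (ψ y) = y := LOW_inv' β t hβ ht
  have hψm : Measurable ψ := by
    have : Continuous ψ := by
      simp only [ψ]
      exact ((continuous_id.sub (continuous_const.mul Complex.continuous_conj)).div_const _)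
    exact this.measurable
  let D' : ℂ → ℝ := fun z => (1 + t ^ 2) * Dd (s z) z + 2 * t * (conj β * Gg (s z) z).re
  have hD'm : Measurable D' :=
    (hDm.const_mul _).add ((Complex.measurable_re.comp (hGm.const_mul _)).const_mul _)
  have hD'pos : ∀ z ∈ Reg Z, 0 < D' z := by
    intro z hz
    obtain ⟨hDl, hTri⟩ := hCho.2.2 z hz
    obtain ⟨h1, h2⟩ := hPOS (s z) z hDl.1 hTri
    have h3 : |(conj β * Gg (s z) z).re| ≤ Dd (s z) z := by
      refine (Complex.abs_re_le_norm _).trans ?_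
      rw [norm_mul, Complex.norm_conj, hβ, one_mul]
      exact h2
    have h4 : |2 * t * (conj β * Gg (s z) z).re| ≤ 2 * |t| * Dd (s z) z := by
      rw [abs_mul, abs_mul, abs_two]
      exact mul_le_mul_of_nonneg_left h3 (by positivity)
    have h5 := neg_abs_le (2 * t * (conj β * Gg (s z) z).re)
    have h6 : 0 < (1 + t ^ 2 - 2 * |t|) * Dd (s z) z := by
      apply mul_pos _ h1
      have : (1 + t ^ 2 - 2 * |t|) = (1 - |t|) ^ 2 := by
        rw [← sq_abs t]; ring
      rw [this]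
      have : 0 < 1 - |t| := by linarith
      positivity
    change 0 < (1 + t ^ 2) * Dd (s z) z + 2 * t * (conj β * Gg (s z) z).re
    nlinarith
  have himg : At β t '' Reg Z = ψ ⁻¹' Reg Z := by
    ext y
    constructor
    · rintro ⟨z, hz, rfl⟩
      change ψ (At β t z) ∈ Reg Z
      rw [hψA]; exact hz
    · intro hy
      exact ⟨ψ y, hy, hAψ y⟩
  have hinj : Function.Injective (At β t) := fun x y hxy => by
    rw [← hψA x, ← hψA y, hxy]
  have hG := hGEV (Z.image (At β t)) (ψ ⁻¹' Reg Z) (fun y => D' (ψ y)) (hψm hRm)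
    (hD'm.comp hψm) (fun y hy => hD'pos _ hy) (by
      intro y hy r hr hDr
      have hz : ψ y ∈ Reg Z := hy
      obtain ⟨hDl, hTri⟩ := hCho.2.2 _ hz
      obtain ⟨hb1, hb2⟩ := hBAR (s (ψ y)) (ψ y) hDl.1
      have hlin : ∑ i, (bc (s (ψ y)) (ψ y) i : ℂ) * At β t (s (ψ y) i) = y := by
        have h1 : ∑ i, (bc (s (ψ y)) (ψ y) i : ℂ) * At β t (s (ψ y) i) =
            LOW_L β t (∑ i, (bc (s (ψ y)) (ψ y) i : ℂ) * s (ψ y) i) := by
          rw [map_sum]
          refine Finset.sum_congr rfl fun i _ => ?_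
          rw [← Complex.real_smul, ← Complex.real_smul, map_smul]
          rfl
        rw [h1, hb2]
        exact hAψ y
      have hE := hEMB (Z.image (At β t)) (fun i => At β t (s (ψ y) i)) (bc (s (ψ y)) (ψ y)) r
        (fun i => Finset.mem_image_of_mem _ (hDl.2.1 i)) (fun i => (hTri i).le) hb1 hr (by
          rw [hlin]
          have h2 := hATD (s (ψ y)) (ψ y) β t hβ
          rw [hAψ y] at h2
          rw [h2]
          exact hDr)
      rw [hlin] at hE
      exact hE)
  refine le_trans (le_of_eq ?_) hG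
  rw [← himg]
  have hcv := lintegral_image_eq_lintegral_abs_det_fderiv_mul (volume : Measure ℂ) hRm
    (f := At β t) (f' := fun _ => LinearMap.toContinuousLinearMap (LOW_L β t))
    (fun x _ => (LinearMap.toContinuousLinearMap (LOW_L β t)).hasFDerivAt.hasFDerivWithinAt)
    hinj.injOn (fun y => ENNReal.ofReal (1 / (2 * D' (ψ y))))
  rw [hcv]
  have hdet : |(LinearMap.toContinuousLinearMap (LOW_L β t)).det| = 1 - t ^ 2 := by
    rw [LinearMap.det_toContinuousLinearMap, LOW_det β t hβ, abs_of_nonneg]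
    have := abs_lt.1 ht
    nlinarith
  simp only [hdet, hψA]
  rw [lintegral_const_mul' _ _ ENNReal.ofReal_ne_top]

end Pool.Ipm
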