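import Pool.Agent.Work.MP_8cbffb_h28.Interface

/-! Block MEA -/

set_option autoImplicit false

namespace Pool.Ipm

open MeasureTheory Set

theorem MEA_seg_meas (w w' : ℂ) : MeasurableSet (segment ℝ w w') := by
  rw [← convexHull_pair]
  exact (((Set.finite_singleton w').insert w).isCompact_convexHull ℝ).measurableSet

theorem MEA_seg_null (w w' : ℂ) : volume (segment ℝ w w') = 0 := by
  have h1 : affineSpan ℝ {w, w'} ≠ ⊤ := by
    intro h
    have h2 : Module.finrank ℝ (vectorSpan ℝ ({w, w'} : Set ℂ)) ≤ 1 :=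
      (collinear_iff_finrank_le_one).1 (collinear_pair ℝ w w')
    rw [← direction_affineSpan, h, AffineSubspace.direction_top, finrank_top,
      Complex.finrank_real_complex] at h2
    omega
  refine measure_mono_null ?_ (Measure.addHaar_affineSubspace volume _ h1)
  rw [← convexHull_pair]
  exact convexHull_subset_affineSpan _

theorem MEA_choice {β : Type} [MeasurableSpace β] (s : ℂ → Fin 3 → ℂ) (hf : (Set.range s).Finite)
    (hs : ∀ τ, MeasurableSet {z | s z = τ}) (F : (Fin 3 → ℂ) → ℂ → β) (hF : ∀ τ, Measurable (F τ)) :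
    Measurable (fun z => F (s z) z) := by
  intro U hU
  have h1 : (fun z => F (s z) z) ⁻¹' U = ⋃ τ ∈ Set.range s, ({z | s z = τ} ∩ F τ ⁻¹' U) := by
    ext z
    simp only [mem_preimage, mem_iUnion, mem_inter_iff, mem_setOf_eq, exists_prop]
    constructor
    · intro h
      exact ⟨s z, ⟨z, rfl⟩, rfl, h⟩
    · rintro ⟨τ, -, h2, h3⟩
      rw [h2]
      exact h3
  rw [h1]
  exact hf.measurableSet_biUnion fun τ _ => (hs τ).inter (hF τ hU)

theorem MEA_bc (τ : Fin 3 → ℂ) (i : Fin 3) : Continuous fun z => bc τ z i := by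
  fin_cases i
  · show Continuous fun z => crs (τ 1 - z) (τ 2 - z) / dtm τ
    unfold crs
    fun_prop
  · show Continuous fun z => crs (τ 2 - z) (τ 0 - z) / dtm τ
    unfold crs
    fun_prop
  · show Continuous fun z => crs (τ 0 - z) (τ 1 - z) / dtm τ
    unfold crs
    fun_prop

theorem p_MEA : S_MEA := by
  intro Z
  have hconv : MeasurableSet (convexHull ℝ (Z : Set ℂ)) :=
    (Z.finite_toSet.isCompact_convexHull ℝ).measurableSet
  have hReg : Reg Z = convexHull ℝ (Z : Set ℂ) \ ⋃ w ∈ Z, ⋃ w' ∈ Z, segment ℝ w w' := by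
    ext z
    simp only [Reg, mem_setOf_eq, mem_diff, mem_iUnion, exists_prop, not_exists, not_and]
  have hU : MeasurableSet (⋃ w ∈ Z, ⋃ w' ∈ Z, segment ℝ w w') :=
    Finset.measurableSet_biUnion _ fun w _ => Finset.measurableSet_biUnion _ fun w' _ => MEA_seg_meas w w'
  refine ⟨?_, ?_, ?_⟩
  · rw [hReg]
    exact hconv.diff hU
  · have h1 : volume (⋃ w ∈ Z, ⋃ w' ∈ Z, segment ℝ w w') = 0 := by
      refine (measure_biUnion_null_iff (Z.countable_toSet)).2 fun w _ => ?_
      exact (measure_biUnion_null_iff (Z.countable_toSet)).2 fun w' _ => MEA_seg_null w w'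
    refine measure_mono_null ?_ h1
    intro z hz
    by_contra h
    exact hz.2 (hReg ▸ ⟨hz.1, h⟩)
  · rintro s ⟨hf, hs, -⟩
    refine ⟨MEA_choice s hf hs Dd fun τ => ?_, MEA_choice s hf hs Gg fun τ => ?_⟩
    · unfold Dd
      refine (Continuous.sub (continuous_finset_sum _ fun i _ => (MEA_bc τ i).mul continuous_const)
        (by fun_prop)).measurable
    · unfold Gg
      refine (Continuous.sub (continuous_finset_sum _ fun i _ =>
        (Complex.continuous_ofReal.comp (MEA_bc τ i)).mul continuous_const) (by fun_prop)).measurable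

end Pool.Ipm
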