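import Pool.Agent.Work.MP_8cbffb_h28.Interface

namespace Pool.Ipm

theorem p_MOD : S_MOD := by
  classical
  intro Z s τ O hs hτ hO hsub
  obtain ⟨h1, h2, h3⟩ := hs
  refine ⟨fun z => if z ∈ O then τ else s z, ⟨?_, ?_, ?_⟩, ?_, ?_⟩
  · refine (h1.insert τ).subset ?_
    rintro _ ⟨z, rfl⟩
    by_cases hz : z ∈ O
    · simp [hz]
    · simp [hz]
  · intro τ'
    have : {z | (if z ∈ O then τ else s z) = τ'} =
        (O ∩ {_z | τ = τ'}) ∪ (Oᶜ ∩ {z | s z = τ'}) := by
      ext z
      by_cases hz : z ∈ O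
      · simp [hz]
      · simp [hz]
    rw [this]
    exact (hO.inter (MeasurableSet.const _)).union (hO.compl.inter (h2 τ'))
  · intro z hz
    by_cases hzO : z ∈ O
    · simp only [hzO, if_true]
      exact ⟨hτ, hsub hzO⟩
    · simp only [hzO, if_false]
      exact h3 z hz
  · intro z hz
    simp [hz]
  · intro z hz
    simp [hz]

end Pool.Ipm
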