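import Pool.Agent.Work.MP_8cbffb_h28.Interface

/-!
# NCO: three different points of a circle are not collinear (helper91)
-/

set_option autoImplicit false

namespace Pool.Ipm

theorem NCO_core (a1 a2 b1 b2 p1 p2 : ℝ) (h : a1 * b2 - a2 * b1 = 0)
    (e1 : 2 * (p1 * a1 + p2 * a2) + (a1 ^ 2 + a2 ^ 2) = 0)
    (e2 : 2 * (p1 * b1 + p2 * b2) + (b1 ^ 2 + b2 ^ 2) = 0) :
    (a1 = 0 ∧ a2 = 0) ∨ (b1 = 0 ∧ b2 = 0) ∨ (a1 = b1 ∧ a2 = b2) := by
  by_cases ha : a1 = 0 ∧ a2 = 0
  · exact Or.inl ha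
  have ht : ∃ t : ℝ, b1 = t * a1 ∧ b2 = t * a2 := by
    by_cases h1 : a1 = 0
    · have h2 : a2 ≠ 0 := fun h2 => ha ⟨h1, h2⟩
      refine ⟨b2 / a2, ?_, ?_⟩
      · rw [h1] at h ⊢
        have h3 : a2 * b1 = 0 := by linarith
        rcases mul_eq_zero.1 h3 with h4 | h4
        · exact absurd h4 h2
        · rw [h4]; ring
      · field_simp
    · refine ⟨b1 / a1, ?_, ?_⟩
      · field_simp
      · field_simp
        linarith
  obtain ⟨t, hb1, hb2⟩ := ht
  have hpos : a1 ^ 2 + a2 ^ 2 ≠ 0 := by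
    intro h0
    apply ha
    constructor
    · nlinarith [sq_nonneg a1, sq_nonneg a2]
    · nlinarith [sq_nonneg a1, sq_nonneg a2]
  have h5 : t * (t - 1) * (a1 ^ 2 + a2 ^ 2) = 0 := by
    rw [hb1, hb2] at e2
    linear_combination e2 - t * e1
  rcases mul_eq_zero.1 h5 with h6 | h6
  · rcases mul_eq_zero.1 h6 with h7 | h7
    · refine Or.inr (Or.inl ⟨?_, ?_⟩)
      · rw [hb1, h7, zero_mul]
      · rw [hb2, h7, zero_mul]
    · have h8 : t = 1 := by linarith
      refine Or.inr (Or.inr ⟨?_, ?_⟩)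
      · rw [hb1, h8, one_mul]
      · rw [hb2, h8, one_mul]
  · exact absurd h6 hpos

theorem p_NCO : S_NCO := by
  intro τ c R hτ hR hd
  have hsq : ∀ i, ((τ i).re - c.re) ^ 2 + ((τ i).im - c.im) ^ 2 = R ^ 2 := by
    intro i
    rw [← hR i, Complex.sq_norm, Complex.normSq_apply, Complex.sub_re, Complex.sub_im]
    ring
  have h0 := hsq 0
  have h1 := hsq 1
  have h2 := hsq 2
  unfold dtm crs at hd
  simp only [Complex.sub_re, Complex.sub_im] at hd
  rcases NCO_core ((τ 1).re - (τ 0).re) ((τ 1).im - (τ 0).im) ((τ 2).re - (τ 0).re)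
    ((τ 2).im - (τ 0).im) ((τ 0).re - c.re) ((τ 0).im - c.im) hd
    (by linear_combination h1 - h0) (by linear_combination h2 - h0) with h | h | h
  · have : τ 1 = τ 0 := Complex.ext (by linarith [h.1]) (by linarith [h.2])
    exact absurd (hτ this) (by decide)
  · have : τ 2 = τ 0 := Complex.ext (by linarith [h.1]) (by linarith [h.2])
    exact absurd (hτ this) (by decide)
  · have : τ 1 = τ 2 := Complex.ext (by linarith [h.1]) (by linarith [h.2])
    exact absurd (hτ this) (by decide)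

end Pool.Ipm
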