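import Pool.Agent.Work.MP_8cbffb_h28.Interface

/-!
# MP_8cbffb_gt: block OPN
-/

set_option autoImplicit false

namespace Pool.Ipm

open MeasureTheory Finset ComplexConjugate Topology

/-- the point near the middle of the common edge -/
noncomputable def OPN_pt (a b c d : ℂ) (ε : ℝ) : ℂ :=
  ⟨(1 - 2 * ε) / 2 * (a.re + b.re) + ε * (c.re + d.re),
    (1 - 2 * ε) / 2 * (a.im + b.im) + ε * (c.im + d.im)⟩

theorem OPN_open (τ : Fin 3 → ℂ) : IsOpen (Tri τ) := by
  have h : Tri τ = ⋂ i, {z | 0 < bc τ z i} := by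
    ext z
    simp [Tri]
  rw [h]
  refine isOpen_iInter_of_finite fun i => isOpen_lt continuous_const ?_
  fin_cases i <;> simp only [bc, crs, Fin.zero_eta, Fin.mk_one, Fin.reduceFinMk,
    Matrix.cons_val_zero, Matrix.cons_val_one, Matrix.cons_val, Complex.sub_re,
    Complex.sub_im] <;> fun_prop

theorem OPN_pos {f : ℝ → ℝ} (hf : Continuous f) (h0 : 0 < f 0) :
    ∀ᶠ ε in 𝓝[>] (0 : ℝ), 0 < f ε :=
  (hf.continuousAt.eventually (lt_mem_nhds h0)).filter_mono nhdsWithin_le_nhds

theorem OPN_ev (a b c d : ℂ) (h : 0 < crs (b - a) (c - a) * crs (b - a) (d - a)) :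
    ∀ᶠ ε in 𝓝[>] (0 : ℝ), OPN_pt a b c d ε ∈ Tri ![a, b, c] := by
  have hc : crs (b - a) (c - a) ≠ 0 := by
    intro h0
    rw [h0, zero_mul] at h
    exact lt_irrefl _ h
  have h1 : ∀ᶠ ε in 𝓝[>] (0 : ℝ), 0 < crs (b - OPN_pt a b c d ε) (c - OPN_pt a b c d ε) /
      crs (b - a) (c - a) := by
    refine OPN_pos ?_ ?_
    · simp only [OPN_pt, crs, Complex.sub_re, Complex.sub_im]
      fun_prop
    · have e : crs (b - OPN_pt a b c d 0) (c - OPN_pt a b c d 0) =
          crs (b - a) (c - a) / 2 := by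
        simp only [OPN_pt, crs, Complex.sub_re, Complex.sub_im]
        ring
      rw [e, div_right_comm, div_self hc]
      norm_num
  have h2 : ∀ᶠ ε in 𝓝[>] (0 : ℝ), 0 < crs (c - OPN_pt a b c d ε) (a - OPN_pt a b c d ε) /
      crs (b - a) (c - a) := by
    refine OPN_pos ?_ ?_
    · simp only [OPN_pt, crs, Complex.sub_re, Complex.sub_im]
      fun_prop
    · have e : crs (c - OPN_pt a b c d 0) (a - OPN_pt a b c d 0) =
          crs (b - a) (c - a) / 2 := by
        simp only [OPN_pt, crs, Complex.sub_re, Complex.sub_im]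
        ring
      rw [e, div_right_comm, div_self hc]
      norm_num
  filter_upwards [h1, h2, self_mem_nhdsWithin] with ε e1 e2 e3
  have e3' : 0 < ε := e3
  have h3 : 0 < crs (a - OPN_pt a b c d ε) (b - OPN_pt a b c d ε) / crs (b - a) (c - a) := by
    have e : crs (a - OPN_pt a b c d ε) (b - OPN_pt a b c d ε) =
        ε * (crs (b - a) (c - a) + crs (b - a) (d - a)) := by
      simp only [OPN_pt, crs, Complex.sub_re, Complex.sub_im]
      ring
    rw [e, mul_div_assoc]
    refine mul_pos e3' ?_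
    rw [add_div, div_self hc]
    have : 0 < crs (b - a) (d - a) / crs (b - a) (c - a) := by
      rw [div_eq_mul_inv]
      have h4 : crs (b - a) (d - a) * (crs (b - a) (c - a))⁻¹ =
          (crs (b - a) (c - a) * crs (b - a) (d - a)) * ((crs (b - a) (c - a))⁻¹ ^ 2) := by
        field_simp
      rw [h4]
      positivity
    linarith
  intro i
  fin_cases i
  · simpa [bc, dtm] using e1
  · simpa [bc, dtm] using e2
  · simpa [bc, dtm] using h3

theorem OPN_symm (a b c d : ℂ) (ε : ℝ) : OPN_pt a b c d ε = OPN_pt a b d c ε := by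
  simp only [OPN_pt, Complex.mk.injEq]
  constructor <;> ring

theorem p_OPN : S_OPN := by
  intro a b c d h
  refine ⟨?_, (OPN_open _).inter (OPN_open _)⟩
  have h1 := OPN_ev a b c d h
  have h2 := OPN_ev a b d c (by rwa [mul_comm])
  obtain ⟨ε, e1, e2⟩ := (h1.and h2).exists
  exact ⟨OPN_pt a b c d ε, e1, by rw [OPN_symm]; exact e2⟩

end Pool.Ipm
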