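import Pool.Agent.Work.MP_8cbffb_h28.Interface

/-!
# Block POS: positivity in the open triangle
-/

set_option autoImplicit false

namespace Pool.Ipm

open MeasureTheory Finset ComplexConjugate

theorem p_POS (hDDG : S_DDG) : S_POS := by
  intro τ z hd hz
  obtain ⟨h1, h2⟩ := hDDG τ z hd
  have b0 : 0 < bc τ z 0 := hz 0
  have b1 : 0 < bc τ z 1 := hz 1
  have b2 : 0 < bc τ z 2 := hz 2
  have hne : τ 0 - τ 1 ≠ 0 := by
    intro h
    apply hd
    have h3 : τ 1 = τ 0 := (sub_eq_zero.1 h).symm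
    unfold dtm crs
    rw [h3]
    simp
  have hpos : 0 < ‖τ 0 - τ 1‖ ^ 2 := by
    have h4 := norm_pos_iff.2 hne
    positivity
  constructor
  · rw [h1]
    have h5 : 0 < bc τ z 0 * bc τ z 1 * ‖τ 0 - τ 1‖ ^ 2 := by positivity
    have h6 : 0 ≤ bc τ z 1 * bc τ z 2 * ‖τ 1 - τ 2‖ ^ 2 := by positivity
    have h7 : 0 ≤ bc τ z 0 * bc τ z 2 * ‖τ 0 - τ 2‖ ^ 2 := by positivity
    linarith
  · rw [h1, h2]
    have hn : ∀ (a b : ℝ) (w : ℂ), 0 < a → 0 < b → ‖(a : ℂ) * (b : ℂ) * w ^ 2‖ = a * b * ‖w‖ ^ 2 := by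
      intro a b w ha hb
      rw [norm_mul, norm_mul, norm_pow, Complex.norm_real, Complex.norm_real, Real.norm_of_nonneg ha.le,
        Real.norm_of_nonneg hb.le]
    refine (norm_add_le _ _).trans (add_le_add ((norm_add_le _ _).trans (add_le_add ?_ ?_)) ?_)
    · exact (hn _ _ _ b0 b1).le
    · exact (hn _ _ _ b1 b2).le
    · exact (hn _ _ _ b0 b2).le

end Pool.Ipm
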