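import Pool.Agent.Work.MP_8cbffb_h28.Interface

/-! # Block SEP (helper45) -/

set_option autoImplicit false

namespace Pool.Ipm

theorem SEP_sign {A B C D : ℝ} (h : A - B + C - D = 0) (hD : D ≠ 0) (hC : C ≠ 0) (hB : B ≠ 0)
    (hA : A ≠ 0) (h1 : D * C ≤ 0) (h2 : -D * B ≤ 0) (h3 : D * A ≤ 0) : False := by
  have e : D * A - D * B + D * C - D * D = 0 := by linear_combination D * h
  have hp : 0 < D * D := mul_self_pos.2 hD
  linarith

theorem p_SEP : S_SEP := by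
  intro v hv
  by_contra hcon
  push Not at hcon
  have h1 := hcon 1
  have h2 := hcon (Equiv.swap 1 2)
  obtain ⟨σ, hσ⟩ : ∃ σ : Equiv.Perm (Fin 4), σ = Equiv.swap (0 : Fin 4) 1 * Equiv.swap (1 : Fin 4) 2 :=
    ⟨_, rfl⟩
  have h3 := hcon σ
  have e2 : (Equiv.swap (1 : Fin 4) 2) 0 = 0 ∧ (Equiv.swap (1 : Fin 4) 2) 1 = 2 ∧
      (Equiv.swap (1 : Fin 4) 2) 2 = 1 ∧ (Equiv.swap (1 : Fin 4) 2) 3 = 3 := by decide
  have e3 : σ 0 = 1 ∧ σ 1 = 2 ∧ σ 2 = 0 ∧ σ 3 = 3 := by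
    rw [hσ]
    decide
  rw [e2.1, e2.2.1, e2.2.2.1, e2.2.2.2] at h2
  rw [e3.1, e3.2.1, e3.2.2.1, e3.2.2.2] at h3
  simp only [Equiv.Perm.one_apply] at h1
  have nD := hv 0 1 2 (by decide) (by decide) (by decide)
  have nC := hv 0 1 3 (by decide) (by decide) (by decide)
  have nB := hv 0 2 3 (by decide) (by decide) (by decide)
  have nA := hv 1 2 3 (by decide) (by decide) (by decide)
  refine SEP_sign (A := crs (v 2 - v 1) (v 3 - v 1)) (B := crs (v 2 - v 0) (v 3 - v 0))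
    (C := crs (v 1 - v 0) (v 3 - v 0)) (D := crs (v 1 - v 0) (v 2 - v 0)) ?_ nD nC nB nA h1 ?_ ?_
  · simp only [crs, Complex.sub_re, Complex.sub_im]
    ring
  · have e : crs (v 2 - v 0) (v 1 - v 0) = -crs (v 1 - v 0) (v 2 - v 0) := by
      simp only [crs, Complex.sub_re, Complex.sub_im]
      ring
    rw [e] at h2
    exact h2
  · have e : crs (v 2 - v 1) (v 0 - v 1) = crs (v 1 - v 0) (v 2 - v 0) := by
      simp only [crs, Complex.sub_re, Complex.sub_im]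
      ring
    rw [e] at h3
    exact h3

end Pool.Ipm
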