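import Pool.Agent.Work.MP_8cbffb_h28.Interface

/-!
# Block SUB
-/

set_option autoImplicit false

namespace Pool.Ipm

open MeasureTheory Finset ComplexConjugate

theorem p_SUB (hBAR : S_BAR) : S_SUB := by
  intro Z τ hτ z hz
  obtain ⟨h1, h2⟩ := hBAR τ z hτ.1
  have h3 := (convex_convexHull ℝ (Z : Set ℂ)).sum_mem (t := Finset.univ) (w := bc τ z) (z := τ)
    (fun i _ => (hz i).le) h1
    (fun i _ => subset_convexHull ℝ (Z : Set ℂ) (Finset.mem_coe.2 (hτ.2.1 i)))
  simp only [Complex.real_smul] at h3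
  rw [h2] at h3
  exact h3

end Pool.Ipm
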