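import Pool.Agent.Work.MP_8cbffb_h28.Interface

set_option autoImplicit false

namespace Pool.Ipm

open MeasureTheory

theorem p_UPP (hCIR : S_CIR) (hPOS : S_POS) (hMEA : S_MEA) (hLEV : S_LEV) : S_UPP := by
  intro Z s hs
  obtain ⟨hReg, hnull, hm⟩ := hMEA Z
  refine hLEV Z (Reg Z) (convexHull ℝ (Z : Set ℂ) \ Reg Z) (fun z => Dd (s z) z) hReg
    (hm s hs).1 hnull ?_ ?_
  · intro z hz
    obtain ⟨h1, h2⟩ := hs.2.2 z hz
    exact (hPOS (s z) z h1.1 h2).1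
  · rintro z t ⟨h1, h2, h3⟩
    by_cases hz : z ∈ Reg Z
    · right
      refine ⟨hz, ?_⟩
      obtain ⟨⟨hd, _, c, R, hR0, hτ, hw⟩, _⟩ := hs.2.2 z hz
      have h4 := h3 c R (fun w hwZ => pow_le_pow_left₀ hR0 (hw w hwZ) 2)
      simp only at h4 ⊢
      rw [hCIR _ c z R hd hτ]
      linarith
    · left
      exact ⟨h2, hz⟩

end Pool.Ipm
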