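import Pool.Agent.Work.MP_8cbffb_h28.B_BAR
import Pool.Agent.Work.MP_8cbffb_h28.B_DDG
import Pool.Agent.Work.MP_8cbffb_h28.B_POS
import Pool.Agent.Work.MP_8cbffb_h28.B_ATDx
import Pool.Agent.Work.MP_8cbffb_h28.B_EMB
import Pool.Agent.Work.MP_8cbffb_h28.B_CIR
import Pool.Agent.Work.MP_8cbffb_h28.B_DEL
import Pool.Agent.Work.MP_8cbffb_h28.B_CHO
import Pool.Agent.Work.MP_8cbffb_h28.B_MOD
import Pool.Agent.Work.MP_8cbffb_h28.B_MEA
import Pool.Agent.Work.MP_8cbffb_h28.B_FIB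
import Pool.Agent.Work.MP_8cbffb_h28.B_GEV
import Pool.Agent.Work.MP_8cbffb_h28.B_LEV
import Pool.Agent.Work.MP_8cbffb_h28.B_LOW
import Pool.Agent.Work.MP_8cbffb_h28.B_UPP
import Pool.Agent.Work.MP_8cbffb_h28.B_FTR
import Pool.Agent.Work.MP_8cbffb_h28.B_FNR
import Pool.Agent.Work.MP_8cbffb_h28.B_FIV
import Pool.Agent.Work.MP_8cbffb_h28.B_IMG
import Pool.Agent.Work.MP_8cbffb_h28.B_NCO
import Pool.Agent.Work.MP_8cbffb_h28.B_KAP
import Pool.Agent.Work.MP_8cbffb_h28.B_DIF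
import Pool.Agent.Work.MP_8cbffb_h28.B_SEP
import Pool.Agent.Work.MP_8cbffb_h28.B_OPN
import Pool.Agent.Work.MP_8cbffb_h28.B_SUB
import Pool.Agent.Work.MP_8cbffb_h28.FIN2

/-!
# MP_8cbffb_gt: assembly of the blocks
-/

set_option autoImplicit false

namespace Pool.Ipm

theorem hDDG : S_DDG := p_DDG p_BAR
theorem hPOS : S_POS := p_POS hDDG
theorem hCIR : S_CIR := p_CIR p_BAR
theorem hDEL : S_DEL := p_DEL p_BAR hCIR
theorem hCHO : S_CHO := p_CHO hDEL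
theorem hGEV : S_GEV := p_GEV p_FIB
theorem hLEV : S_LEV := p_LEV p_FIB
theorem hLOW : S_LOW := p_LOW p_BAR hPOS p_ATD p_EMB p_MEA hGEV
theorem hUPP : S_UPP := p_UPP hCIR hPOS p_MEA hLEV
theorem hFTR : S_FTR := p_FTR p_BAR hDDG p_FNR
theorem hFIV : S_FIV := p_FIV hFTR
theorem hKAP : S_KAP := p_KAP p_BAR p_NCO
theorem hSUB : S_SUB := p_SUB p_BAR

theorem local_form : S_FIN2 :=
  p_FIN2 hPOS hCIR hCHO p_MOD p_MEA hLOW hUPP hFIV p_NCO hKAP p_DIF p_SEP p_OPN hSUB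

theorem global_form : S_FIN := p_FINg p_IMG local_form

theorem finite_volume (Z : Finset ℂ) : vol Z < ⊤ := p_VFI hCHO p_MEA hPOS hUPP hFIV Z

end Pool.Ipm
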