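import Pool.Agent.Work.MP_8cbffb_h28.Interface2

/-!
# MP_8cbffb_gt, block G1: the general hull for a polyhedron with a vertex at infinity
-/

set_option autoImplicit false

namespace Pool.Ipm

open MeasureTheory Finset ComplexConjugate

theorem G1_nsq (z : ℂ) : ‖z‖ ^ 2 = z.re ^ 2 + z.im ^ 2 := by
  rw [Complex.sq_norm, Complex.normSq_apply]
  ring

theorem G1_cre (b z : ℂ) : (conj b * z).re = b.re * z.re + b.im * z.im := by
  rw [Complex.mul_re, Complex.conj_re, Complex.conj_im]
  ring

theorem p_G1 : S_G1 := by
  intro Z hne
  ext p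
  constructor
  · rintro ⟨hp, h⟩
    refine ⟨hp, ?_, ?_⟩
    · by_contra hcon
      have hcl : IsClosed (convexHull ℝ (Z : Set ℂ)) :=
        (Z.finite_toSet.isCompact_convexHull ℝ).isClosed
      obtain ⟨f, u, hf, hu⟩ :=
        geometric_hahn_banach_closed_point (convex_convexHull ℝ (Z : Set ℂ)) hcl hcon
      have hfz : ∀ z : ℂ, f z = f 1 * z.re + f Complex.I * z.im := by
        intro z
        have h1 : z = z.re • (1 : ℂ) + z.im • Complex.I := by
          apply Complex.ext <;> simp
        calc f z = f (z.re • (1 : ℂ) + z.im • Complex.I) := by rw [← h1]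
          _ = f 1 * z.re + f Complex.I * z.im := by
            rw [map_add, map_smul, map_smul, smul_eq_mul, smul_eq_mul]
            ring
      have h2 := h 0 ⟨f 1, f Complex.I⟩ (-u) (by
        intro v hv
        rw [Finset.mem_insert, Finset.mem_image] at hv
        rcases hv with rfl | ⟨z, hz, rfl⟩
        · exact le_refl _
        · have h3 := hf z (subset_convexHull ℝ _ (Finset.mem_coe.2 hz))
          rw [hfz z] at h3
          show 0 * ‖z‖ ^ 2 + (conj (⟨f 1, f Complex.I⟩ : ℂ) * z).re + -u ≤ 0
          rw [G1_cre]
          linarith)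
      unfold lvp at h2
      rw [G1_cre] at h2
      rw [hfz p.1] at hu
      simp only at h2
      linarith
    · intro a R hR
      have h2 := h (-1) (2 * a) (R ^ 2 - ‖a‖ ^ 2) (by
        intro v hv
        rw [Finset.mem_insert, Finset.mem_image] at hv
        rcases hv with rfl | ⟨z, hz, rfl⟩
        · show (-1 : ℝ) ≤ 0
          norm_num
        · have h3 := hR z hz
          show -1 * ‖z‖ ^ 2 + (conj (2 * a) * z).re + (R ^ 2 - ‖a‖ ^ 2) ≤ 0
          rw [G1_cre]
          rw [G1_nsq] at h3
          rw [G1_nsq, G1_nsq]
          have h4 : (2 * a).re = 2 * a.re := by simp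
          have h5 : (2 * a).im = 2 * a.im := by simp
          rw [h4, h5]
          rw [Complex.sub_re, Complex.sub_im] at h3
          nlinarith)
      unfold lvp at h2
      rw [G1_cre, G1_nsq, G1_nsq] at h2
      have h4 : (2 * a).re = 2 * a.re := by simp
      have h5 : (2 * a).im = 2 * a.im := by simp
      rw [h4, h5] at h2
      rw [G1_nsq, Complex.sub_re, Complex.sub_im]
      nlinarith
  · rintro ⟨hp, hc, hb⟩
    refine ⟨hp, ?_⟩
    intro a b c h
    have ha : a ≤ 0 := h none (Finset.mem_insert_self _ _)
    have hz : ∀ z ∈ Z, a * ‖z‖ ^ 2 + (conj b * z).re + c ≤ 0 := fun z hz =>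
      h (some z) (Finset.mem_insert_of_mem (Finset.mem_image_of_mem _ hz))
    show a * (‖p.1‖ ^ 2 + p.2 ^ 2) + (conj b * p.1).re + c ≤ 0
    rcases eq_or_lt_of_le ha with ha0 | ha0
    · subst ha0
      have hsub : convexHull ℝ (Z : Set ℂ) ⊆ {z : ℂ | (conj b * z).re + c ≤ 0} := by
        apply convexHull_min
        · intro z hz'
          have := hz z hz'
          show (conj b * z).re + c ≤ 0
          linarith
        · intro x hx y hy s t hs ht hst
          have hx' : (conj b * x).re + c ≤ 0 := hx
          have hy' : (conj b * y).re + c ≤ 0 := hy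
          show (conj b * (s • x + t • y)).re + c ≤ 0
          rw [G1_cre] at hx' hy' ⊢
          have e1 : (s • x + t • y).re = s * x.re + t * y.re := by simp
          have e2 : (s • x + t • y).im = s * x.im + t * y.im := by simp
          rw [e1, e2]
          have e3 : b.re * (s * x.re + t * y.re) + b.im * (s * x.im + t * y.im) + c =
              s * (b.re * x.re + b.im * x.im + c) + t * (b.re * y.re + b.im * y.im + c) := by
            have : c = (s + t) * c := by rw [hst, one_mul]
            linear_combination this
          rw [e3]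
          have e4 := mul_nonpos_of_nonneg_of_nonpos hs hx'
          have e5 := mul_nonpos_of_nonneg_of_nonpos ht hy'
          linarith
      have h6 : (conj b * p.1).re + c ≤ 0 := hsub hc
      linarith
    · -- the ball
      set m : ℂ := ⟨b.re / (-2 * a), b.im / (-2 * a)⟩ with hm
      have hane : a ≠ 0 := ne_of_lt ha0
      have hb1 : b.re = -2 * a * m.re := by
        rw [hm]
        field_simp
      have hb2 : b.im = -2 * a * m.im := by
        rw [hm]
        field_simp
      set K : ℝ := m.re ^ 2 + m.im ^ 2 - c / a with hK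
      have hcK : c = a * (m.re ^ 2 + m.im ^ 2 - K) := by
        rw [hK]
        field_simp
        ring
      have key : ∀ z : ℂ, ∀ q : ℝ, a * (‖z‖ ^ 2 + q) + (conj b * z).re + c =
          a * (‖z - m‖ ^ 2 + q - K) := by
        intro z q
        rw [G1_cre, G1_nsq, G1_nsq, Complex.sub_re, Complex.sub_im, hb1, hb2]
        linear_combination hcK
      have h7 : ∀ w ∈ Z, (Real.sqrt (max K 0)) ^ 2 ≤ ‖w - m‖ ^ 2 := by
        intro w hw
        rw [Real.sq_sqrt (le_max_right _ _)]
        apply max_le
        · have h8 := hz w hw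
          have h9 := key w 0
          have h10 : a * (‖w - m‖ ^ 2 + 0 - K) ≤ 0 := by
            rw [← h9]
            linarith
          by_contra hcon
          have hlt : ‖w - m‖ ^ 2 < K := not_le.1 hcon
          have : 0 < a * (‖w - m‖ ^ 2 + 0 - K) := mul_pos_of_neg_of_neg ha0 (by linarith)
          linarith
        · positivity
      have h11 := hb m _ h7
      rw [Real.sq_sqrt (le_max_right _ _)] at h11
      have h12 : K ≤ ‖p.1 - m‖ ^ 2 + p.2 ^ 2 := le_trans (le_max_left _ _) h11
      rw [key]
      exact mul_nonpos_of_nonpos_of_nonneg ha (by linarith)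

end Pool.Ipm
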