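import Pool.Agent.Work.MP_8cbffb_h28.Interface2

/-!
# MP_8cbffb_gt: block GM (measurability of the general polyhedron)
-/

set_option autoImplicit false

namespace Pool.Ipm

open MeasureTheory Finset ComplexConjugate

theorem GM_cont (a : ℝ) (b : ℂ) (c : ℝ) : Continuous (lvp a b c) := by
  unfold lvp
  fun_prop

/-- Block GM. -/
theorem p_GM : S_GM := by
  intro V
  have e : hullG V = {p : ℂ × ℝ | 0 < p.2} ∩
      ⋂ (a : ℝ) (b : ℂ) (c : ℝ) (_ : ∀ v ∈ V, lev a b c v ≤ 0), {p | lvp a b c p ≤ 0} := by
    ext p
    simp only [hullG, Set.mem_ofPred_eq, Set.mem_inter_iff, Set.mem_iInter]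
  rw [e]
  refine (isOpen_lt continuous_const continuous_snd).measurableSet.inter (IsClosed.measurableSet ?_)
  refine isClosed_iInter fun a => isClosed_iInter fun b => isClosed_iInter fun c =>
    isClosed_iInter fun _ => isClosed_le (GM_cont a b c) continuous_const

end Pool.Ipm
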