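import Pool.Agent.Work.MP_8cbffb_h28.Interface2

set_option autoImplicit false

namespace Pool.Ipm

open MeasureTheory Finset ComplexConjugate

theorem IVH_lev (a : ℝ) (b : ℂ) (c : ℝ) (v : Option ℂ) :
    ∃ s : ℝ, 0 < s ∧ lev a b c (invO v) * s = lev c b a v := by
  cases v with
  | none =>
    refine ⟨1, one_pos, ?_⟩
    simp [invO, lev]
  | some z =>
    by_cases hz : z = 0
    · subst hz
      refine ⟨1, one_pos, ?_⟩
      simp [invO, lev]
    · have hn : 0 < ‖z‖ := norm_pos_iff.2 hz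
      refine ⟨‖z‖ ^ 2, by positivity, ?_⟩
      have e1 : invO (some z) = some (z / ((‖z‖ ^ 2 : ℝ) : ℂ)) := by
        exact if_neg hz
      rw [e1]
      unfold lev
      dsimp only
      rw [← mul_div_assoc, Complex.div_ofReal_re, norm_div, Complex.norm_real,
        Real.norm_of_nonneg (sq_nonneg ‖z‖)]
      field_simp
      ring

theorem IVH_lvp (a : ℝ) (b : ℂ) (c : ℝ) (p : ℂ × ℝ) (hp : 0 < p.2) :
    lvp c b a (inv3 p) * (‖p.1‖ ^ 2 + p.2 ^ 2) = lvp a b c p := by
  have hρ : 0 < ‖p.1‖ ^ 2 + p.2 ^ 2 := by positivity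
  unfold lvp inv3
  dsimp only
  rw [← mul_div_assoc, Complex.div_ofReal_re, norm_div, Complex.norm_real,
    Real.norm_of_nonneg hρ.le]
  field_simp
  ring

theorem p_IVH : S_IVH := by
  intro V p hp
  have hρ : 0 < ‖p.1‖ ^ 2 + p.2 ^ 2 := by positivity
  have hlev : ∀ a b c v, lev a b c (invO v) ≤ 0 ↔ lev c b a v ≤ 0 := by
    intro a b c v
    obtain ⟨s, hs, h⟩ := IVH_lev a b c v
    rw [← h]
    constructor
    · intro h1
      exact mul_nonpos_of_nonpos_of_nonneg h1 hs.le
    · intro h1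
      by_contra h2
      push Not at h2
      have := mul_pos h2 hs
      linarith
  have hlvp : ∀ a b c, lvp c b a (inv3 p) ≤ 0 ↔ lvp a b c p ≤ 0 := by
    intro a b c
    rw [← IVH_lvp a b c p hp]
    constructor
    · intro h1
      exact mul_nonpos_of_nonpos_of_nonneg h1 hρ.le
    · intro h1
      by_contra h2
      push Not at h2
      have := mul_pos h2 hρ
      linarith
  unfold hullG
  constructor
  · rintro ⟨_, h⟩
    refine ⟨div_pos hp hρ, fun a b c hV => ?_⟩
    rw [hlvp c b a]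
    apply h
    intro v hv
    rw [Finset.mem_image] at hv
    obtain ⟨u, hu, rfl⟩ := hv
    rw [hlev]
    exact hV u hu
  · rintro ⟨_, h⟩
    refine ⟨hp, fun a b c hV => ?_⟩
    rw [← hlvp a b c]
    apply h
    intro v hv
    rw [← hlev]
    exact hV _ (Finset.mem_image_of_mem _ hv)

end Pool.Ipm
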