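import Pool.Agent.Work.MP_8cbffb_h28.Interface2

/-!
# Block IVV (second copy): inversion preserves the hyperbolic volume
-/

set_option autoImplicit false

namespace Pool.Ipm

open MeasureTheory Finset ComplexConjugate

namespace IVVx

noncomputable def rho (p : ℂ × ℝ) : ℝ := ‖p.1‖ ^ 2 + p.2 ^ 2

theorem rho_eq (p : ℂ × ℝ) : rho p = p.1.re ^ 2 + p.1.im ^ 2 + p.2 ^ 2 := by
  unfold rho
  rw [← Complex.normSq_eq_norm_sq, Complex.normSq_apply]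
  ring

theorem rho_pos (p : ℂ × ℝ) (h : 0 < p.2) : 0 < rho p := by
  unfold rho
  positivity

noncomputable def L (p : ℂ × ℝ) : (ℂ × ℝ) →L[ℝ] ℝ :=
  (2 * p.1.re) • (Complex.reCLM.comp (ContinuousLinearMap.fst ℝ ℂ ℝ)) +
  (2 * p.1.im) • (Complex.imCLM.comp (ContinuousLinearMap.fst ℝ ℂ ℝ)) +
  (2 * p.2) • (ContinuousLinearMap.snd ℝ ℂ ℝ)

theorem L_apply (p h : ℂ × ℝ) :
    L p h = 2 * p.1.re * h.1.re + 2 * p.1.im * h.1.im + 2 * p.2 * h.2 := by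
  simp [L]

theorem rho_deriv (p : ℂ × ℝ) : HasFDerivAt rho (L p) p := by
  have h1 : HasFDerivAt (fun q : ℂ × ℝ => q.1.re)
      (Complex.reCLM.comp (ContinuousLinearMap.fst ℝ ℂ ℝ)) p :=
    (Complex.reCLM.comp (ContinuousLinearMap.fst ℝ ℂ ℝ)).hasFDerivAt
  have h2 : HasFDerivAt (fun q : ℂ × ℝ => q.1.im)
      (Complex.imCLM.comp (ContinuousLinearMap.fst ℝ ℂ ℝ)) p :=
    (Complex.imCLM.comp (ContinuousLinearMap.fst ℝ ℂ ℝ)).hasFDerivAt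
  have h3 : HasFDerivAt (fun q : ℂ × ℝ => q.2) (ContinuousLinearMap.snd ℝ ℂ ℝ) p :=
    (ContinuousLinearMap.snd ℝ ℂ ℝ).hasFDerivAt
  have h := ((h1.pow 2).add (h2.pow 2)).add (h3.pow 2)
  have e : rho = fun q : ℂ × ℝ => q.1.re ^ 2 + q.1.im ^ 2 + q.2 ^ 2 := funext rho_eq
  rw [e]
  refine h.congr_fderiv ?_
  ext x <;> simp [L] <;> ring

theorem inv3_eq (p : ℂ × ℝ) : inv3 p = (rho p)⁻¹ • p := by
  refine Prod.ext ?_ ?_
  · show p.1 / ((‖p.1‖ ^ 2 + p.2 ^ 2 : ℝ) : ℂ) = ((rho p)⁻¹ • p).1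
    rw [Prod.smul_fst, Complex.real_smul, Complex.ofReal_inv, div_eq_mul_inv, mul_comm]
    rfl
  · show p.2 / (‖p.1‖ ^ 2 + p.2 ^ 2) = ((rho p)⁻¹ • p).2
    rw [Prod.smul_snd, smul_eq_mul, div_eq_mul_inv, mul_comm]
    rfl

noncomputable def D (p : ℂ × ℝ) : (ℂ × ℝ) →L[ℝ] (ℂ × ℝ) :=
  (rho p)⁻¹ • ContinuousLinearMap.id ℝ (ℂ × ℝ) +
    (-(rho p ^ 2)⁻¹ • L p).smulRight p

theorem inv3_deriv (p : ℂ × ℝ) (h : 0 < p.2) : HasFDerivAt inv3 (D p) p := by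
  have e : inv3 = fun q => (rho q)⁻¹ • q := funext inv3_eq
  rw [e]
  have h1 : HasFDerivAt (fun q => (rho q)⁻¹) (-(rho p ^ 2)⁻¹ • L p) p :=
    (hasDerivAt_inv (rho_pos p h).ne').comp_hasFDerivAt p (rho_deriv p)
  exact h1.smul (hasFDerivAt_id p)

theorem det_D (p : ℂ × ℝ) (h : 0 < p.2) : (D p).det = -(rho p ^ 3)⁻¹ := by
  have e : ((D p : (ℂ × ℝ) →L[ℝ] (ℂ × ℝ)) : (ℂ × ℝ) →ₗ[ℝ] (ℂ × ℝ)) =
      (rho p)⁻¹ • LinearMap.transvection (-(rho p)⁻¹ • (L p : (ℂ × ℝ) →ₗ[ℝ] ℝ)) p := by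
    apply LinearMap.ext
    intro x
    show (rho p)⁻¹ • x + (-(rho p ^ 2)⁻¹ • L p x) • p =
      (rho p)⁻¹ • (x + (-(rho p)⁻¹ • L p x) • p)
    rw [smul_add, smul_smul]
    congr 2
    simp only [smul_eq_mul]
    ring
  have hf : Module.finrank ℝ (ℂ × ℝ) = 3 := by
    rw [Module.finrank_prod, Complex.finrank_real_complex, Module.finrank_self]
  have hr := (rho_pos p h).ne'
  have hL : L p p = 2 * rho p := by
    rw [L_apply, rho_eq]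
    ring
  show LinearMap.det ((D p : (ℂ × ℝ) →L[ℝ] (ℂ × ℝ)) : (ℂ × ℝ) →ₗ[ℝ] (ℂ × ℝ)) = _
  rw [e, LinearMap.det_smul, LinearMap.transvection.det, hf]
  show (rho p)⁻¹ ^ 3 * (1 + (-(rho p)⁻¹ • L p p)) = _
  rw [hL, smul_eq_mul]
  field_simp
  ring

theorem inv3_pos (p : ℂ × ℝ) (h : 0 < p.2) : 0 < (inv3 p).2 := by
  show 0 < p.2 / (‖p.1‖ ^ 2 + p.2 ^ 2)
  positivity

theorem rho_inv3 (p : ℂ × ℝ) (h : 0 < p.2) : rho (inv3 p) = (rho p)⁻¹ := by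
  have hr := (rho_pos p h).ne'
  rw [inv3_eq, rho_eq ((rho p)⁻¹ • p)]
  have e1 : ((rho p)⁻¹ • p).1.re = (rho p)⁻¹ * p.1.re := by simp
  have e2 : ((rho p)⁻¹ • p).1.im = (rho p)⁻¹ * p.1.im := by simp
  have e3 : ((rho p)⁻¹ • p).2 = (rho p)⁻¹ * p.2 := by simp
  rw [e1, e2, e3]
  have : ((rho p)⁻¹ * p.1.re) ^ 2 + ((rho p)⁻¹ * p.1.im) ^ 2 + ((rho p)⁻¹ * p.2) ^ 2 =
      (rho p)⁻¹ ^ 2 * rho p := by
    rw [rho_eq p]
    ring
  rw [this]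
  field_simp

theorem inv3_inv3 (p : ℂ × ℝ) (h : 0 < p.2) : inv3 (inv3 p) = p := by
  have hr := (rho_pos p h).ne'
  rw [inv3_eq (inv3 p), rho_inv3 p h, inv_inv, inv3_eq p, smul_smul, mul_inv_cancel₀ hr, one_smul]

theorem measurable_inv3 : Measurable inv3 := by
  unfold inv3
  fun_prop

end IVVx

open IVVx in
theorem p_IVV : S_IVV := by
  intro S hS hSU
  set T : Set (ℂ × ℝ) := inv3 ⁻¹' S ∩ {p | 0 < p.2} with hT
  have hTm : MeasurableSet T :=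
    (measurable_inv3 hS).inter (measurableSet_lt measurable_const measurable_snd)
  have himg : inv3 '' T = S := by
    apply Set.Subset.antisymm
    · rintro _ ⟨p, ⟨hp, _⟩, rfl⟩
      exact hp
    · intro q hq
      have hq2 : 0 < q.2 := hSU hq
      refine ⟨inv3 q, ⟨?_, inv3_pos q hq2⟩, inv3_inv3 q hq2⟩
      show inv3 (inv3 q) ∈ S
      rw [inv3_inv3 q hq2]
      exact hq
  have hinj : Set.InjOn inv3 T := by
    intro p hp q hq h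
    rw [← inv3_inv3 p hp.2, ← inv3_inv3 q hq.2, h]
  haveI : (volume : Measure (ℂ × ℝ)).IsAddHaarMeasure := by
    rw [Measure.volume_eq_prod]
    infer_instance
  have key := lintegral_image_eq_lintegral_abs_det_fderiv_mul (volume : Measure (ℂ × ℝ)) hTm
    (fun p hp => (inv3_deriv p hp.2).hasFDerivWithinAt) hinj
    (fun p => ENNReal.ofReal (1 / p.2 ^ 3))
  rw [himg] at key
  rw [key]
  refine setLIntegral_congr_fun hTm fun p hp => ?_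
  have h2 : 0 < p.2 := hp.2
  have hr := rho_pos p h2
  rw [← ENNReal.ofReal_mul (abs_nonneg _)]
  congr 1
  rw [det_D p h2, abs_neg, abs_of_pos (by positivity)]
  have e : (inv3 p).2 = p.2 / rho p := rfl
  rw [e]
  field_simp

end Pool.Ipm
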