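import Pool.Agent.Work.MP_8cbffb_h28.Interface2

/-! # Block NCL (helper45) -/

set_option autoImplicit false

namespace Pool.Ipm

open MeasureTheory Finset ComplexConjugate

theorem p_NCL : S_NCL := by
  intro Z
  constructor
  · intro hN hcol
    rw [collinear_iff_exists_forall_eq_smul_vadd] at hcol
    obtain ⟨p₀, v, hv⟩ := hcol
    obtain ⟨b, hb0, hb⟩ : ∃ b : ℂ, b ≠ 0 ∧ (conj b * v).re = 0 := by
      by_cases h : v = 0
      · refine ⟨1, one_ne_zero, ?_⟩
        rw [h]
        simp
      · refine ⟨Complex.I * v, mul_ne_zero Complex.I_ne_zero h, ?_⟩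
        simp only [Complex.mul_re, Complex.conj_re, Complex.conj_im, Complex.I_re, Complex.I_im,
          Complex.mul_im]
        ring
    have h1 := hN 0 b (-(conj b * p₀).re) (by
      intro w hw
      rw [mem_insert, mem_image] at hw
      rcases hw with rfl | ⟨z, hz, rfl⟩
      · rfl
      · obtain ⟨r, hr⟩ := hv z (by exact_mod_cast hz)
        show 0 * ‖z‖ ^ 2 + (conj b * z).re + -(conj b * p₀).re = 0
        rw [hr, vadd_eq_add, mul_add, Complex.add_re, mul_smul_comm, Complex.smul_re, hb,
          smul_zero]
        ring)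
    exact hb0 h1.2.1
  · intro hcol a b c h
    have ha : a = 0 := h none (mem_insert_self _ _)
    have hz : ∀ z ∈ Z, (conj b * z).re + c = 0 := by
      intro z hz
      have h2 : a * ‖z‖ ^ 2 + (conj b * z).re + c = 0 :=
        h (some z) (mem_insert_of_mem (mem_image_of_mem _ hz))
      rw [ha] at h2
      linarith
    have hb : b = 0 := by
      by_contra hb
      apply hcol
      rw [collinear_iff_exists_forall_eq_smul_vadd]
      obtain ⟨N, hN⟩ : ∃ N : ℝ, N = b.re * b.re + b.im * b.im := ⟨_, rfl⟩
      have hN0 : N ≠ 0 := by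
        rw [hN, ← Complex.normSq_apply]
        exact fun h0 => hb (Complex.normSq_eq_zero.1 h0)
      refine ⟨((-c / N : ℝ) : ℂ) * b, Complex.I * b, fun z hzZ => ⟨(conj b * z).im / N, ?_⟩⟩
      have h3 := hz z (by exact_mod_cast hzZ)
      simp only [Complex.mul_re, Complex.conj_re, Complex.conj_im] at h3
      rw [vadd_eq_add, Complex.real_smul]
      apply Complex.ext
      · simp only [Complex.add_re, Complex.mul_re, Complex.mul_im, Complex.ofReal_re,
          Complex.ofReal_im, Complex.conj_re, Complex.conj_im, Complex.I_re, Complex.I_im]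
        field_simp
        rw [hN]
        linear_combination (b.re) * h3
      · simp only [Complex.add_im, Complex.mul_re, Complex.mul_im, Complex.ofReal_re,
          Complex.ofReal_im, Complex.conj_re, Complex.conj_im, Complex.I_re, Complex.I_im]
        field_simp
        rw [hN]
        linear_combination (b.im) * h3
    refine ⟨ha, hb, ?_⟩
    have hne : Z.Nonempty := by
      by_contra h0
      rw [not_nonempty_iff_eq_empty] at h0
      apply hcol
      rw [h0, coe_empty]
      exact collinear_empty ℝ ℂ
    obtain ⟨z, hzZ⟩ := hne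
    have h4 := hz z hzZ
    rw [hb] at h4
    simpa using h4

end Pool.Ipm
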