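import Pool.Agent.Work.MP_8cbffb_h28.Interface2

set_option autoImplicit false

namespace Pool.Ipm

open MeasureTheory Finset ComplexConjugate

theorem SGI_eq (a : ℝ) (b : ℂ) (c : ℝ) (z : ℂ) (hz : z ≠ 0) :
    lev c b a (invO (some z)) = lev a b c (some z) / ‖z‖ ^ 2 := by
  have hn : (0 : ℝ) < ‖z‖ := norm_pos_iff.2 hz
  have e1 : invO (some z) = some (z / ((‖z‖ ^ 2 : ℝ) : ℂ)) := by
    show (if z = 0 then none else some (z / ((‖z‖ ^ 2 : ℝ) : ℂ))) = _
    rw [if_neg hz]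
  rw [e1]
  show c * ‖z / ((‖z‖ ^ 2 : ℝ) : ℂ)‖ ^ 2 + (conj b * (z / ((‖z‖ ^ 2 : ℝ) : ℂ))).re + a =
    (a * ‖z‖ ^ 2 + (conj b * z).re + c) / ‖z‖ ^ 2
  rw [← mul_div_assoc, Complex.div_ofReal_re, norm_div, Complex.norm_real, Real.norm_eq_abs,
    abs_of_pos (by positivity : (0 : ℝ) < ‖z‖ ^ 2)]
  field_simp
  ring

theorem p_SGI : S_SGI := by
  intro a b c v
  cases v with
  | none =>
    have h : lev c b a (invO none) = lev a b c none := by
      show c * ‖(0 : ℂ)‖ ^ 2 + (conj b * 0).re + a = a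
      simp
    rw [h]
    exact ⟨Iff.rfl, Iff.rfl⟩
  | some z =>
    by_cases hz : z = 0
    · subst hz
      have h : lev c b a (invO (some 0)) = lev a b c (some 0) := by
        have e1 : invO (some 0) = none := by
          show (if (0 : ℂ) = 0 then none else some ((0 : ℂ) / ((‖(0 : ℂ)‖ ^ 2 : ℝ) : ℂ))) = _
          rw [if_pos rfl]
        rw [e1]
        show c = a * ‖(0 : ℂ)‖ ^ 2 + (conj b * 0).re + c
        simp
      rw [h]
      exact ⟨Iff.rfl, Iff.rfl⟩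
    · have hn : (0 : ℝ) < ‖z‖ ^ 2 := by
        have := norm_pos_iff.2 hz
        positivity
      rw [SGI_eq a b c z hz]
      refine ⟨?_, ?_⟩
      · rw [div_lt_iff₀ hn, zero_mul]
      · rw [div_eq_zero_iff]
        exact ⟨Or.inl, fun h => h.resolve_right hn.ne'⟩

end Pool.Ipm
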