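import Pool.Agent.Work.MP_8cbffb_h28.Interface2

set_option autoImplicit false

namespace Pool.Ipm

open MeasureTheory Finset ComplexConjugate

theorem SGT_key (w : ℂ) (a : ℝ) (b : ℂ) (c : ℝ) (v : Option ℂ) :
    lev a (b - 2 * a * w) (c + a * ‖w‖ ^ 2 - (conj b * w).re) (traO w v) = lev a b c v := by
  cases v with
  | none => rfl
  | some z =>
    simp only [traO, lev, Complex.sq_norm, Complex.normSq_apply, map_sub, map_mul,
      Complex.conj_ofReal, Complex.mul_re, Complex.mul_im, Complex.sub_re, Complex.sub_im,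
      Complex.add_re, Complex.add_im, Complex.conj_re, Complex.conj_im, Complex.ofReal_re,
      Complex.ofReal_im, map_ofNat, Complex.re_ofNat, Complex.im_ofNat]
    ring

theorem SGT_key2 (w : ℂ) (a : ℝ) (b : ℂ) (c : ℝ) (v : Option ℂ) :
    lev a b c (traO w v) =
      lev a (b + 2 * a * w) (c + a * ‖w‖ ^ 2 + (conj b * w).re) v := by
  cases v with
  | none => rfl
  | some z =>
    simp only [traO, lev, Complex.sq_norm, Complex.normSq_apply, map_add, map_mul,
      Complex.conj_ofReal, Complex.mul_re, Complex.mul_im, Complex.sub_re, Complex.sub_im,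
      Complex.add_re, Complex.add_im, Complex.conj_re, Complex.conj_im, Complex.ofReal_re,
      Complex.ofReal_im, map_ofNat, Complex.re_ofNat, Complex.im_ofNat]
    ring

theorem p_SGT : S_SGT := by
  intro w
  refine ⟨fun a b c => ⟨a, b - 2 * a * w, c + a * ‖w‖ ^ 2 - (conj b * w).re, fun v => ?_⟩,
    fun a b c => ⟨a, b + 2 * a * w, c + a * ‖w‖ ^ 2 + (conj b * w).re, fun v => ?_⟩⟩
  · rw [SGT_key]
    exact ⟨Iff.rfl, Iff.rfl⟩
  · rw [SGT_key2]
    exact ⟨Iff.rfl, Iff.rfl⟩

end Pool.Ipm
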