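import Pool.Agent.Work.MP_8cbffb_h28.Interface2

/-!
# MP_8cbffb_gt, block TRV: translation preserves the volume of the hull
-/

set_option autoImplicit false

namespace Pool.Ipm

open MeasureTheory Finset ComplexConjugate

theorem TRV_nsq (z w : ℂ) : ‖z + w‖ ^ 2 = ‖z‖ ^ 2 + 2 * (conj w * z).re + ‖w‖ ^ 2 := by
  rw [← Complex.normSq_eq_norm_sq, ← Complex.normSq_eq_norm_sq, ← Complex.normSq_eq_norm_sq,
    Complex.normSq_apply, Complex.normSq_apply, Complex.normSq_apply, Complex.mul_re,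
    Complex.conj_re, Complex.conj_im, Complex.add_re, Complex.add_im]
  ring

theorem TRV_lin (a : ℝ) (b z w : ℂ) :
    (conj (b + 2 * (a : ℂ) * w) * z).re = (conj b * z).re + 2 * a * (conj w * z).re := by
  simp [Complex.mul_re, Complex.mul_im]
  ring

theorem TRV_lev (a : ℝ) (b : ℂ) (c : ℝ) (w : ℂ) (v : Option ℂ) :
    lev a b c (traO w v) =
      lev a (b + 2 * (a : ℂ) * w) (c + a * ‖w‖ ^ 2 + (conj b * w).re) v := by
  cases v with
  | none => rfl
  | some z =>
    show a * ‖z + w‖ ^ 2 + (conj b * (z + w)).re + c =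
      a * ‖z‖ ^ 2 + (conj (b + 2 * (a : ℂ) * w) * z).re + (c + a * ‖w‖ ^ 2 + (conj b * w).re)
    rw [TRV_nsq, TRV_lin, mul_add (conj b) z w, Complex.add_re]
    ring

theorem TRV_lvp (a : ℝ) (b : ℂ) (c : ℝ) (w z : ℂ) (t : ℝ) :
    lvp a b c (z + w, t) =
      lvp a (b + 2 * (a : ℂ) * w) (c + a * ‖w‖ ^ 2 + (conj b * w).re) (z, t) := by
  show a * (‖z + w‖ ^ 2 + t ^ 2) + (conj b * (z + w)).re + c =
    a * (‖z‖ ^ 2 + t ^ 2) + (conj (b + 2 * (a : ℂ) * w) * z).re +
      (c + a * ‖w‖ ^ 2 + (conj b * w).re)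
  rw [TRV_nsq, TRV_lin, mul_add (conj b) z w, Complex.add_re]
  ring

theorem TRV_inv (w : ℂ) (v : Option ℂ) : traO (-w) (traO w v) = v := by
  cases v with
  | none => rfl
  | some z =>
    show some (z + w + -w) = some z
    rw [add_neg_cancel_right]

theorem TRV_hull (V : Finset (Option ℂ)) (w : ℂ) :
    hullG (V.image (traO w)) = (fun p : ℂ × ℝ => p + (-w, 0)) ⁻¹' hullG V := by
  ext p
  obtain ⟨z, t⟩ := p
  have he : ((z, t) : ℂ × ℝ) + (-w, 0) = (z + -w, t) := by
    rw [Prod.mk_add_mk, add_zero]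
  rw [Set.mem_preimage]
  show _ ↔ ((z, t) : ℂ × ℝ) + (-w, 0) ∈ hullG V
  rw [he]
  constructor
  · intro h
    refine ⟨h.1, fun a b c hv => ?_⟩
    rw [TRV_lvp]
    refine h.2 _ _ _ fun u hu => ?_
    obtain ⟨v, hvV, rfl⟩ := Finset.mem_image.mp hu
    rw [← TRV_lev, TRV_inv]
    exact hv v hvV
  · intro h
    refine ⟨h.1, fun a b c hv => ?_⟩
    have h1 := h.2 (a) (b + 2 * (a : ℂ) * w) (c + a * ‖w‖ ^ 2 + (conj b * w).re) fun v hvV => by
      rw [← TRV_lev]
      exact hv _ (Finset.mem_image_of_mem _ hvV)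
    rw [← TRV_lvp, neg_add_cancel_right] at h1
    exact h1

/-- TRV: translation preserves the hull and the volume. -/
theorem p_TRV : S_TRV := by
  intro V w
  unfold volG
  rw [TRV_hull]
  have hinv : (volume : Measure (ℂ × ℝ)).IsAddRightInvariant := by
    rw [Measure.volume_eq_prod]
    infer_instance
  have hmp : MeasurePreserving (fun p : ℂ × ℝ => p + (-w, 0)) volume volume :=
    measurePreserving_add_right volume (-w, 0)
  have hme : MeasurableEmbedding (fun p : ℂ × ℝ => p + (-w, 0)) :=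
    measurableEmbedding_addRight (-w, 0)
  have h := hmp.setLIntegral_comp_preimage_emb hme
    (fun p : ℂ × ℝ => ENNReal.ofReal (1 / p.2 ^ 3)) (hullG V)
  rw [← h]
  refine lintegral_congr fun p => ?_
  have hp : (p + (-w, 0) : ℂ × ℝ).2 = p.2 := by
    rw [Prod.snd_add, add_zero]
  rw [hp]

end Pool.Ipm
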