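import Pool.Agent.Work.MP_8cbffb_h28.FING
import Pool.Agent.Work.MP_8cbffb_h28.FIN2

/-!
# Finite volume and the local form for general ideal polyhedra
-/

set_option autoImplicit false

namespace Pool.Ipm

open MeasureTheory Finset ComplexConjugate

theorem p_VFG (hG1 : S_G1) (hGM : S_GM) (hIVH : S_IVH) (hIVV : S_IVV) (hTRV : S_TRV)
    (hSGI : S_SGI) (hSGT : S_SGT) (hfin : ∀ Z : Finset ℂ, vol Z < ⊤) (V : Finset (Option ℂ)) :
    volG V < ⊤ := by
  have hempty : ∀ W : Finset (Option ℂ), W ⊆ {none} → volG W < ⊤ := by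
    intro W hW
    have : hullG W = ∅ := by
      rw [Set.eq_empty_iff_forall_notMem]
      rintro p ⟨hp, h⟩
      have h1 := h 0 0 1 (fun v hv => by
        have := hW hv
        rw [Finset.mem_singleton] at this
        rw [this]
        simp [lev])
      simp [lvp] at h1
      linarith
    unfold volG
    rw [this]
    simp
  rcases V.eq_empty_or_nonempty with rfl | ⟨v0, hv0⟩
  · exact hempty ∅ (Finset.empty_subset _)
  · obtain ⟨g, hg, hg0⟩ := FING_mov hGM hIVH hIVV hTRV hSGI hSGT v0
    rw [← hg.vol V]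
    set V1 := V.image g with hV1
    have hnone : none ∈ V1 := by
      rw [← hg0]
      exact Finset.mem_image_of_mem g hv0
    have hVZ : V1 = insert none (V1.eraseNone.image some) := by
      rw [Finset.image_some_eraseNone, Finset.insert_erase hnone]
    rcases V1.eraseNone.eq_empty_or_nonempty with h | h
    · apply hempty
      rw [hVZ, h]
      simp
    · rw [hVZ]
      unfold volG
      rw [hG1 _ h]
      exact hfin _

theorem p_LOG (hG1 : S_G1) (h2 : S_FIN2) (Z : Finset ℂ) (c : ℂ) (R : ℝ)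
    (hR : ∀ w ∈ Z, R ≤ ‖w - c‖) (h4 : 4 ≤ (Z.filter fun w => ‖w - c‖ = R).card) :
    ∃ β : ℂ, ‖β‖ = 1 ∧ ∀ ε : ℝ, 0 < ε → ∃ t : ℝ, |t| < ε ∧
      volG (insert none (Z.image some)) <
        volG (insert none ((Z.image fun w => w + t * β * conj w).image some)) := by
  obtain ⟨β, hβ, H⟩ := h2 Z c R hR h4
  refine ⟨β, hβ, fun ε hε => ?_⟩
  obtain ⟨t, ht, hlt⟩ := H ε hε
  refine ⟨t, ht, ?_⟩
  have hne : Z.Nonempty := by
    by_contra hcon
    rw [Finset.not_nonempty_iff_eq_empty] at hcon
    subst hcon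
    simp at h4
  have e : (Z.image fun w => w + t * β * conj w) = Z.image (At β t) := by
    ext w
    simp [At]
  rw [e]
  have h5 : ∀ Y : Finset ℂ, Y.Nonempty → volG (insert none (Y.image some)) = vol Y := by
    intro Y hY
    unfold volG vol
    rw [hG1 Y hY]
  rw [h5 Z hne, h5 _ (hne.image _)]
  exact hlt

end Pool.Ipm
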