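import Pool.Agent.Work.MP_8cbffb_h28.All
import Pool.Agent.Work.MP_8cbffb_h28.FING2
import Pool.Agent.Work.MP_8cbffb_h28.B_G1
import Pool.Agent.Work.MP_8cbffb_h28.B_GM
import Pool.Agent.Work.MP_8cbffb_h28.B_IVH
import Pool.Agent.Work.MP_8cbffb_h28.B_IVVx
import Pool.Agent.Work.MP_8cbffb_h28.B_TRV
import Pool.Agent.Work.MP_8cbffb_h28.B_SGI
import Pool.Agent.Work.MP_8cbffb_h28.B_SGT
import Pool.Agent.Work.MP_8cbffb_h28.B_NCL

/-!
# MP_8cbffb_gt: general ideal polyhedra, assembly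
-/

set_option autoImplicit false

namespace Pool.Ipm

open ComplexConjugate

theorem general_form : S_FING :=
  p_FING p_G1 p_GM p_IVH p_IVV p_TRV p_SGI p_SGT p_NCL global_form

theorem general_finite (V : Finset (Option ℂ)) : volG V < ⊤ :=
  p_VFG p_G1 p_GM p_IVH p_IVV p_TRV p_SGI p_SGT finite_volume V

theorem general_local (Z : Finset ℂ) (c : ℂ) (R : ℝ)
    (hR : ∀ w ∈ Z, R ≤ ‖w - c‖) (h4 : 4 ≤ (Z.filter fun w => ‖w - c‖ = R).card) :
    ∃ β : ℂ, ‖β‖ = 1 ∧ ∀ ε : ℝ, 0 < ε → ∃ t : ℝ, |t| < ε ∧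
      volG (insert none (Z.image some)) <
        volG (insert none ((Z.image fun w => w + t * β * conj w).image some)) :=
  p_LOG p_G1 local_form Z c R hR h4

end Pool.Ipm
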