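import Pool.Agent.Work.MP_8cbffb_h28.All2

/-!
# MP_8cbffb_gt: the local form for general ideal polyhedra
-/

set_option autoImplicit false

namespace Pool.Ipm

open ComplexConjugate Filter Topology

/-- the core, for a polyhedron with a vertex at infinity -/
theorem lg_core (V1 : Finset (Option ℂ)) (hnone : none ∈ V1) (a' : ℝ) (b' : ℂ) (c' : ℝ)
    (ha' : a' < 0) (hle' : ∀ u ∈ V1, lev a' b' c' u ≤ 0)
    (h4 : 4 ≤ {v | v ∈ V1 ∧ lev a' b' c' v = 0}.ncard) :
    ∃ β : ℂ, ‖β‖ = 1 ∧ ∀ ε : ℝ, 0 < ε → ∃ t : ℝ, |t| < ε ∧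
      volG V1 < volG (V1.image (Option.map fun w : ℂ => w + t * β * conj w)) := by
  set Z := V1.eraseNone with hZ
  have hVZ : V1 = insert none (Z.image some) := by
    rw [hZ, Finset.image_some_eraseNone, Finset.insert_erase hnone]
  have hemp : ∃ z1 ∈ Z, lev a' b' c' (some z1) = 0 := by
    by_contra hemp
    push Not at hemp
    have : {v | v ∈ V1 ∧ lev a' b' c' v = 0} = ∅ := by
      rw [Set.eq_empty_iff_forall_notMem]
      rintro v ⟨hv, hv0⟩
      rcases v with _ | w
      · exact absurd hv0 ha'.ne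
      · have hwZ : w ∈ Z := by
          rw [hVZ] at hv
          simpa using hv
        exact hemp w hwZ hv0
    rw [this, Set.ncard_empty] at h4
    omega
  obtain ⟨z1, hz1, hz10⟩ := hemp
  set m := b' / ((-2 * a' : ℝ) : ℂ) with hm
  have hsq := fun z => FING_sq a' b' z z1 c' ha'.ne hz10
  have hout : ∀ w ∈ Z, ‖z1 - m‖ ≤ ‖w - m‖ := by
    intro w hw
    have h1 : lev a' b' c' (some w) ≤ 0 := by
      apply hle'
      rw [hVZ]
      simp [hw]
    rw [hsq w] at h1
    have h2 : ‖z1 - m‖ ^ 2 ≤ ‖w - m‖ ^ 2 := by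
      by_contra hcon
      push Not at hcon
      nlinarith
    exact (sq_le_sq₀ (norm_nonneg _) (norm_nonneg _)).1 h2
  have hsub : {v | v ∈ V1 ∧ lev a' b' c' v = 0} ⊆
      ((Z.filter fun w => ‖w - m‖ = ‖z1 - m‖).image some : Finset (Option ℂ)) := by
    rintro v ⟨hv, hv0⟩
    rcases v with _ | w
    · exact absurd hv0 ha'.ne
    · have hwZ : w ∈ Z := by
        rw [hVZ] at hv
        simpa using hv
      rw [hsq w] at hv0
      have h4 : ‖w - m‖ ^ 2 = ‖z1 - m‖ ^ 2 := by
        rcases mul_eq_zero.1 hv0 with h | h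
        · exact absurd h ha'.ne
        · linarith
      have h5 : ‖w - m‖ = ‖z1 - m‖ := (sq_eq_sq₀ (norm_nonneg _) (norm_nonneg _)).1 h4
      rw [Finset.mem_coe, Finset.mem_image]
      exact ⟨w, Finset.mem_filter.2 ⟨hwZ, h5⟩, rfl⟩
  have h5 : 4 ≤ (Z.filter fun w => ‖w - m‖ = ‖z1 - m‖).card := by
    have h6 := Set.ncard_le_ncard hsub (Finset.finite_toSet _)
    rw [Set.ncard_coe_finset] at h6
    exact h4.trans (h6.trans Finset.card_image_le)
  obtain ⟨β, hβ, H⟩ := general_local Z m ‖z1 - m‖ hout h5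
  refine ⟨β, hβ, fun ε hε => ?_⟩
  obtain ⟨t, ht, hlt⟩ := H ε hε
  refine ⟨t, ht, ?_⟩
  have e : V1.image (Option.map fun w : ℂ => w + t * β * conj w) =
      insert none ((Z.image fun w => w + t * β * conj w).image some) := by
    rw [hVZ, Finset.image_insert, Finset.image_image, Finset.image_image]
    rfl
  rw [e, hVZ]
  exact hlt

/-- the map `z / |z|²` -/
noncomputable def lgj (z : ℂ) : ℂ := z / ((‖z‖ ^ 2 : ℝ) : ℂ)

theorem lgj_ne {z : ℂ} (hz : z ≠ 0) : lgj z ≠ 0 := by
  have h1 : ((‖z‖ ^ 2 : ℝ) : ℂ) ≠ 0 := by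
    have : ‖z‖ ≠ 0 := norm_ne_zero_iff.2 hz
    exact_mod_cast pow_ne_zero 2 this
  exact div_ne_zero hz h1

theorem lgj_inv {z : ℂ} (hz : z ≠ 0) : lgj (lgj z) = z := by
  have h := FING_inv (some z)
  have e1 : invO (some z) = some (lgj z) := by simp only [invO, if_neg hz, lgj]
  have e2 : invO (some (lgj z)) = some (lgj (lgj z)) := by
    simp only [invO, if_neg (lgj_ne hz)]
    rfl
  rw [e1, e2] at h
  exact Option.some_injective _ h

theorem lgj_cont {z : ℂ} (hz : z ≠ 0) : ContinuousAt lgj z := by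
  have h1 : ((‖z‖ ^ 2 : ℝ) : ℂ) ≠ 0 := by
    have : ‖z‖ ≠ 0 := norm_ne_zero_iff.2 hz
    exact_mod_cast pow_ne_zero 2 this
  unfold lgj
  refine ContinuousAt.div continuousAt_id ?_ h1
  fun_prop

theorem lg_ne (β : ℂ) (hβ : ‖β‖ = 1) (t : ℝ) (ht : |t| < 1) (w w' : ℂ)
    (h : w + t * β * conj w = w' + t * β * conj w') : w = w' := by
  by_contra hne
  have h1 : w - w' = -(t * β * conj (w - w')) := by
    rw [map_sub]
    linear_combination h
  have h2 : ‖w - w'‖ = |t| * ‖w - w'‖ := by
    conv_lhs => rw [h1]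
    rw [norm_neg, norm_mul, norm_mul, hβ, Complex.norm_real, Real.norm_eq_abs, mul_one,
      Complex.norm_conj]
  have h3 : 0 < ‖w - w'‖ := norm_pos_iff.2 (sub_ne_zero.2 hne)
  nlinarith

/-- **Local form for general ideal polyhedra.** -/
theorem general_local2 (V : Finset (Option ℂ)) (a : ℝ) (b : ℂ) (c : ℝ)
    (hle : ∀ v ∈ V, lev a b c v ≤ 0) (hv0 : ∃ v ∈ V, lev a b c v ≠ 0)
    (h4 : 4 ≤ {v | v ∈ V ∧ lev a b c v = 0}.ncard) (ε : ℝ) (hε : 0 < ε) :
    ∃ φ : ℂ → ℂ, Function.Injective φ ∧ (∀ z, some z ∈ V → ‖φ z - z‖ < ε) ∧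
      volG V < volG (V.image (Option.map φ)) := by
  obtain ⟨v0, hv0V, hv0⟩ := hv0
  have hlt : lev a b c v0 < 0 := lt_of_le_of_ne (hle v0 hv0V) hv0
  rcases v0 with _ | p
  · obtain ⟨β, hβ, H⟩ := lg_core V hv0V a b c hlt hle h4
    have hev : ∀ᶠ t : ℝ in 𝓝 0, |t| < 1 ∧ ∀ z ∈ V.eraseNone, ‖z + t * β * conj z - z‖ < ε := by
      refine Filter.Eventually.and ?_ ((Filter.eventually_all_finset _).2 fun z _ => ?_)
      · have : Tendsto (fun t : ℝ => |t|) (𝓝 0) (𝓝 |(0 : ℝ)|) := continuous_abs.continuousAt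
        rw [abs_zero] at this
        exact this.eventually (gt_mem_nhds one_pos)
      · have h1 : ContinuousAt (fun t : ℝ => ‖z + t * β * conj z - z‖) 0 := by fun_prop
        have h2 : Tendsto (fun t : ℝ => ‖z + t * β * conj z - z‖) (𝓝 0) (𝓝 0) := by
          have := h1.tendsto
          simpa using this
        exact h2.eventually (gt_mem_nhds hε)
    obtain ⟨δ, hδ, hball⟩ := Metric.eventually_nhds_iff.1 hev
    obtain ⟨t, ht, hlt2⟩ := H δ hδ
    obtain ⟨ht1, hz⟩ := hball (y := t) (by rw [Real.dist_eq, sub_zero]; exact ht)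
    exact ⟨fun w => w + t * β * conj w, fun w w' h => lg_ne β hβ t ht1 w w' h,
      fun z hzV => hz z (by simpa using hzV), hlt2⟩
  · -- the vertex `p` is moved to infinity
    have hgt : Good (traO (-p)) := good_tra p_TRV p_SGT (-p)
    have hgi : Good invO := good_inv p_GM p_IVH p_IVV p_SGI
    set g : Option ℂ → Option ℂ := invO ∘ traO (-p) with hg
    have hG : Good g := hgt.comp hgi
    have hG' : Good (traO p ∘ invO) := hgi.comp (good_tra p_TRV p_SGT p)
    have hg0 : g (some p) = none := by simp [hg, traO, invO]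
    obtain ⟨a', b', c', hs⟩ := hG.fwd a b c
    have ha' : a' < 0 := by
      have := (hs (some p)).1.1 hlt
      rwa [hg0] at this
    have hset : {v | v ∈ V.image g ∧ lev a' b' c' v = 0} = g '' {v | v ∈ V ∧ lev a b c v = 0} := by
      ext u
      constructor
      · rintro ⟨hu, hu0⟩
        rw [Finset.mem_image] at hu
        obtain ⟨v, hv, rfl⟩ := hu
        exact ⟨v, ⟨hv, (hs v).2.2 hu0⟩, rfl⟩
      · rintro ⟨v, ⟨hv, hv0⟩, rfl⟩
        exact ⟨Finset.mem_image_of_mem g hv, (hs v).2.1 hv0⟩
    have hle' : ∀ u ∈ V.image g, lev a' b' c' u ≤ 0 := by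
      intro u hu
      rw [Finset.mem_image] at hu
      obtain ⟨v, hv, rfl⟩ := hu
      rcases (hle v hv).lt_or_eq with h | h
      · exact ((hs v).1.1 h).le
      · exact ((hs v).2.1 h).le
    have hnone : none ∈ V.image g := by
      rw [← hg0]
      exact Finset.mem_image_of_mem g hv0V
    obtain ⟨β, hβ, H⟩ := lg_core (V.image g) hnone a' b' c' ha' hle'
      (by rw [hset, Set.ncard_image_of_injective _ hG.inj]; exact h4)
    -- the maps
    set F : ℝ → ℂ → ℂ := fun t z => if z = p then p else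
      p + lgj (lgj (z - p) + t * β * conj (lgj (z - p))) with hF
    have hFp : ∀ t, F t p = p := fun t => by simp [hF]
    have hFz : ∀ t z, z ≠ p → F t z = p + lgj (lgj (z - p) + t * β * conj (lgj (z - p))) :=
      fun t z hz => by simp [hF, hz]
    have hmap : ∀ t : ℝ, |t| < 1 → ∀ v : Option ℂ,
        (traO p ∘ invO) (Option.map (fun w : ℂ => w + t * β * conj w) (g v)) =
          Option.map (F t) v := by
      intro t ht v
      rcases v with _ | z
      · simp [hg, traO, invO]
      · by_cases hz : z = p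
        · subst hz
          rw [hg0, Option.map_some, hFp]
          simp [traO, invO]
        · have hzp : z - p ≠ 0 := sub_ne_zero.2 hz
          have e1 : g (some z) = some (lgj (z - p)) := by
            simp only [hg, Function.comp, traO, ← sub_eq_add_neg, invO, if_neg hzp, lgj]
          have hne : lgj (z - p) + t * β * conj (lgj (z - p)) ≠ 0 := by
            intro h0
            have := lg_ne β hβ t ht (lgj (z - p)) 0 (by rw [h0]; simp)
            exact lgj_ne hzp this
          rw [e1, Option.map_some, Option.map_some, hFz t z hz]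
          simp only [Function.comp, invO, if_neg hne, traO]
          rw [add_comm]
          rfl
    have hFinj : ∀ t : ℝ, |t| < 1 → Function.Injective (F t) := by
      intro t ht z z' h
      have h1 : Option.map (F t) (some z) = Option.map (F t) (some z') := by
        simp [h]
      rw [← hmap t ht, ← hmap t ht] at h1
      have h2 := hG'.inj h1
      have h3 := Option.map_injective (f := fun w : ℂ => w + t * β * conj w)
        (fun w w' h => lg_ne β hβ t ht w w' h) h2
      exact Option.some_injective _ (hG.inj h3)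
    have hev : ∀ᶠ t : ℝ in 𝓝 0, |t| < 1 ∧ ∀ z ∈ V.eraseNone, ‖F t z - z‖ < ε := by
      refine Filter.Eventually.and ?_ ((Filter.eventually_all_finset _).2 fun z _ => ?_)
      · have : Tendsto (fun t : ℝ => |t|) (𝓝 0) (𝓝 |(0 : ℝ)|) := continuous_abs.continuousAt
        rw [abs_zero] at this
        exact this.eventually (gt_mem_nhds one_pos)
      · by_cases hz : z = p
        · subst hz
          filter_upwards with t
          rw [hFp, sub_self, norm_zero]
          exact hε
        · have hzp : z - p ≠ 0 := sub_ne_zero.2 hz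
          have h1 : ContinuousAt (fun t : ℝ => lgj (z - p) + t * β * conj (lgj (z - p))) 0 := by
            fun_prop
          have h2 : ContinuousAt lgj
              ((fun t : ℝ => lgj (z - p) + t * β * conj (lgj (z - p))) 0) := by
            apply lgj_cont
            simpa using lgj_ne hzp
          have h3 := (ContinuousAt.comp (x := (0 : ℝ)) h2 h1).tendsto
          have h4 : Tendsto (fun t : ℝ => ‖F t z - z‖) (𝓝 0) (𝓝 0) := by
            have h5 := ((h3.const_add p).sub_const z).norm
            simp only [Function.comp, Complex.ofReal_zero, zero_mul, add_zero, lgj_inv hzp] at h5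
            rw [show p + (z - p) - z = 0 by ring, norm_zero] at h5
            refine h5.congr fun t => ?_
            rw [hFz t z hz]
          exact h4.eventually (gt_mem_nhds hε)
    obtain ⟨δ, hδ, hball⟩ := Metric.eventually_nhds_iff.1 hev
    obtain ⟨t, ht, hlt2⟩ := H δ hδ
    obtain ⟨ht1, hz⟩ := hball (y := t) (by rw [Real.dist_eq, sub_zero]; exact ht)
    refine ⟨F t, hFinj t ht1, fun z hzV => hz z (by simpa using hzV), ?_⟩
    rw [hG.vol V, ← hG'.vol ((V.image g).image _), Finset.image_image, Finset.image_image] at hlt2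
    have e : V.image ((traO p ∘ invO) ∘ (Option.map fun w : ℂ => w + t * β * conj w) ∘ g) =
        V.image (Option.map (F t)) := by
      refine Finset.image_congr fun v _ => ?_
      exact hmap t ht1 v
    rw [← e]
    exact hlt2

end Pool.Ipm
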