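import Pool.Agent.Work.MP_8cbffb_h28.Interface

set_option autoImplicit false

namespace Pool.Ipm

open MeasureTheory Finset ComplexConjugate

theorem p_BAR : S_BAR := by
  intro τ z hd
  have h0 : bc τ z 0 = crs (τ 1 - z) (τ 2 - z) / dtm τ := rfl
  have h1 : bc τ z 1 = crs (τ 2 - z) (τ 0 - z) / dtm τ := rfl
  have h2 : bc τ z 2 = crs (τ 0 - z) (τ 1 - z) / dtm τ := rfl
  have hd' : dtm τ = (τ 1 - τ 0).re * (τ 2 - τ 0).im - (τ 1 - τ 0).im * (τ 2 - τ 0).re := rfl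
  simp only [Complex.sub_re, Complex.sub_im] at hd'
  have e0 : crs (τ 1 - z) (τ 2 - z) = ((τ 1).re - z.re) * ((τ 2).im - z.im) -
    ((τ 1).im - z.im) * ((τ 2).re - z.re) := rfl
  have e1 : crs (τ 2 - z) (τ 0 - z) = ((τ 2).re - z.re) * ((τ 0).im - z.im) -
    ((τ 2).im - z.im) * ((τ 0).re - z.re) := rfl
  have e2 : crs (τ 0 - z) (τ 1 - z) = ((τ 0).re - z.re) * ((τ 1).im - z.im) -
    ((τ 0).im - z.im) * ((τ 1).re - z.re) := rfl
  constructor
  · rw [Fin.sum_univ_three, h0, h1, h2, ← add_div, ← add_div, div_eq_one_iff_eq hd, e0, e1, e2, hd']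
    ring
  · rw [Fin.sum_univ_three]
    apply Complex.ext
    · simp only [Complex.add_re, Complex.re_ofReal_mul]
      rw [h0, h1, h2]
      have : crs (τ 1 - z) (τ 2 - z) / dtm τ * (τ 0).re + crs (τ 2 - z) (τ 0 - z) / dtm τ * (τ 1).re
          + crs (τ 0 - z) (τ 1 - z) / dtm τ * (τ 2).re =
          (crs (τ 1 - z) (τ 2 - z) * (τ 0).re + crs (τ 2 - z) (τ 0 - z) * (τ 1).re
          + crs (τ 0 - z) (τ 1 - z) * (τ 2).re) / dtm τ := by ring
      rw [this, div_eq_iff hd, e0, e1, e2, hd']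
      ring
    · simp only [Complex.add_im, Complex.im_ofReal_mul]
      rw [h0, h1, h2]
      have : crs (τ 1 - z) (τ 2 - z) / dtm τ * (τ 0).im + crs (τ 2 - z) (τ 0 - z) / dtm τ * (τ 1).im
          + crs (τ 0 - z) (τ 1 - z) / dtm τ * (τ 2).im =
          (crs (τ 1 - z) (τ 2 - z) * (τ 0).im + crs (τ 2 - z) (τ 0 - z) * (τ 1).im
          + crs (τ 0 - z) (τ 1 - z) * (τ 2).im) / dtm τ := by ring
      rw [this, div_eq_iff hd, e0, e1, e2, hd']
      ring

end Pool.Ipm
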