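import Pool.Agent.Work.MP_8cbffb_h28.Interface2

set_option autoImplicit false

namespace Pool.Ipm

open MeasureTheory Finset ComplexConjugate

theorem BIJ_inv (v : Option ℂ) : invO (invO v) = v := by
  cases v with
  | none => simp [invO]
  | some z =>
    by_cases hz : z = 0
    · subst hz
      simp [invO]
    · have hn : (‖z‖ ^ 2 : ℝ) ≠ 0 := pow_ne_zero 2 (norm_ne_zero_iff.2 hz)
      have hnc : ((‖z‖ ^ 2 : ℝ) : ℂ) ≠ 0 := Complex.ofReal_ne_zero.2 hn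
      have h1 : z / ((‖z‖ ^ 2 : ℝ) : ℂ) ≠ 0 := div_ne_zero hz hnc
      have e1 : invO (some z) = some (z / ((‖z‖ ^ 2 : ℝ) : ℂ)) := by
        exact if_neg hz
      have e2 : invO (some (z / ((‖z‖ ^ 2 : ℝ) : ℂ))) =
          some (z / ((‖z‖ ^ 2 : ℝ) : ℂ) / ((‖z / ((‖z‖ ^ 2 : ℝ) : ℂ)‖ ^ 2 : ℝ) : ℂ)) := by
        exact if_neg h1
      rw [e1, e2]
      congr 1
      have h2 : ‖z / ((‖z‖ ^ 2 : ℝ) : ℂ)‖ ^ 2 = 1 / ‖z‖ ^ 2 := by
        rw [norm_div, Complex.norm_real, Real.norm_of_nonneg (sq_nonneg ‖z‖), div_pow]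
        field_simp
      rw [h2]
      push_cast
      have h3 : (‖z‖ : ℂ) ≠ 0 := by
        exact_mod_cast norm_ne_zero_iff.2 hz
      field_simp

theorem p_BIJ : S_BIJ := by
  refine ⟨fun u v h => ?_, fun w u v h => ?_⟩
  · rw [← BIJ_inv u, h, BIJ_inv v]
  · cases u <;> cases v <;> simp [traO] at h ⊢
    exact h

end Pool.Ipm
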