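import Pool.Agent.Work.MP_8cbffb_h28.Interface

/-! # DIF: the two interpolations -/

set_option autoImplicit false

namespace Pool.Ipm

open MeasureTheory Finset ComplexConjugate

theorem DIF_b0 (x y w z : ℂ) :
    bc ![x, y, w] z 0 = crs (y - z) (w - z) / crs (y - x) (w - x) := rfl

theorem DIF_b1 (x y w z : ℂ) :
    bc ![x, y, w] z 1 = crs (w - z) (x - z) / crs (y - x) (w - x) := rfl

theorem DIF_b2 (x y w z : ℂ) :
    bc ![x, y, w] z 2 = crs (x - z) (y - z) / crs (y - x) (w - x) := rfl

theorem DIF_G (x y w z : ℂ) : Gg ![x, y, w] z =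
    (bc ![x, y, w] z 0 : ℂ) * x ^ 2 + (bc ![x, y, w] z 1 : ℂ) * y ^ 2 +
      (bc ![x, y, w] z 2 : ℂ) * w ^ 2 - z ^ 2 := by
  unfold Gg
  rw [Fin.sum_univ_three]
  rfl

theorem p_DIF : S_DIF := by
  intro a b c d z h1 h2
  have h1' : crs (b - a) (c - a) ≠ 0 := h1
  have h2' : crs (b - a) (d - a) ≠ 0 := h2
  have l0 : bc ![a, b, c] z 0 =
      bc ![a, b, d] z 0 + bc ![a, b, d] z 2 * bc ![a, b, c] d 0 := by
    rw [DIF_b0, DIF_b0, DIF_b2, DIF_b0]
    have k : crs (b - z) (c - z) * crs (b - a) (d - a) =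
        crs (b - z) (d - z) * crs (b - a) (c - a) +
          crs (a - z) (b - z) * crs (b - d) (c - d) := by
      simp only [crs, Complex.sub_re, Complex.sub_im]
      ring
    generalize crs (b - a) (c - a) = p at *
    generalize crs (b - a) (d - a) = q at *
    field_simp
    linarith
  have l1 : bc ![a, b, c] z 1 =
      bc ![a, b, d] z 1 + bc ![a, b, d] z 2 * bc ![a, b, c] d 1 := by
    rw [DIF_b1, DIF_b1, DIF_b2, DIF_b1]
    have k : crs (c - z) (a - z) * crs (b - a) (d - a) =
        crs (d - z) (a - z) * crs (b - a) (c - a) +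
          crs (a - z) (b - z) * crs (c - d) (a - d) := by
      simp only [crs, Complex.sub_re, Complex.sub_im]
      ring
    generalize crs (b - a) (c - a) = p at *
    generalize crs (b - a) (d - a) = q at *
    field_simp
    linarith
  have l2 : bc ![a, b, c] z 2 = bc ![a, b, d] z 2 * bc ![a, b, c] d 2 := by
    rw [DIF_b2, DIF_b2, DIF_b2]
    have k : crs (a - d) (b - d) = crs (b - a) (d - a) := by
      simp only [crs, Complex.sub_re, Complex.sub_im]
      ring
    rw [k]
    field_simp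
  rw [DIF_G, DIF_G, DIF_G, l0, l1, l2]
  push_cast
  ring

end Pool.Ipm
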