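import Pool.Agent.Work.MP_8cbffb_h28.Interface

/-! Block FIB -/

set_option autoImplicit false

namespace Pool.Ipm

open MeasureTheory Set

theorem p_FIB : S_FIB := by
  intro D hD
  have hc : 0 < Real.sqrt D := Real.sqrt_pos.2 hD
  have hset : {t : ℝ | 0 < t ∧ D ≤ t ^ 2} = Ici (Real.sqrt D) := by
    ext t
    constructor
    · rintro ⟨h1, h2⟩
      exact Real.sqrt_le_iff.2 ⟨h1.le, h2⟩
    · intro h
      have h1 : Real.sqrt D ≤ t := h
      refine ⟨lt_of_lt_of_le hc h1, ?_⟩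
      calc D = Real.sqrt D ^ 2 := (Real.sq_sqrt hD.le).symm
        _ ≤ t ^ 2 := pow_le_pow_left₀ hc.le h1 2
  have h3 : (-3 : ℝ) < -1 := by norm_num
  have hint := integrableOn_Ioi_rpow_of_lt h3 hc
  have hval := integral_Ioi_rpow_of_lt h3 hc
  have heq : ∀ t ∈ Ioi (Real.sqrt D), ENNReal.ofReal (1 / t ^ 3) = ENNReal.ofReal (t ^ (-3 : ℝ)) := by
    intro t ht
    have ht0 : 0 < t := lt_trans hc ht
    congr 1
    rw [Real.rpow_neg ht0.le, one_div]
    norm_cast
  rw [hset, setLIntegral_congr Ioi_ae_eq_Ici.symm, setLIntegral_congr_fun measurableSet_Ioi heq,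
    ← ofReal_integral_eq_lintegral_ofReal hint, hval]
  · congr 1
    have h4 : (-3 : ℝ) + 1 = -2 := by norm_num
    have h5 : Real.sqrt D ^ (-2 : ℝ) = 1 / D := by
      rw [Real.rpow_neg hc.le, one_div]
      congr 1
      have : Real.sqrt D ^ (2 : ℝ) = Real.sqrt D ^ 2 := by norm_cast
      rw [this, Real.sq_sqrt hD.le]
    rw [h4, h5]
    field_simp
  · refine (ae_restrict_iff' measurableSet_Ioi).2 (Filter.Eventually.of_forall fun t ht => ?_)
    exact Real.rpow_nonneg (lt_trans hc ht).le _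

end Pool.Ipm
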