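import Pool.Agent.Work.MP_8cbffb_h28.Interface

/-!
# The first variation and the theorem (assembly)
-/

set_option autoImplicit false

namespace Pool.Ipm

open MeasureTheory Finset ComplexConjugate

/-- the first variation vanishes for every choice -/
theorem FIN_var (hPOS : S_POS) (hMEA : S_MEA) (hLOW : S_LOW) (hUPP : S_UPP) (hFIV : S_FIV)
    (hLIM : S_LIM) (hIMG : S_IMG) (Z : Finset ℂ) (hnc : ¬ Collinear ℝ (Z : Set ℂ))
    (hmax : ∀ Z' : Finset ℂ, Z'.card = Z.card → ¬ Collinear ℝ (Z' : Set ℂ) → vol Z' ≤ vol Z)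
    (s : ℂ → Fin 3 → ℂ) (hs : Cho Z s) (β : ℂ) (hβ : ‖β‖ = 1) :
    IntegrableOn (fun z => (conj β * Gg (s z) z).re / Dd (s z) z ^ 2) (Reg Z) ∧
    ∫ z in Reg Z, (conj β * Gg (s z) z).re / Dd (s z) z ^ 2 = 0 := by
  obtain ⟨hReg, _, hm⟩ := hMEA Z
  obtain ⟨hD, hG⟩ := hm s hs
  refine hLIM (Reg Z) (fun z => Dd (s z) z) (fun z => (conj β * Gg (s z) z).re) hReg hD ?_ ?_
    (hFIV Z s hs) ?_
  · exact Complex.measurable_re.comp (measurable_const.mul hG)
  · intro z hz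
    obtain ⟨h1, h2⟩ := hs.2.2 z hz
    obtain ⟨h3, h4⟩ := hPOS (s z) z h1.1 h2
    refine ⟨h3, (Complex.abs_re_le_norm _).trans ?_⟩
    rw [norm_mul, Complex.norm_conj, hβ, one_mul]
    exact h4
  · intro t ht
    exact (hLOW Z s β t hs hβ ht).trans ((hmax _ (hIMG Z β t hβ ht).1
      ((hIMG Z β t hβ ht).2 hnc)).trans (hUPP Z s hs))

theorem FIN_inj {a b c : ℂ} (h1 : a ≠ b) (h2 : b ≠ c) (h3 : a ≠ c) :
    Function.Injective ![a, b, c] := by
  intro i j h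
  fin_cases i <;> fin_cases j <;> simp_all

theorem FIN_dtm (a b c : ℂ) : dtm ![a, b, c] = crs (b - a) (c - a) := by
  simp [dtm]

theorem p_FIN (hPOS : S_POS) (hCIR : S_CIR) (hCHO : S_CHO) (hMOD : S_MOD) (hMEA : S_MEA)
    (hLOW : S_LOW) (hUPP : S_UPP) (hFIV : S_FIV) (hLIM : S_LIM) (hIMG : S_IMG) (hNCO : S_NCO)
    (hKAP : S_KAP) (hDIF : S_DIF) (hSEP : S_SEP) (hOPN : S_OPN) (hSUB : S_SUB) : S_FIN := by
  intro Z hnc hmax c R hcR
  by_contra hcard
  push Not at hcard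
  obtain ⟨T, hT, hT4⟩ := Finset.exists_subset_card_eq (show 4 ≤ _ from hcard)
  let e := T.equivFinOfCardEq hT4
  let v : Fin 4 → ℂ := fun i => (e.symm i : ℂ)
  have hvinj : Function.Injective v := fun i j h => e.symm.injective (Subtype.ext h)
  have hvm : ∀ i, v i ∈ Z ∧ ‖v i - c‖ = R := fun i => by
    have := hT (e.symm i).2
    rw [Finset.mem_filter] at this
    exact this
  have hcr : ∀ i j k, i ≠ j → j ≠ k → i ≠ k → crs (v j - v i) (v k - v i) ≠ 0 := by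
    intro i j k hij hjk hik
    rw [← FIN_dtm]
    apply hNCO _ c R (FIN_inj (hvinj.ne hij) (hvinj.ne hjk) (hvinj.ne hik))
    intro l
    fin_cases l <;> simp [(hvm _).2]
  obtain ⟨σ, hσ⟩ := hSEP v hcr
  set a := v (σ 0) with ha
  set b := v (σ 1) with hb
  set p := v (σ 2) with hp
  set q := v (σ 3) with hq
  have hne : ∀ i j : Fin 4, i ≠ j → v (σ i) ≠ v (σ j) := fun i j hij =>
    hvinj.ne (σ.injective.ne hij)
  have hab : a ≠ b := hne 0 1 (by decide)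
  have hap : a ≠ p := hne 0 2 (by decide)
  have haq : a ≠ q := hne 0 3 (by decide)
  have hbp : b ≠ p := hne 1 2 (by decide)
  have hbq : b ≠ q := hne 1 3 (by decide)
  have hpq : p ≠ q := hne 2 3 (by decide)
  have hR0 : 0 ≤ R := by rw [← (hvm (σ 0)).2]; exact norm_nonneg _
  have ha' := hvm (σ 0)
  have hb' := hvm (σ 1)
  have hp' := hvm (σ 2)
  have hq' := hvm (σ 3)
  rw [← ha] at ha'
  rw [← hb] at hb'
  rw [← hp] at hp'
  rw [← hq] at hq'
  have hc1 : ∀ i, ‖(![a, b, p] : Fin 3 → ℂ) i - c‖ = R := by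
    intro i
    fin_cases i
    · exact ha'.2
    · exact hb'.2
    · exact hp'.2
  have hc2 : ∀ i, ‖(![a, b, q] : Fin 3 → ℂ) i - c‖ = R := by
    intro i
    fin_cases i
    · exact ha'.2
    · exact hb'.2
    · exact hq'.2
  have hi1 := FIN_inj hab hbp hap
  have hi2 := FIN_inj hab hbq haq
  have hd1 := hNCO _ c R hi1 hc1
  have hd2 := hNCO _ c R hi2 hc2
  have hDl1 : Dl Z ![a, b, p] := by
    refine ⟨hd1, ?_, c, R, hR0, hc1, hcR⟩
    intro i
    fin_cases i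
    · exact ha'.1
    · exact hb'.1
    · exact hp'.1
  have hDl2 : Dl Z ![a, b, q] := by
    refine ⟨hd2, ?_, c, R, hR0, hc2, hcR⟩
    intro i
    fin_cases i
    · exact ha'.1
    · exact hb'.1
    · exact hq'.1
  have hκ : Gg ![a, b, p] q ≠ 0 := by
    apply hKAP _ c q R hi1 hc1 hq'.2
    intro i
    fin_cases i
    · exact haq
    · exact hbq
    · exact hpq
  set κ := Gg ![a, b, p] q with hκd
  have hκn : 0 < ‖κ‖ := norm_pos_iff.2 hκ
  set β : ℂ := κ / (‖κ‖ : ℂ) with hβd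
  have hβ : ‖β‖ = 1 := by
    rw [hβd, norm_div, Complex.norm_real, norm_norm, div_self hκn.ne']
  have hβκ : conj β * κ = (‖κ‖ : ℂ) := by
    rw [hβd, map_div₀, Complex.conj_ofReal, div_mul_eq_mul_div, Complex.conj_mul']
    have : (‖κ‖ : ℂ) ≠ 0 := by exact_mod_cast hκn.ne'
    field_simp
  obtain ⟨⟨z₀, hz₀⟩, hopen⟩ := hOPN a b p q hσ
  set O := Tri ![a, b, p] ∩ Tri ![a, b, q] with hO
  obtain ⟨s, hs⟩ := hCHO Z
  obtain ⟨s1, hs1, h1O, h1n⟩ := hMOD Z s _ O hs hDl1 hopen.measurableSet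
    Set.inter_subset_left
  obtain ⟨s2, hs2, h2O, h2n⟩ := hMOD Z s _ O hs hDl2 hopen.measurableSet
    Set.inter_subset_right
  obtain ⟨hI1, hJ1⟩ := FIN_var hPOS hMEA hLOW hUPP hFIV hLIM hIMG Z hnc hmax s1 hs1 β hβ
  obtain ⟨hI2, hJ2⟩ := FIN_var hPOS hMEA hLOW hUPP hFIV hLIM hIMG Z hnc hmax s2 hs2 β hβ
  obtain ⟨hReg, hnull, _⟩ := hMEA Z
  set F : ℂ → ℝ := fun z => (conj β * Gg (s1 z) z).re / Dd (s1 z) z ^ 2 -
    (conj β * Gg (s2 z) z).re / Dd (s2 z) z ^ 2 with hF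
  have hFint : IntegrableOn F (Reg Z) := hI1.sub hI2
  have hF0 : ∫ z in Reg Z, F z = 0 := by
    rw [hF, integral_sub hI1 hI2, hJ1, hJ2, sub_zero]
  have hFO : ∀ z ∈ O, 0 < F z := by
    intro z hz
    have e1 : Dd ![a, b, p] z = R ^ 2 - ‖z - c‖ ^ 2 := hCIR _ c z R hd1 hc1
    have e2 : Dd ![a, b, q] z = R ^ 2 - ‖z - c‖ ^ 2 := hCIR _ c z R hd2 hc2
    have hpos := (hPOS _ z hd1 hz.1).1
    have hdif := hDIF a b p q z hd1 hd2
    have hz2 : 0 < bc ![a, b, q] z 2 := hz.2 2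
    have hval : F z = ‖κ‖ * bc ![a, b, q] z 2 / Dd ![a, b, p] z ^ 2 := by
      rw [hF]
      simp only
      rw [h1O z hz, h2O z hz, e2, ← e1, ← sub_div, ← Complex.sub_re, ← mul_sub, hdif, ← hκd]
      congr 1
      rw [show conj β * ((bc ![a, b, q] z 2 : ℂ) * κ) = (bc ![a, b, q] z 2 : ℂ) * (conj β * κ) by
        ring, hβκ, ← Complex.ofReal_mul, Complex.ofReal_re, mul_comm]
    rw [hval]
    positivity
  have hFn : ∀ z ∉ O, F z = 0 := by
    intro z hz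
    rw [hF]
    simp only
    rw [h1n z hz, h2n z hz, sub_self]
  have hFnonneg : 0 ≤ᵐ[volume.restrict (Reg Z)] F := by
    refine Filter.Eventually.of_forall fun z => ?_
    by_cases hz : z ∈ O
    · exact (hFO z hz).le
    · exact (hFn z hz).ge
  have hae := (setIntegral_eq_zero_iff_of_nonneg_ae hFnonneg hFint).1 hF0
  have hae' : ∀ᵐ z ∂(volume : Measure ℂ), z ∈ Reg Z → F z = 0 := by
    have := (ae_restrict_iff' hReg).1 hae
    filter_upwards [this] with z hz h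
    exact hz h
  have hsub : O ⊆ {z | ¬ (z ∈ Reg Z → F z = 0)} ∪ (convexHull ℝ (Z : Set ℂ) \ Reg Z) := by
    intro z hz
    by_cases hzR : z ∈ Reg Z
    · left
      intro h
      exact absurd (h hzR) (hFO z hz).ne'
    · right
      exact ⟨hSUB Z _ hDl1 hz.1, hzR⟩
  have hO0 : volume O = 0 := by
    refine measure_mono_null hsub ?_
    rw [measure_union_null_iff]
    exact ⟨hae', hnull⟩
  exact absurd hO0 (hopen.measure_pos volume ⟨z₀, hz₀⟩).ne'

end Pool.Ipm
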