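import Pool.Agent.Work.MP_8cbffb_h28.Interface

/-!
# Block FTR (second copy)
-/

set_option autoImplicit false

namespace Pool.Ipm

open MeasureTheory Finset ComplexConjugate

namespace FTRX

theorem crs_self_left (a : ℂ) : crs a a = 0 := by
  unfold crs
  ring

theorem key {x y w q L a b c D n : ℝ} (hx : 0 < x) (hy : 0 < y) (hw : 0 < w) (hs : x + y + w = 1)
    (hq : 0 < q) (ha : q ≤ a ^ 2) (hb : q ≤ b ^ 2) (hc : q ≤ c ^ 2)
    (hD : D = x * y * a ^ 2 + y * w * b ^ 2 + x * w * c ^ 2) (hL : 0 < L) (hxy : y ≤ x) (hxw : w ≤ x)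
    (hn : 0 < n) (hnL : n ≤ (y + w) * L) : 1 / D ≤ 3 * L / q * (1 / n) := by
  have h1 : q * (x * (y + w)) ≤ D := by
    rw [hD]
    have e1 : x * y * q ≤ x * y * a ^ 2 := mul_le_mul_of_nonneg_left ha (mul_pos hx hy).le
    have e2 : x * w * q ≤ x * w * c ^ 2 := mul_le_mul_of_nonneg_left hc (mul_pos hx hw).le
    have e3 : 0 ≤ y * w * b ^ 2 := by positivity
    nlinarith
  have h2 : (1:ℝ) / 3 ≤ x := by linarith
  have h3 : q * ((y + w) / 3) ≤ D := by
    refine le_trans (mul_le_mul_of_nonneg_left ?_ hq.le) h1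
    nlinarith
  have hDpos : 0 < D := lt_of_lt_of_le (by positivity) h3
  rw [div_mul_div_comm, mul_one, div_le_div_iff₀ hDpos (by positivity), one_mul]
  nlinarith [mul_le_mul_of_nonneg_left hnL hq.le]

end FTRX

theorem p_FTRx (hBAR : S_BAR) (hDDG : S_DDG) (hFNR : S_FNR) : S_FTR := by
  intro τ hτ
  have h01 : τ 0 ≠ τ 1 := fun h => hτ (by unfold dtm crs; rw [h]; simp)
  have h02 : τ 0 ≠ τ 2 := fun h => hτ (by unfold dtm crs; rw [h]; simp)
  have h12 : τ 1 ≠ τ 2 := fun h => hτ (by unfold dtm; rw [h]; exact FTRX.crs_self_left _)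
  set a := ‖τ 0 - τ 1‖ with ha
  set b := ‖τ 1 - τ 2‖ with hb
  set c := ‖τ 0 - τ 2‖ with hc
  have hap : 0 < a := norm_pos_iff.2 (sub_ne_zero.2 h01)
  have hbp : 0 < b := norm_pos_iff.2 (sub_ne_zero.2 h12)
  have hcp : 0 < c := norm_pos_iff.2 (sub_ne_zero.2 h02)
  set q := min (a ^ 2) (min (b ^ 2) (c ^ 2)) with hq
  have hqp : 0 < q := lt_min (by positivity) (lt_min (by positivity) (by positivity))
  have hqa : q ≤ a ^ 2 := min_le_left _ _
  have hqb : q ≤ b ^ 2 := (min_le_right _ _).trans (min_le_left _ _)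
  have hqc : q ≤ c ^ 2 := (min_le_right _ _).trans (min_le_right _ _)
  set L := a + b + c with hL
  have hLp : 0 < L := by positivity
  set K := 3 * L / q with hK
  have hKp : 0 < K := by positivity
  have hpt : ∀ z ∈ Tri τ, (1 / Dd τ z ≤ ∑ i, K * (1 / ‖z - τ i‖)) ∧ ∀ i, ‖z - τ i‖ < L + 1 := by
    intro z hz
    obtain ⟨hsum, hbar⟩ := hBAR τ z hτ
    obtain ⟨hD, -⟩ := hDDG τ z hτ
    have hx : 0 < bc τ z 0 := hz 0
    have hy : 0 < bc τ z 1 := hz 1
    have hw : 0 < bc τ z 2 := hz 2
    have hz0 : z ≠ τ 0 := by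
      intro h
      have : bc τ z 1 = 0 := by simp [bc, crs, h]
      exact hy.ne' this
    have hz1 : z ≠ τ 1 := by
      intro h
      have : bc τ z 0 = 0 := by simp [bc, crs, h]
      exact hx.ne' this
    have hz2 : z ≠ τ 2 := by
      intro h
      have : bc τ z 0 = 0 := by simp [bc, crs, h]
      exact hx.ne' this
    rw [Fin.sum_univ_three] at hsum hbar
    set x := bc τ z 0 with hxd
    set y := bc τ z 1 with hyd
    set w := bc τ z 2 with hwd
    have hsC : (x : ℂ) + y + w = 1 := by exact_mod_cast congrArg (fun r : ℝ => (r : ℂ)) hsum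
    have hn0 : ‖z - τ 0‖ ≤ (y + w) * L := by
      have e : z - τ 0 = (y : ℂ) * (τ 1 - τ 0) + (w : ℂ) * (τ 2 - τ 0) := by
        linear_combination (-1 : ℂ) * hbar + τ 0 * hsC
      rw [e]
      refine (norm_add_le _ _).trans ?_
      rw [norm_mul, norm_mul, Complex.norm_real, Complex.norm_real, Real.norm_of_nonneg hy.le,
        Real.norm_of_nonneg hw.le, norm_sub_rev (τ 1), norm_sub_rev (τ 2)]
      have e1 : y * a ≤ y * L := mul_le_mul_of_nonneg_left (by linarith) hy.le
      have e2 : w * c ≤ w * L := mul_le_mul_of_nonneg_left (by linarith) hw.le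
      linarith
    have hn1 : ‖z - τ 1‖ ≤ (x + w) * L := by
      have e : z - τ 1 = (x : ℂ) * (τ 0 - τ 1) + (w : ℂ) * (τ 2 - τ 1) := by
        linear_combination (-1 : ℂ) * hbar + τ 1 * hsC
      rw [e]
      refine (norm_add_le _ _).trans ?_
      rw [norm_mul, norm_mul, Complex.norm_real, Complex.norm_real, Real.norm_of_nonneg hx.le,
        Real.norm_of_nonneg hw.le, norm_sub_rev (τ 2)]
      have e1 : x * a ≤ x * L := mul_le_mul_of_nonneg_left (by linarith) hx.le
      have e2 : w * b ≤ w * L := mul_le_mul_of_nonneg_left (by linarith) hw.le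
      linarith
    have hn2 : ‖z - τ 2‖ ≤ (x + y) * L := by
      have e : z - τ 2 = (x : ℂ) * (τ 0 - τ 2) + (y : ℂ) * (τ 1 - τ 2) := by
        linear_combination (-1 : ℂ) * hbar + τ 2 * hsC
      rw [e]
      refine (norm_add_le _ _).trans ?_
      rw [norm_mul, norm_mul, Complex.norm_real, Complex.norm_real, Real.norm_of_nonneg hx.le,
        Real.norm_of_nonneg hy.le]
      have e1 : x * c ≤ x * L := mul_le_mul_of_nonneg_left (by linarith) hx.le
      have e2 : y * b ≤ y * L := mul_le_mul_of_nonneg_left (by linarith) hy.le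
      linarith
    have hm0 : 0 < ‖z - τ 0‖ := norm_pos_iff.2 (sub_ne_zero.2 hz0)
    have hm1 : 0 < ‖z - τ 1‖ := norm_pos_iff.2 (sub_ne_zero.2 hz1)
    have hm2 : 0 < ‖z - τ 2‖ := norm_pos_iff.2 (sub_ne_zero.2 hz2)
    refine ⟨?_, fun i => ?_⟩
    · rw [Fin.sum_univ_three]
      have p0 : 0 ≤ K * (1 / ‖z - τ 0‖) := by positivity
      have p1 : 0 ≤ K * (1 / ‖z - τ 1‖) := by positivity
      have p2 : 0 ≤ K * (1 / ‖z - τ 2‖) := by positivity
      by_cases h1 : y ≤ x
      · by_cases h2 : w ≤ x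
        · have := FTRX.key hx hy hw hsum hqp hqa hqb hqc hD hLp h1 h2 hm0 hn0
          linarith
        · have h3 : x ≤ w := (not_le.1 h2).le
          have := FTRX.key (x := w) (y := x) (w := y) (a := c) (b := a) (c := b) (D := Dd τ z)
            (n := ‖z - τ 2‖) hw hx hy (by linarith) hqp hqc hqa hqb (by rw [hD]; ring) hLp h3
            (h1.trans h3) hm2 hn2
          linarith
      · have h3 : x ≤ y := (not_le.1 h1).le
        by_cases h2 : w ≤ y
        · have := FTRX.key (x := y) (y := x) (w := w) (a := a) (b := c) (c := b) (D := Dd τ z)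
            (n := ‖z - τ 1‖) hy hx hw (by linarith) hqp hqa hqc hqb (by rw [hD]; ring) hLp h3 h2
            hm1 hn1
          linarith
        · have h4 : y ≤ w := (not_le.1 h2).le
          have := FTRX.key (x := w) (y := x) (w := y) (a := c) (b := a) (c := b) (D := Dd τ z)
            (n := ‖z - τ 2‖) hw hx hy (by linarith) hqp hqc hqa hqb (by rw [hD]; ring) hLp
            (h3.trans h4) h4 hm2 hn2
          linarith
    · have q0 : (y + w) * L ≤ L := by nlinarith
      have q1 : (x + w) * L ≤ L := by nlinarith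
      have q2 : (x + y) * L ≤ L := by nlinarith
      fin_cases i
      · show ‖z - τ 0‖ < L + 1
        linarith
      · show ‖z - τ 1‖ < L + 1
        linarith
      · show ‖z - τ 2‖ < L + 1
        linarith
  have hmeas : ∀ i, Measurable fun z : ℂ => ENNReal.ofReal (1 / ‖z - τ i‖) := fun i => by fun_prop
  calc ∫⁻ z in Tri τ, ENNReal.ofReal (1 / Dd τ z)
      ≤ ∫⁻ z in Tri τ, ∑ i, ENNReal.ofReal K * ENNReal.ofReal (1 / ‖z - τ i‖) := by
        refine setLIntegral_mono (Finset.measurable_sum _ fun i _ => (hmeas i).const_mul _)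
          fun z hz => ?_
        refine (ENNReal.ofReal_le_ofReal (hpt z hz).1).trans ?_
        rw [ENNReal.ofReal_sum_of_nonneg fun i _ => by positivity]
        refine Finset.sum_le_sum fun i _ => ?_
        rw [ENNReal.ofReal_mul hKp.le]
    _ = ∑ i, ENNReal.ofReal K * ∫⁻ z in Tri τ, ENNReal.ofReal (1 / ‖z - τ i‖) := by
        rw [lintegral_finset_sum _ fun i _ => (hmeas i).const_mul _]
        exact Finset.sum_congr rfl fun i _ => lintegral_const_mul _ (hmeas i)
    _ < ⊤ := by
        refine ENNReal.sum_lt_top.2 fun i _ => ENNReal.mul_lt_top ENNReal.ofReal_lt_top ?_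
        refine lt_of_le_of_lt (lintegral_mono_set fun z hz => ?_) (hFNR (τ i) (L + 1))
        rw [Metric.mem_ball, dist_eq_norm]
        exact (hpt z hz).2 i

end Pool.Ipm
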