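import Pool.Agent.Work.MP_8cbffb_h28.Interface

/-!
# Block LIM (second copy): the first variation vanishes
-/

set_option autoImplicit false

namespace Pool.Ipm.LIMx

open MeasureTheory Finset ComplexConjugate

theorem ptw (D g t : ℝ) (hD : 0 < D) (hg : |g| ≤ D) (ht : |t| < 1 / 2) :
    D / 4 ≤ (1 + t ^ 2) * D + 2 * t * g := by
  have h1 : |t * g| ≤ |t| * D := by
    rw [abs_mul]; exact mul_le_mul_of_nonneg_left hg (abs_nonneg t)
  have h2 : -(|t| * D) ≤ t * g := by
    have := neg_abs_le (t * g)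
    linarith
  have h3 : t ^ 2 = |t| ^ 2 := (sq_abs t).symm
  have h4 : 0 ≤ (1 - |t|) ^ 2 - 1 / 4 := by nlinarith [abs_nonneg t]
  have h5 : 0 ≤ ((1 - |t|) ^ 2 - 1 / 4) * D := mul_nonneg h4 hD.le
  nlinarith

theorem low (D g t : ℝ) (hD : 0 < D) (hg : |g| ≤ D) (ht : |t| < 1 / 2) :
    (1 - t ^ 2) / 2 * (1 / D) - t * (g / D ^ 2) ≤
      1 / (2 * ((1 + t ^ 2) * D + 2 * t * g)) := by
  have h := ptw D g t hD hg ht
  have hE : 0 < (1 + t ^ 2) * D + 2 * t * g := by linarith
  rw [le_div_iff₀ (by positivity)]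
  have h1 : ((1 - t ^ 2) / 2 * (1 / D) - t * (g / D ^ 2)) *
      (2 * ((1 + t ^ 2) * D + 2 * t * g)) = 1 - ((t ^ 2 * D + 2 * t * g) / D) ^ 2 := by
    field_simp
    ring
  rw [h1]
  nlinarith [sq_nonneg ((t ^ 2 * D + 2 * t * g) / D)]

theorem upp (D g t : ℝ) (hD : 0 < D) (hg : |g| ≤ D) (ht : |t| < 1 / 2) :
    1 / (2 * ((1 + t ^ 2) * D + 2 * t * g)) ≤ 2 * (1 / D) := by
  have h := ptw D g t hD hg ht
  have hE : 0 < (1 + t ^ 2) * D + 2 * t * g := by linarith
  rw [div_le_iff₀ (by positivity)]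
  have h1 : 2 * (1 / D) * (2 * ((1 + t ^ 2) * D + 2 * t * g)) =
      4 * ((1 + t ^ 2) * D + 2 * t * g) / D := by
    field_simp
    ring
  rw [h1, le_div_iff₀ hD]
  linarith

theorem lin {I K : ℝ} (hI : 0 ≤ I) (h : ∀ t : ℝ, |t| < 1 / 2 →
    (1 - t ^ 2) * ((1 - t ^ 2) / 2 * I - t * K) ≤ I / 2) : K = 0 := by
  have key : ∀ t : ℝ, |t| < 1 / 2 → -(t * K) * (3 / 4) ≤ t ^ 2 * I ∨ 0 ≤ t * K := by
    intro t ht
    by_cases hk : 0 ≤ t * K
    · exact Or.inr hk
    · left
      replace hk := not_le.mp hk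
      have h1 := h t ht
      have h2 : t ^ 2 < 1 / 4 := by
        have : t ^ 2 = |t| ^ 2 := (sq_abs t).symm
        nlinarith [abs_nonneg t]
      have h3 : 0 ≤ t ^ 4 * I := by positivity
      have h4 : -(t * K) * (3 / 4) ≤ -(t * K) * (1 - t ^ 2) := by nlinarith
      nlinarith
  by_contra hne
  rcases lt_or_gt_of_ne hne with hlt | hgt
  · -- K < 0, t > 0 small
    obtain ⟨s, hs, hs1, hs2⟩ : ∃ s : ℝ, 0 < s ∧ s < 1 / 2 ∧ s * I < -K * (3 / 4) := by
      refine ⟨min (1 / 4) (-K / (2 * (I + 1))), ?_, ?_, ?_⟩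
      · apply lt_min (by norm_num)
        apply div_pos (by linarith) (by linarith)
      · exact lt_of_le_of_lt (min_le_left _ _) (by norm_num)
      · have h1 : min (1 / 4) (-K / (2 * (I + 1))) * I ≤ -K / (2 * (I + 1)) * I :=
          mul_le_mul_of_nonneg_right (min_le_right _ _) hI
        have h2 : -K / (2 * (I + 1)) * I ≤ -K / 2 := by
          rw [div_mul_eq_mul_div, div_le_iff₀ (by linarith)]
          nlinarith
        linarith
    rcases key s (by rw [abs_of_pos hs]; exact hs1) with h1 | h1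
    · nlinarith
    · nlinarith
  · obtain ⟨s, hs, hs1, hs2⟩ : ∃ s : ℝ, 0 < s ∧ s < 1 / 2 ∧ s * I < K * (3 / 4) := by
      refine ⟨min (1 / 4) (K / (2 * (I + 1))), ?_, ?_, ?_⟩
      · apply lt_min (by norm_num)
        apply div_pos (by linarith) (by linarith)
      · exact lt_of_le_of_lt (min_le_left _ _) (by norm_num)
      · have h1 : min (1 / 4) (K / (2 * (I + 1))) * I ≤ K / (2 * (I + 1)) * I :=
          mul_le_mul_of_nonneg_right (min_le_right _ _) hI
        have h2 : K / (2 * (I + 1)) * I ≤ K / 2 := by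
          rw [div_mul_eq_mul_div, div_le_iff₀ (by linarith)]
          nlinarith
        linarith
    rcases key (-s) (by rw [abs_neg, abs_of_pos hs]; exact hs1) with h1 | h1
    · nlinarith
    · nlinarith

theorem main : S_LIM := by
  intro S D g hS hD hg hpt hfin h
  have hDi : IntegrableOn (fun z => 1 / D z) S := by
    refine (lintegral_ofReal_ne_top_iff_integrable ?_ ?_).mp hfin.ne
    · exact (measurable_const.div hD).aestronglyMeasurable
    · rw [Filter.EventuallyLE, ae_restrict_iff' hS]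
      exact Filter.Eventually.of_forall fun z hz => by
        have := (hpt z hz).1
        show (0 : ℝ) ≤ 1 / D z
        positivity
  have hKi : IntegrableOn (fun z => g z / D z ^ 2) S := by
    refine Integrable.mono' hDi ?_ ?_
    · exact (hg.div (hD.pow_const 2)).aestronglyMeasurable
    · rw [ae_restrict_iff' hS]
      exact Filter.Eventually.of_forall fun z hz => by
        obtain ⟨h1, h2⟩ := hpt z hz
        rw [Real.norm_eq_abs, abs_div, abs_of_pos (by positivity : 0 < D z ^ 2)]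
        rw [div_le_div_iff₀ (by positivity) h1]
        nlinarith
  refine ⟨hKi, ?_⟩
  have hI0 : 0 ≤ ∫ z in S, 1 / D z := by
    refine setIntegral_nonneg hS fun z hz => ?_
    have := (hpt z hz).1
    positivity
  refine lin hI0 fun t ht => ?_
  have hft : IntegrableOn (fun z => 1 / (2 * ((1 + t ^ 2) * D z + 2 * t * g z))) S := by
    refine Integrable.mono' (hDi.const_mul 2) ?_ ?_
    · exact (measurable_const.div (((hD.const_mul _).add (hg.const_mul _)).const_mul _)).aestronglyMeasurable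
    · rw [ae_restrict_iff' hS]
      exact Filter.Eventually.of_forall fun z hz => by
        obtain ⟨h1, h2⟩ := hpt z hz
        have h3 := ptw (D z) (g z) t h1 h2 ht
        rw [Real.norm_eq_abs, abs_of_nonneg (by
          apply div_nonneg (by norm_num)
          linarith)]
        exact upp (D z) (g z) t h1 h2 ht
  have hnn : 0 ≤ᵐ[volume.restrict S] (fun z => 1 / (2 * ((1 + t ^ 2) * D z + 2 * t * g z))) := by
    rw [Filter.EventuallyLE, ae_restrict_iff' hS]
    exact Filter.Eventually.of_forall fun z hz => by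
      obtain ⟨h1, h2⟩ := hpt z hz
      have h3 := ptw (D z) (g z) t h1 h2 ht
      show (0 : ℝ) ≤ 1 / (2 * ((1 + t ^ 2) * D z + 2 * t * g z))
      apply div_nonneg (by norm_num)
      linarith
  have hD2 : IntegrableOn (fun z => 1 / (2 * D z)) S := by
    have : (fun z => 1 / (2 * D z)) = fun z => 1 / 2 * (1 / D z) := by
      funext z; rw [one_div_mul_one_div]
    rw [this]
    exact hDi.const_mul _
  have hnn2 : 0 ≤ᵐ[volume.restrict S] (fun z => 1 / (2 * D z)) := by
    rw [Filter.EventuallyLE, ae_restrict_iff' hS]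
    exact Filter.Eventually.of_forall fun z hz => by
      have := (hpt z hz).1
      show (0 : ℝ) ≤ 1 / (2 * D z)
      positivity
  have ht2 : t ^ 2 < 1 / 4 := by
    have : t ^ 2 = |t| ^ 2 := (sq_abs t).symm
    nlinarith [abs_nonneg t]
  have h1 := h t ht
  rw [← ofReal_integral_eq_lintegral_ofReal hft hnn,
    ← ofReal_integral_eq_lintegral_ofReal hD2 hnn2,
    ← ENNReal.ofReal_mul (by linarith)] at h1
  have h2 := (ENNReal.ofReal_le_ofReal_iff (integral_nonneg_of_ae hnn2)).mp h1
  have h3 : ∫ z in S, 1 / (2 * D z) = (∫ z in S, 1 / D z) / 2 := by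
    have : (fun z => 1 / (2 * D z)) = fun z => 1 / 2 * (1 / D z) := by
      funext z; rw [one_div_mul_one_div]
    rw [this, integral_const_mul]
    ring
  rw [h3] at h2
  have h4 : (1 - t ^ 2) / 2 * (∫ z in S, 1 / D z) - t * ∫ z in S, g z / D z ^ 2 ≤
      ∫ z in S, 1 / (2 * ((1 + t ^ 2) * D z + 2 * t * g z)) := by
    rw [← integral_const_mul, ← integral_const_mul,
      ← integral_sub (hDi.const_mul _) (hKi.const_mul _)]
    refine setIntegral_mono_on ((hDi.const_mul _).sub (hKi.const_mul _)) hft hS fun z hz => ?_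
    obtain ⟨h1, h2⟩ := hpt z hz
    exact low (D z) (g z) t h1 h2 ht
  refine le_trans (mul_le_mul_of_nonneg_left h4 (by linarith)) h2

end Pool.Ipm.LIMx

namespace Pool.Ipm

theorem p_LIM : S_LIM := LIMx.main

end Pool.Ipm
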