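import Pool.Agent.Work.MP_8cbffb_h28.Interface2

/-!
# The theorem for general ideal polyhedra (assembly)
-/

set_option autoImplicit false

namespace Pool.Ipm

open MeasureTheory Finset ComplexConjugate

theorem FING_inv (v : Option ℂ) : invO (invO v) = v := by
  rcases v with _ | z
  · simp [invO]
  · by_cases hz : z = 0
    · simp [invO, hz]
    · have h1 : ((‖z‖ ^ 2 : ℝ) : ℂ) ≠ 0 := by
        have : ‖z‖ ≠ 0 := norm_ne_zero_iff.2 hz
        exact_mod_cast pow_ne_zero 2 this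
      have h2 : z / ((‖z‖ ^ 2 : ℝ) : ℂ) ≠ 0 := div_ne_zero hz h1
      have e1 : invO (some z) = some (z / ((‖z‖ ^ 2 : ℝ) : ℂ)) := by
        simp only [invO, if_neg hz]
      have e2 : invO (some (z / ((‖z‖ ^ 2 : ℝ) : ℂ))) = some (z / ((‖z‖ ^ 2 : ℝ) : ℂ) /
          ((‖z / ((‖z‖ ^ 2 : ℝ) : ℂ)‖ ^ 2 : ℝ) : ℂ)) := by
        simp only [invO, if_neg h2]
      rw [e1, e2]
      congr 1
      have h3 : ‖z / ((‖z‖ ^ 2 : ℝ) : ℂ)‖ = 1 / ‖z‖ := by
        rw [norm_div, Complex.norm_real, Real.norm_eq_abs, abs_of_nonneg (by positivity)]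
        have : ‖z‖ ≠ 0 := norm_ne_zero_iff.2 hz
        field_simp
      rw [h3]
      have h4 : (‖z‖ : ℂ) ≠ 0 := by exact_mod_cast norm_ne_zero_iff.2 hz
      push_cast
      field_simp

theorem FING_tra (w : ℂ) (v : Option ℂ) : traO w (traO (-w) v) = v := by
  rcases v with _ | z
  · simp [traO]
  · simp [traO]

structure Good (g : Option ℂ → Option ℂ) : Prop where
  inj : Function.Injective g
  sur : Function.Surjective g
  vol : ∀ V : Finset (Option ℂ), volG (V.image g) = volG V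
  fwd : ∀ (a : ℝ) (b : ℂ) (c : ℝ), ∃ (a' : ℝ) (b' : ℂ) (c' : ℝ), Sg g a b c a' b' c'
  bwd : ∀ (a' : ℝ) (b' : ℂ) (c' : ℝ), ∃ (a : ℝ) (b : ℂ) (c : ℝ), Sg g a b c a' b' c'

theorem Good.comp {g h : Option ℂ → Option ℂ} (hg : Good g) (hh : Good h) : Good (h ∘ g) where
  inj := hh.inj.comp hg.inj
  sur := hh.sur.comp hg.sur
  vol := fun V => by rw [← Finset.image_image, hh.vol, hg.vol]
  fwd := fun a b c => by
    obtain ⟨a', b', c', h1⟩ := hg.fwd a b c
    obtain ⟨a'', b'', c'', h2⟩ := hh.fwd a' b' c'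
    exact ⟨a'', b'', c'', fun v => ⟨(h1 v).1.trans (h2 (g v)).1, (h1 v).2.trans (h2 (g v)).2⟩⟩
  bwd := fun a'' b'' c'' => by
    obtain ⟨a', b', c', h2⟩ := hh.bwd a'' b'' c''
    obtain ⟨a, b, c, h1⟩ := hg.bwd a' b' c'
    exact ⟨a, b, c, fun v => ⟨(h1 v).1.trans (h2 (g v)).1, (h1 v).2.trans (h2 (g v)).2⟩⟩

theorem Good.id : Good (fun v : Option ℂ => v) where
  inj := fun _ _ h => h
  sur := fun v => ⟨v, rfl⟩
  vol := fun V => by rw [Finset.image_id']
  fwd := fun a b c => ⟨a, b, c, fun _ => ⟨Iff.rfl, Iff.rfl⟩⟩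
  bwd := fun a b c => ⟨a, b, c, fun _ => ⟨Iff.rfl, Iff.rfl⟩⟩

theorem good_inv (hGM : S_GM) (hIVH : S_IVH) (hIVV : S_IVV) (hSGI : S_SGI) : Good invO where
  inj := (show Function.Involutive invO from FING_inv).injective
  sur := (show Function.Involutive invO from FING_inv).surjective
  vol := fun V => by
    have e : hullG (V.image invO) = inv3 ⁻¹' hullG V ∩ {p | 0 < p.2} := by
      ext p
      constructor
      · intro hp
        exact ⟨(hIVH V p hp.1).1 hp, hp.1⟩
      · rintro ⟨h1, h2⟩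
        exact (hIVH V p h2).2 h1
    unfold volG
    rw [e]
    exact hIVV (hullG V) (hGM V) (fun p hp => hp.1)
  fwd := fun a b c => ⟨c, b, a, hSGI a b c⟩
  bwd := fun a b c => ⟨c, b, a, hSGI c b a⟩

theorem good_tra (hTRV : S_TRV) (hSGT : S_SGT) (w : ℂ) : Good (traO w) where
  inj := Function.LeftInverse.injective (g := traO (-w)) (fun v => by
    have := FING_tra (-w) v
    rwa [neg_neg] at this)
  sur := fun v => ⟨traO (-w) v, FING_tra w v⟩
  vol := fun V => hTRV V w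
  fwd := (hSGT w).1
  bwd := (hSGT w).2

theorem FING_mov (hGM : S_GM) (hIVH : S_IVH) (hIVV : S_IVV) (hTRV : S_TRV) (hSGI : S_SGI)
    (hSGT : S_SGT) (v0 : Option ℂ) : ∃ g, Good g ∧ g v0 = none := by
  rcases v0 with _ | w
  · exact ⟨_, Good.id, rfl⟩
  · refine ⟨invO ∘ traO (-w), (good_tra hTRV hSGT (-w)).comp (good_inv hGM hIVH hIVV hSGI), ?_⟩
    simp [traO, invO]

theorem Good.nc {g : Option ℂ → Option ℂ} (hg : Good g) {V : Finset (Option ℂ)} (hV : NC V) :
    NC (V.image g) := by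
  intro a' b' c' h
  obtain ⟨a, b, c, hs⟩ := hg.bwd a' b' c'
  obtain ⟨rfl, rfl, rfl⟩ := hV a b c (fun v hv =>
    (hs v).2.2 (h (g v) (Finset.mem_image_of_mem g hv)))
  have hall : ∀ u, lev a' b' c' u = 0 := by
    intro u
    obtain ⟨v, rfl⟩ := hg.sur u
    apply (hs v).2.1
    rcases v with _ | z <;> simp [lev]
  have h1 : a' = 0 := hall none
  have h2 : c' = 0 := by
    have := hall (some 0)
    simpa [lev] using this
  have h3 : b'.re = 0 := by
    have := hall (some 1)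
    simpa [lev, h1, h2] using this
  have h4 : b'.im = 0 := by
    have := hall (some Complex.I)
    simpa [lev, h1, h2] using this
  exact ⟨h1, Complex.ext h3 h4, h2⟩

/-- completing the square -/
theorem FING_sq (a : ℝ) (b z z1 : ℂ) (c : ℝ) (ha : a ≠ 0) (h1 : lev a b c (some z1) = 0) :
    lev a b c (some z) = a * (‖z - b / ((-2 * a : ℝ) : ℂ)‖ ^ 2 -
      ‖z1 - b / ((-2 * a : ℝ) : ℂ)‖ ^ 2) := by
  have hn : ∀ w : ℂ, ‖w‖ ^ 2 = w.re * w.re + w.im * w.im := fun w => by
    rw [Complex.sq_norm, Complex.normSq_apply]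
  have h4 : (-2 * a : ℝ) ≠ 0 := by
    intro h
    apply ha
    linarith
  have h3 : ((-2 * a : ℝ) : ℂ) ≠ 0 := by exact_mod_cast h4
  generalize hm : b / ((-2 * a : ℝ) : ℂ) = m
  have hb : b = ((-2 * a : ℝ) : ℂ) * m := by
    rw [← hm, mul_div_cancel₀ _ h3]
  have hr : b.re = -2 * a * m.re := by
    rw [hb, Complex.mul_re, Complex.ofReal_re, Complex.ofReal_im]
    ring
  have hi : b.im = -2 * a * m.im := by
    rw [hb, Complex.mul_im, Complex.ofReal_re, Complex.ofReal_im]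
    ring
  have h2 := h1
  simp only [lev] at h2 ⊢
  rw [hn, Complex.mul_re, Complex.conj_re, Complex.conj_im, hr, hi] at h2 ⊢
  rw [hn, hn]
  simp only [Complex.sub_re, Complex.sub_im]
  linear_combination h2

theorem FING_card (Z : Finset ℂ) : (insert none (Z.image some) : Finset (Option ℂ)).card =
    Z.card + 1 := by
  rw [Finset.card_insert_of_notMem (by simp), Finset.card_image_of_injective _
    (Option.some_injective _)]

theorem p_FING (hG1 : S_G1) (hGM : S_GM) (hIVH : S_IVH) (hIVV : S_IVV) (hTRV : S_TRV)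
    (hSGI : S_SGI) (hSGT : S_SGT) (hNCL : S_NCL) (hFIN : S_FIN) : S_FING := by
  intro V hV hmax a b c hne hle
  have hv0 : ∃ v0 ∈ V, lev a b c v0 ≠ 0 := by
    by_contra hcon
    push Not at hcon
    exact hne (hV a b c hcon)
  obtain ⟨v0, hv0V, hv0⟩ := hv0
  have hlt : lev a b c v0 < 0 := lt_of_le_of_ne (hle v0 hv0V) hv0
  obtain ⟨g, hg, hg0⟩ := FING_mov hGM hIVH hIVV hTRV hSGI hSGT v0
  obtain ⟨a', b', c', hs⟩ := hg.fwd a b c
  have ha' : a' < 0 := by
    have := (hs v0).1.1 hlt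
    rwa [hg0] at this
  set V1 := V.image g with hV1
  have hV1n : NC V1 := hg.nc hV
  have hV1c : V1.card = V.card := Finset.card_image_of_injective _ hg.inj
  have hnone : none ∈ V1 := by
    rw [← hg0]
    exact Finset.mem_image_of_mem g hv0V
  set Z := V1.eraseNone with hZ
  have hVZ : V1 = insert none (Z.image some) := by
    rw [hZ, Finset.image_some_eraseNone, Finset.insert_erase hnone]
  have hZnc : ¬ Collinear ℝ (Z : Set ℂ) := by
    rw [← hNCL Z, ← hVZ]
    exact hV1n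
  have hne' : ∀ Y : Finset ℂ, ¬ Collinear ℝ (Y : Set ℂ) → Y.Nonempty := by
    intro Y hY
    rw [Finset.nonempty_iff_ne_empty]
    rintro rfl
    apply hY
    simp [collinear_empty]
  have hvol : ∀ Y : Finset ℂ, ¬ Collinear ℝ (Y : Set ℂ) →
      volG (insert none (Y.image some)) = vol Y := by
    intro Y hY
    unfold volG vol
    rw [hG1 Y (hne' Y hY)]
  have hZmax : ∀ Z' : Finset ℂ, Z'.card = Z.card → ¬ Collinear ℝ (Z' : Set ℂ) →
      vol Z' ≤ vol Z := by
    intro Z' hc hn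
    rw [← hvol Z' hn, ← hvol Z hZnc, ← hVZ, hV1, hg.vol]
    apply hmax
    · rw [FING_card, hc, ← FING_card, ← hVZ, hV1c]
    · exact (hNCL Z').2 hn
  have hset : {v | v ∈ V1 ∧ lev a' b' c' v = 0} = g '' {v | v ∈ V ∧ lev a b c v = 0} := by
    ext u
    constructor
    · rintro ⟨hu, hu0⟩
      rw [hV1, Finset.mem_image] at hu
      obtain ⟨v, hv, rfl⟩ := hu
      exact ⟨v, ⟨hv, (hs v).2.2 hu0⟩, rfl⟩
    · rintro ⟨v, ⟨hv, hv0⟩, rfl⟩
      exact ⟨Finset.mem_image_of_mem g hv, (hs v).2.1 hv0⟩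
  have hle' : ∀ u ∈ V1, lev a' b' c' u ≤ 0 := by
    intro u hu
    rw [hV1, Finset.mem_image] at hu
    obtain ⟨v, hv, rfl⟩ := hu
    rcases (hle v hv).lt_or_eq with h | h
    · exact ((hs v).1.1 h).le
    · exact ((hs v).2.1 h).le
  rw [← Set.ncard_image_of_injective _ hg.inj, ← hset]
  by_cases hemp : ∃ z1 ∈ Z, lev a' b' c' (some z1) = 0
  · obtain ⟨z1, hz1, hz10⟩ := hemp
    set m := b' / ((-2 * a' : ℝ) : ℂ) with hm
    have hsq := fun z => FING_sq a' b' z z1 c' ha'.ne hz10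
    have hout : ∀ w ∈ Z, ‖z1 - m‖ ≤ ‖w - m‖ := by
      intro w hw
      have h1 : lev a' b' c' (some w) ≤ 0 := by
        apply hle'
        rw [hVZ]
        simp [hw]
      rw [hsq w] at h1
      have h2 : ‖z1 - m‖ ^ 2 ≤ ‖w - m‖ ^ 2 := by
        by_contra hcon
        push Not at hcon
        nlinarith
      exact (sq_le_sq₀ (norm_nonneg _) (norm_nonneg _)).1 h2
    have h3 := hFIN Z hZnc hZmax m ‖z1 - m‖ hout
    have hsub : {v | v ∈ V1 ∧ lev a' b' c' v = 0} ⊆
        ((Z.filter fun w => ‖w - m‖ = ‖z1 - m‖).image some : Finset (Option ℂ)) := by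
      rintro v ⟨hv, hv0⟩
      rcases v with _ | w
      · exact absurd hv0 ha'.ne
      · have hwZ : w ∈ Z := by
          rw [hVZ] at hv
          simpa using hv
        rw [hsq w] at hv0
        have h4 : ‖w - m‖ ^ 2 = ‖z1 - m‖ ^ 2 := by
          rcases mul_eq_zero.1 hv0 with h | h
          · exact absurd h ha'.ne
          · linarith
        have h5 : ‖w - m‖ = ‖z1 - m‖ := (sq_eq_sq₀ (norm_nonneg _) (norm_nonneg _)).1 h4
        rw [Finset.mem_coe, Finset.mem_image]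
        exact ⟨w, Finset.mem_filter.2 ⟨hwZ, h5⟩, rfl⟩
    calc {v | v ∈ V1 ∧ lev a' b' c' v = 0}.ncard ≤
        (((Z.filter fun w => ‖w - m‖ = ‖z1 - m‖).image some : Finset (Option ℂ)) :
          Set (Option ℂ)).ncard := Set.ncard_le_ncard hsub (Finset.finite_toSet _)
      _ ≤ 3 := by
        rw [Set.ncard_coe_finset]
        exact Finset.card_image_le.trans h3
  · push Not at hemp
    have : {v | v ∈ V1 ∧ lev a' b' c' v = 0} = ∅ := by
      rw [Set.eq_empty_iff_forall_notMem]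
      rintro v ⟨hv, hv0⟩
      rcases v with _ | w
      · exact absurd hv0 ha'.ne
      · have hwZ : w ∈ Z := by
          rw [hVZ] at hv
          simpa using hv
        exact hemp w hwZ hv0
    rw [this, Set.ncard_empty]
    norm_num

end Pool.Ipm
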