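import Mathlib

/-!
# MP_8cbffb_gt: maximal ideal polyhedra are simplicial.  Definitions and statements of the blocks
-/

set_option autoImplicit false

namespace Pool.Ipm

open MeasureTheory Finset ComplexConjugate

/-- The ideal polyhedron with the vertices `w ∈ Z` and `∞` in the upper half-space
`{(z, t) | t > 0}`: the points over the convex hull of `Z` which lie in no open half-ball over a
disc that contains no point of `Z`. -/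
def hull (Z : Finset ℂ) : Set (ℂ × ℝ) :=
  {p | 0 < p.2 ∧ p.1 ∈ convexHull ℝ (Z : Set ℂ) ∧
    ∀ (a : ℂ) (R : ℝ), (∀ w ∈ Z, R ^ 2 ≤ ‖w - a‖ ^ 2) → R ^ 2 ≤ ‖p.1 - a‖ ^ 2 + p.2 ^ 2}

/-- The hyperbolic volume. -/
noncomputable def vol (Z : Finset ℂ) : ENNReal := ∫⁻ p in hull Z, ENNReal.ofReal (1 / p.2 ^ 3)

/-- cross product -/
def crs (a b : ℂ) : ℝ := a.re * b.im - a.im * b.re

def dtm (τ : Fin 3 → ℂ) : ℝ := crs (τ 1 - τ 0) (τ 2 - τ 0)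

/-- barycentric coordinates -/
noncomputable def bc (τ : Fin 3 → ℂ) (z : ℂ) : Fin 3 → ℝ :=
  ![crs (τ 1 - z) (τ 2 - z) / dtm τ, crs (τ 2 - z) (τ 0 - z) / dtm τ,
    crs (τ 0 - z) (τ 1 - z) / dtm τ]

/-- the open triangle (for `dtm τ ≠ 0`) -/
def Tri (τ : Fin 3 → ℂ) : Set ℂ := {z | ∀ i, 0 < bc τ z i}

noncomputable def Dd (τ : Fin 3 → ℂ) (z : ℂ) : ℝ := ∑ i, bc τ z i * ‖τ i‖ ^ 2 - ‖z‖ ^ 2

noncomputable def Gg (τ : Fin 3 → ℂ) (z : ℂ) : ℂ := ∑ i, (bc τ z i : ℂ) * τ i ^ 2 - z ^ 2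

/-- Delaunay triangle -/
def Dl (Z : Finset ℂ) (τ : Fin 3 → ℂ) : Prop :=
  dtm τ ≠ 0 ∧ (∀ i, τ i ∈ Z) ∧ ∃ (c : ℂ) (R : ℝ), 0 ≤ R ∧ (∀ i, ‖τ i - c‖ = R) ∧
    ∀ w ∈ Z, R ≤ ‖w - c‖

/-- the points of the convex hull which are not on a segment between two points of `Z` -/
def Reg (Z : Finset ℂ) : Set ℂ :=
  {z | z ∈ convexHull ℝ (Z : Set ℂ) ∧ ∀ w ∈ Z, ∀ w' ∈ Z, z ∉ segment ℝ w w'}

/-- a measurable choice of Delaunay triangles -/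
def Cho (Z : Finset ℂ) (s : ℂ → Fin 3 → ℂ) : Prop :=
  (Set.range s).Finite ∧ (∀ τ, MeasurableSet {z | s z = τ}) ∧
    ∀ z ∈ Reg Z, Dl Z (s z) ∧ z ∈ Tri (s z)

/-- the real-linear map `w ↦ w + t β w̄` -/
noncomputable def At (β : ℂ) (t : ℝ) (w : ℂ) : ℂ := w + t * β * conj w

/-- BAR (crs, field_simp, ring; Complex.ext) -/
def S_BAR : Prop := ∀ (τ : Fin 3 → ℂ) (z : ℂ), dtm τ ≠ 0 →
  ∑ i, bc τ z i = 1 ∧ ∑ i, (bc τ z i : ℂ) * τ i = z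

/-- DDG: for weights `l` with sum 1 and `z = ∑ l_i τ_i`: `∑ l_i |τ_i|² - |z|² =
∑_{i<j} l_i l_j |τ_i - τ_j|²`, the same for squares instead of absolute values. -/
def S_DDG : Prop := ∀ (τ : Fin 3 → ℂ) (z : ℂ), dtm τ ≠ 0 →
  Dd τ z = bc τ z 0 * bc τ z 1 * ‖τ 0 - τ 1‖ ^ 2 + bc τ z 1 * bc τ z 2 * ‖τ 1 - τ 2‖ ^ 2
    + bc τ z 0 * bc τ z 2 * ‖τ 0 - τ 2‖ ^ 2 ∧
  Gg τ z = bc τ z 0 * bc τ z 1 * (τ 0 - τ 1) ^ 2 + bc τ z 1 * bc τ z 2 * (τ 1 - τ 2) ^ 2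
    + bc τ z 0 * bc τ z 2 * (τ 0 - τ 2) ^ 2

/-- POS: from DDG: positivity in the open triangle and `|G| ≤ D` -/
def S_POS : Prop := ∀ (τ : Fin 3 → ℂ) (z : ℂ), dtm τ ≠ 0 → z ∈ Tri τ →
  0 < Dd τ z ∧ ‖Gg τ z‖ ≤ Dd τ z

/-- ATD: `|w + t β w̄|² = (1 + t²)|w|² + 2 t Re(β̄ w²)` for `|β| = 1`; take the combination. -/
def S_ATD : Prop := ∀ (τ : Fin 3 → ℂ) (z β : ℂ) (t : ℝ), ‖β‖ = 1 →
  ∑ i, bc τ z i * ‖At β t (τ i)‖ ^ 2 - ‖At β t z‖ ^ 2 =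
    (1 + t ^ 2) * Dd τ z + 2 * t * (conj β * Gg τ z).re

/-- EMB: a convex combination `z = ∑ l_i v_i` of points of `Z` with `∑ l_i |v_i|² - |z|² ≤ t²`
gives a point of the polyhedron.  (`∑ l_i |v_i - a|² = |z - a|² + ∑ l_i |v_i|² - |z|²`.) -/
def S_EMB : Prop := ∀ (Z : Finset ℂ) (v : Fin 3 → ℂ) (l : Fin 3 → ℝ) (t : ℝ), (∀ i, v i ∈ Z) →
  (∀ i, 0 ≤ l i) → ∑ i, l i = 1 → 0 < t →
  ∑ i, l i * ‖v i‖ ^ 2 - ‖∑ i, (l i : ℂ) * v i‖ ^ 2 ≤ t ^ 2 → (∑ i, (l i : ℂ) * v i, t) ∈ hull Z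

/-- CIR: over a Delaunay triangle: `D = R² - |z - c|²`. -/
def S_CIR : Prop := ∀ (τ : Fin 3 → ℂ) (c z : ℂ) (R : ℝ), dtm τ ≠ 0 → (∀ i, ‖τ i - c‖ = R) →
  Dd τ z = R ^ 2 - ‖z - c‖ ^ 2

/-- DEL: Delaunay.  Among the triples of `Z` whose triangle contains `z` (they exist by
Caratheodory; a degenerate triangle is a segment) take one with least
`val τ = ∑ bc τ z i * |τ i|²`.  All `bc > 0` since `z` is on no segment.  Its circumcircle (exists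
since `dtm τ ≠ 0`) is empty: if `w ∈ Z` is inside, `w = ∑ μ_i τ_i`, `μ = bc τ w`, then
`|w|² < ∑ μ_i |τ_i|²` by CIR; take the largest `ε` with `bc_i - ε μ_i ≥ 0` for all `i`: one of them is
zero and `z` is in the triangle of `w` and the two others, with smaller value. -/
def S_DEL : Prop := ∀ (Z : Finset ℂ) (z : ℂ), z ∈ Reg Z → ∃ τ, Dl Z τ ∧ z ∈ Tri τ

/-- CHO: a choice exists: enumerate the finite set `T` of the `τ` with `Dl Z τ` and take the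
first with `z ∈ Tri τ` (open sets). -/
def S_CHO : Prop := ∀ Z : Finset ℂ, ∃ s, Cho Z s

/-- MOD: a choice may be changed on a measurable set `O ⊆ Tri τ`. -/
def S_MOD : Prop := ∀ (Z : Finset ℂ) (s : ℂ → Fin 3 → ℂ) (τ : Fin 3 → ℂ) (O : Set ℂ),
  Cho Z s → Dl Z τ → MeasurableSet O → O ⊆ Tri τ →
  ∃ s', Cho Z s' ∧ (∀ z ∈ O, s' z = τ) ∧ ∀ z ∉ O, s' z = s z

/-- MEA: measurability. -/
def S_MEA : Prop := ∀ (Z : Finset ℂ), MeasurableSet (Reg Z) ∧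
  volume (convexHull ℝ (Z : Set ℂ) \ Reg Z) = 0 ∧
  ∀ s, Cho Z s → Measurable (fun z => Dd (s z) z) ∧ Measurable (fun z => Gg (s z) z)

/-- FIB: the integral over a vertical half-line. -/
def S_FIB : Prop := ∀ D : ℝ, 0 < D →
  ∫⁻ t in {t : ℝ | 0 < t ∧ D ≤ t ^ 2}, ENNReal.ofReal (1 / t ^ 3) = ENNReal.ofReal (1 / (2 * D))

/-- GEV: lower bound for the volume (Tonelli). -/
def S_GEV : Prop := ∀ (Z : Finset ℂ) (S : Set ℂ) (D : ℂ → ℝ), MeasurableSet S → Measurable D →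
  (∀ z ∈ S, 0 < D z) → (∀ z ∈ S, ∀ t : ℝ, 0 < t → D z ≤ t ^ 2 → (z, t) ∈ hull Z) →
  ∫⁻ z in S, ENNReal.ofReal (1 / (2 * D z)) ≤ vol Z

/-- LEV: upper bound for the volume (Tonelli). -/
def S_LEV : Prop := ∀ (Z : Finset ℂ) (S N : Set ℂ) (D : ℂ → ℝ), MeasurableSet S → Measurable D →
  volume N = 0 → (∀ z ∈ S, 0 < D z) →
  (∀ z t, (z, t) ∈ hull Z → z ∈ N ∨ (z ∈ S ∧ D z ≤ t ^ 2)) →
  vol Z ≤ ∫⁻ z in S, ENNReal.ofReal (1 / (2 * D z))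

/-- LOW: the volume after the linear map `At β t`. (GEV for `Z.image (At β t)`, `S = At '' Reg Z`,
`D (At z) = (1 + t²) Dd + 2 t Re(β̄ Gg)`; change of variables, determinant `1 - t²`; EMB, ATD, BAR.) -/
def S_LOW : Prop := ∀ (Z : Finset ℂ) (s : ℂ → Fin 3 → ℂ) (β : ℂ) (t : ℝ), Cho Z s → ‖β‖ = 1 →
  |t| < 1 / 2 →
  ENNReal.ofReal (1 - t ^ 2) * ∫⁻ z in Reg Z, ENNReal.ofReal
    (1 / (2 * ((1 + t ^ 2) * Dd (s z) z + 2 * t * (conj β * Gg (s z) z).re))) ≤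
    vol (Z.image (At β t))

/-- UPP: the volume of the polyhedron itself. (LEV, CIR, MEA) -/
def S_UPP : Prop := ∀ (Z : Finset ℂ) (s : ℂ → Fin 3 → ℂ), Cho Z s →
  vol Z ≤ ∫⁻ z in Reg Z, ENNReal.ofReal (1 / (2 * Dd (s z) z))

/-- FTR: finiteness over one triangle.  By DDG `Dd ≥ q (l0 l1 + l1 l2 + l0 l2) ≥ q (1 - max l)/3`,
`q` = least squared side; and `1 - l_i ≥ c |z - τ_i|`; the integral of `1/|z - w|` over a bounded set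
is finite. -/
def S_FTR : Prop := ∀ τ : Fin 3 → ℂ, dtm τ ≠ 0 →
  ∫⁻ z in Tri τ, ENNReal.ofReal (1 / Dd τ z) < ⊤

/-- FNR: the integral of `1/|z - w|` over a disc is finite (polar coordinates). -/
def S_FNR : Prop := ∀ (w : ℂ) (r : ℝ), ∫⁻ z in Metric.ball w r, ENNReal.ofReal (1 / ‖z - w‖) < ⊤

/-- FIV: finiteness of the volume integral (finite sum of FTR). -/
def S_FIV : Prop := ∀ (Z : Finset ℂ) (s : ℂ → Fin 3 → ℂ), Cho Z s →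
  ∫⁻ z in Reg Z, ENNReal.ofReal (1 / Dd (s z) z) < ⊤

/-- LIM: `1/((1+t²)D + 2tg) ≥ (1 - t²)/D - 2 t g/D²`; so `(1-t²)((1-t²) I - 2 t K) ≤ I` for all small
`t`, hence `K = 0`. -/
def S_LIM : Prop := ∀ (S : Set ℂ) (D g : ℂ → ℝ), MeasurableSet S → Measurable D → Measurable g →
  (∀ z ∈ S, 0 < D z ∧ |g z| ≤ D z) → ∫⁻ z in S, ENNReal.ofReal (1 / D z) < ⊤ →
  (∀ t : ℝ, |t| < 1 / 2 → ENNReal.ofReal (1 - t ^ 2) * ∫⁻ z in S, ENNReal.ofReal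
    (1 / (2 * ((1 + t ^ 2) * D z + 2 * t * g z))) ≤
      ∫⁻ z in S, ENNReal.ofReal (1 / (2 * D z))) →
  IntegrableOn (fun z => g z / D z ^ 2) S ∧ ∫ z in S, g z / D z ^ 2 = 0

/-- IMG: the linear map is injective. -/
def S_IMG : Prop := ∀ (Z : Finset ℂ) (β : ℂ) (t : ℝ), ‖β‖ = 1 → |t| < 1 / 2 →
  (Z.image (At β t)).card = Z.card ∧
  (¬ Collinear ℝ (Z : Set ℂ) → ¬ Collinear ℝ ((Z.image (At β t) : Finset ℂ) : Set ℂ))

/-- NCO: three different points of a circle are not collinear. -/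
def S_NCO : Prop := ∀ (τ : Fin 3 → ℂ) (c : ℂ) (R : ℝ), Function.Injective τ →
  (∀ i, ‖τ i - c‖ = R) → dtm τ ≠ 0

/-- KAP: four different points of a circle. (`w = c + R u`, `ū = 1/u`; the cubic
`u³ - α u² - δ u - γ` has at most three zeros.) -/
def S_KAP : Prop := ∀ (τ : Fin 3 → ℂ) (c w : ℂ) (R : ℝ), Function.Injective τ →
  (∀ i, ‖τ i - c‖ = R) → ‖w - c‖ = R → (∀ i, τ i ≠ w) → Gg τ w ≠ 0

/-- DIF: the two interpolations. Both sides are affine in `z` (after the cancellation of `z²`). -/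
def S_DIF : Prop := ∀ a b c d z : ℂ, dtm ![a, b, c] ≠ 0 → dtm ![a, b, d] ≠ 0 →
  Gg ![a, b, c] z - Gg ![a, b, d] z = (bc ![a, b, d] z 2 : ℂ) * Gg ![a, b, c] d

/-- SEP: two of four points with the others on the same side. (Signs: the four areas satisfy
`[234] - [134] + [124] - [123] = 0`.) -/
def S_SEP : Prop := ∀ v : Fin 4 → ℂ, (∀ i j k, i ≠ j → j ≠ k → i ≠ k →
    crs (v j - v i) (v k - v i) ≠ 0) →
  ∃ σ : Equiv.Perm (Fin 4), 0 < crs (v (σ 1) - v (σ 0)) (v (σ 2) - v (σ 0)) *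
    crs (v (σ 1) - v (σ 0)) (v (σ 3) - v (σ 0))

/-- OPN: two triangles on the same side of a common edge. (`z = (1 - 2ε)(a + b)/2 + ε c + ε d`.) -/
def S_OPN : Prop := ∀ a b c d : ℂ, 0 < crs (b - a) (c - a) * crs (b - a) (d - a) →
  (Tri ![a, b, c] ∩ Tri ![a, b, d]).Nonempty ∧ IsOpen (Tri ![a, b, c] ∩ Tri ![a, b, d])

/-- SUB: an open triangle of a Delaunay `τ` is in the convex hull; off the null set it is in
`Reg`. -/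
def S_SUB : Prop := ∀ (Z : Finset ℂ) (τ : Fin 3 → ℂ), Dl Z τ → Tri τ ⊆ convexHull ℝ (Z : Set ℂ)

/-- FIN: the theorem -/
def S_FIN : Prop := ∀ Z : Finset ℂ, ¬ Collinear ℝ (Z : Set ℂ) →
  (∀ Z' : Finset ℂ, Z'.card = Z.card → ¬ Collinear ℝ (Z' : Set ℂ) → vol Z' ≤ vol Z) →
  ∀ (c : ℂ) (R : ℝ), (∀ w ∈ Z, R ≤ ‖w - c‖) → (Z.filter fun w => ‖w - c‖ = R).card ≤ 3

end Pool.Ipm
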