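import Pool.Agent.Work.MP_8cbffb_h28.Interface

/-!
# MP_8cbffb_gt, general ideal polyhedra (no vertex at infinity needed): statements of the blocks
-/

set_option autoImplicit false

namespace Pool.Ipm

open MeasureTheory Finset ComplexConjugate

/-- the function of a half-space `{lev ≤ 0}` at the ideal points (`none` is infinity) -/
noncomputable def lev (a : ℝ) (b : ℂ) (c : ℝ) : Option ℂ → ℝ
  | none => a
  | some z => a * ‖z‖ ^ 2 + (conj b * z).re + c

/-- the function of a half-space at the point `p = (z, t)` of hyperbolic space -/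
noncomputable def lvp (a : ℝ) (b : ℂ) (c : ℝ) (p : ℂ × ℝ) : ℝ :=
  a * (‖p.1‖ ^ 2 + p.2 ^ 2) + (conj b * p.1).re + c

/-- The ideal polyhedron with the vertices `V`: the intersection of all closed half-spaces whose
closure contains `V`. -/
def hullG (V : Finset (Option ℂ)) : Set (ℂ × ℝ) :=
  {p | 0 < p.2 ∧ ∀ (a : ℝ) (b : ℂ) (c : ℝ), (∀ v ∈ V, lev a b c v ≤ 0) → lvp a b c p ≤ 0}

noncomputable def volG (V : Finset (Option ℂ)) : ENNReal :=
  ∫⁻ p in hullG V, ENNReal.ofReal (1 / p.2 ^ 3)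

/-- inversion on the ideal points -/
noncomputable def invO : Option ℂ → Option ℂ
  | none => some 0
  | some z => if z = 0 then none else some (z / (‖z‖ ^ 2 : ℝ))

/-- inversion in hyperbolic space -/
noncomputable def inv3 (p : ℂ × ℝ) : ℂ × ℝ :=
  (p.1 / ((‖p.1‖ ^ 2 + p.2 ^ 2 : ℝ) : ℂ), p.2 / (‖p.1‖ ^ 2 + p.2 ^ 2))

/-- translation -/
noncomputable def traO (w : ℂ) : Option ℂ → Option ℂ
  | none => none
  | some z => some (z + w)

/-- G1: for a polyhedron with vertex infinity. `⊆`: vertical half-spaces `a = 0` and separation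
(geometric_hahn_banach_compact_closed / point; a real linear functional on `ℂ` is
`z ↦ (conj b * z).re`) for the convex hull; `a = -1, b = 2 a₀, c = R² - |a₀|²` for the balls.
`⊇`: `a ≤ 0` from `none`; `a = 0`: the half-plane is convex; `a < 0`: complete the square, centre
`b/(-2a)`, `R² = |centre|² + c/(-a)` (trivial if negative). -/
def S_G1 : Prop := ∀ Z : Finset ℂ, Z.Nonempty → hullG (insert none (Z.image some)) = hull Z

/-- GM: measurability (closed conditions and `0 < t`). -/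
def S_GM : Prop := ∀ V : Finset (Option ℂ), MeasurableSet (hullG V)

/-- IVH: inversion of the polyhedron: `lev a b c (invO v)` has the sign of `lev c b a v`
(multiply by `|z|²`), `lvp a b c (inv3 p)` times `|p|²` is `lvp c b a p`; inv3 is an involution on
`t > 0`. -/
def S_IVH : Prop := ∀ (V : Finset (Option ℂ)) (p : ℂ × ℝ), 0 < p.2 →
  (p ∈ hullG (V.image invO) ↔ inv3 p ∈ hullG V)

/-- IVV: inversion preserves the hyperbolic volume.  (Change of variables
lintegral_image_eq_lintegral_abs_det_fderiv_mul; the derivative of inv3 at p is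
`h ↦ h/ρ - 2⟨p,h⟩ p/ρ²`, `ρ = |p|²`, determinant `-1/ρ³`; `t ↦ t/ρ`.) -/
def S_IVV : Prop := ∀ S : Set (ℂ × ℝ), MeasurableSet S → S ⊆ {p | 0 < p.2} →
  ∫⁻ p in inv3 ⁻¹' S ∩ {p | 0 < p.2}, ENNReal.ofReal (1 / p.2 ^ 3) =
    ∫⁻ p in S, ENNReal.ofReal (1 / p.2 ^ 3)

/-- TRV: translation preserves the hull and the volume. -/
def S_TRV : Prop := ∀ (V : Finset (Option ℂ)) (w : ℂ), volG (V.image (traO w)) = volG V

/-- the signs agree -/
def Sg (g : Option ℂ → Option ℂ) (a : ℝ) (b : ℂ) (c a' : ℝ) (b' : ℂ) (c' : ℝ) : Prop :=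
  ∀ v, (lev a b c v < 0 ↔ lev a' b' c' (g v) < 0) ∧ (lev a b c v = 0 ↔ lev a' b' c' (g v) = 0)

/-- SGI: signs and inversion, `(a', b', c') = (c, b, a)` -/
def S_SGI : Prop := ∀ (a : ℝ) (b : ℂ) (c : ℝ), Sg invO a b c c b a

/-- SGT: signs and translation -/
def S_SGT : Prop := ∀ w : ℂ, (∀ (a : ℝ) (b : ℂ) (c : ℝ), ∃ (a' : ℝ) (b' : ℂ) (c' : ℝ),
  Sg (traO w) a b c a' b' c') ∧ ∀ (a' : ℝ) (b' : ℂ) (c' : ℝ), ∃ (a : ℝ) (b : ℂ) (c : ℝ),
  Sg (traO w) a b c a' b' c'

/-- BIJ: both maps are injective -/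
def S_BIJ : Prop := Function.Injective invO ∧ ∀ w, Function.Injective (traO w)

/-- not on one circle or line of the sphere at infinity -/
def NC (V : Finset (Option ℂ)) : Prop := ∀ (a : ℝ) (b : ℂ) (c : ℝ), (∀ v ∈ V, lev a b c v = 0) →
  a = 0 ∧ b = 0 ∧ c = 0

/-- NCL: with infinity, NC means not collinear (and nonempty). -/
def S_NCL : Prop := ∀ Z : Finset ℂ, NC (insert none (Z.image some)) ↔ ¬ Collinear ℝ (Z : Set ℂ)

/-- the theorem for general ideal polyhedra -/
def S_FING : Prop := ∀ V : Finset (Option ℂ), NC V →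
  (∀ V' : Finset (Option ℂ), V'.card = V.card → NC V' → volG V' ≤ volG V) →
  ∀ (a : ℝ) (b : ℂ) (c : ℝ), ¬ (a = 0 ∧ b = 0 ∧ c = 0) → (∀ v ∈ V, lev a b c v ≤ 0) →
  {v | v ∈ V ∧ lev a b c v = 0}.ncard ≤ 3

end Pool.Ipm
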