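import Pool.Agent.Work.MP_8cbffb_h28.Interface

/-!
# LIM2: the first variation of a function with a local maximum
-/

set_option autoImplicit false

namespace Pool.Ipm

open MeasureTheory

/-- as LIM, only for small `t` -/
def S_LIM2 : Prop := ∀ (S : Set ℂ) (D g : ℂ → ℝ) (δ : ℝ), 0 < δ → MeasurableSet S →
  Measurable D → Measurable g →
  (∀ z ∈ S, 0 < D z ∧ |g z| ≤ D z) → ∫⁻ z in S, ENNReal.ofReal (1 / D z) < ⊤ →
  (∀ t : ℝ, |t| < 1 / 2 → |t| < δ → ENNReal.ofReal (1 - t ^ 2) * ∫⁻ z in S, ENNReal.ofReal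
    (1 / (2 * ((1 + t ^ 2) * D z + 2 * t * g z))) ≤
      ∫⁻ z in S, ENNReal.ofReal (1 / (2 * D z))) →
  IntegrableOn (fun z => g z / D z ^ 2) S ∧ ∫ z in S, g z / D z ^ 2 = 0

theorem p_LIM2 : S_LIM2 := by
  intro S D g δ hδ hS hD hg hDg hfin hle
  have hint1 : IntegrableOn (fun z => 1 / D z) S := by
    refine ⟨(measurable_const.div hD).aestronglyMeasurable, ?_⟩
    rw [hasFiniteIntegral_iff_ofReal]
    · exact hfin
    · filter_upwards [ae_restrict_mem hS] with z hz
      exact (one_div_pos.2 (hDg z hz).1).le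
  have hint2 : IntegrableOn (fun z => g z / D z ^ 2) S := by
    refine hint1.mono' (hg.div (hD.pow_const 2)).aestronglyMeasurable ?_
    filter_upwards [ae_restrict_mem hS] with z hz
    obtain ⟨h1, h2⟩ := hDg z hz
    rw [norm_div, Real.norm_eq_abs, norm_pow, Real.norm_eq_abs, abs_of_pos h1,
      div_le_div_iff₀ (by positivity) h1]
    nlinarith
  refine ⟨hint2, ?_⟩
  set I := ∫ z in S, 1 / D z with hI
  set K := ∫ z in S, g z / D z ^ 2 with hK
  have hI0 : 0 ≤ I := by
    apply setIntegral_nonneg hS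
    intro z hz
    exact (one_div_pos.2 (hDg z hz).1).le
  -- the inequality for small t
  have key : ∀ t : ℝ, |t| < 1 / 4 → |t| < δ →
      (1 - t ^ 2) * ((1 - t ^ 2) * I - 2 * t * K) ≤ I := by
    intro t ht4 htδ
    have ht2 : t ^ 2 < 1 / 16 := by
      have : t ^ 2 = |t| ^ 2 := (sq_abs t).symm
      rw [this]
      nlinarith [abs_nonneg t]
    have h0 := hle t (by linarith) htδ
    have hlow : ENNReal.ofReal (∫ z in S, (1 / 2) * ((1 - t ^ 2) * (1 / D z) -
        2 * t * (g z / D z ^ 2))) ≤ ∫⁻ z in S, ENNReal.ofReal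
          (1 / (2 * ((1 + t ^ 2) * D z + 2 * t * g z))) := by
      rw [ofReal_integral_eq_lintegral_ofReal]
      · refine setLIntegral_mono' hS fun z hz => ENNReal.ofReal_le_ofReal ?_
        obtain ⟨h1, h2⟩ := hDg z hz
        have hb : |t * g z| ≤ |t| * D z := by
          rw [abs_mul]
          exact mul_le_mul_of_nonneg_left h2 (abs_nonneg t)
        have hb2 := abs_le.1 hb
        have hpos : 0 < (1 + t ^ 2) * D z + 2 * t * g z := by
          nlinarith [hb2.1, abs_nonneg t]
        rw [div_eq_mul_inv 1 (2 * _), one_mul, mul_inv, ← one_div, ← one_div]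
        apply mul_le_mul_of_nonneg_left _ (by norm_num)
        rw [le_div_iff₀ hpos]
        have e : ((1 - t ^ 2) * (1 / D z) - 2 * t * (g z / D z ^ 2)) *
            ((1 + t ^ 2) * D z + 2 * t * g z) = 1 - (t ^ 2 + 2 * (t * g z) / D z) ^ 2 := by
          field_simp
          ring
        rw [e]
        nlinarith [sq_nonneg (t ^ 2 + 2 * (t * g z) / D z)]
      · exact ((hint1.const_mul _).sub (hint2.const_mul _)).const_mul _
      · filter_upwards [ae_restrict_mem hS] with z hz
        obtain ⟨h1, h2⟩ := hDg z hz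
        have hb : |t * g z| ≤ |t| * D z := by
          rw [abs_mul]
          exact mul_le_mul_of_nonneg_left h2 (abs_nonneg t)
        have hb2 := abs_le.1 hb
        have e : (1 / 2) * ((1 - t ^ 2) * (1 / D z) - 2 * t * (g z / D z ^ 2)) =
            ((1 - t ^ 2) * D z - 2 * (t * g z)) / (2 * D z ^ 2) := by
          field_simp
        show 0 ≤ (1 / 2) * ((1 - t ^ 2) * (1 / D z) - 2 * t * (g z / D z ^ 2))
        rw [e]
        apply div_nonneg _ (by positivity)
        nlinarith [hb2.2, abs_nonneg t]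
    have hup : ∫⁻ z in S, ENNReal.ofReal (1 / (2 * D z)) = ENNReal.ofReal ((1 / 2) * I) := by
      rw [hI, ← integral_const_mul, ofReal_integral_eq_lintegral_ofReal (hint1.const_mul _)]
      · refine setLIntegral_congr_fun hS fun z hz => ?_
        congr 1
        rw [one_div, mul_inv, one_div, one_div]
      · filter_upwards [ae_restrict_mem hS] with z hz
        have := one_div_pos.2 (hDg z hz).1
        show 0 ≤ (1 / 2) * (1 / D z)
        positivity
    have hval : ∫ z in S, (1 / 2) * ((1 - t ^ 2) * (1 / D z) - 2 * t * (g z / D z ^ 2)) =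
        (1 / 2) * ((1 - t ^ 2) * I - 2 * t * K) := by
      rw [integral_const_mul, integral_sub (hint1.const_mul _) (hint2.const_mul _),
        integral_const_mul, integral_const_mul]
    rw [hval] at hlow
    have h3 : ENNReal.ofReal ((1 - t ^ 2) * ((1 / 2) * ((1 - t ^ 2) * I - 2 * t * K))) ≤
        ENNReal.ofReal ((1 / 2) * I) := by
      rw [ENNReal.ofReal_mul (by linarith), ← hup]
      exact (mul_le_mul_right hlow _).trans h0
    rw [ENNReal.ofReal_le_ofReal_iff (by positivity)] at h3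
    linarith
  by_contra hK0
  have hKa : 0 < |K| := abs_pos.2 hK0
  obtain ⟨ε, hε0, hε4, hεδ, hεK⟩ : ∃ ε : ℝ, 0 < ε ∧ ε < 1 / 4 ∧ ε < δ ∧ ε * (4 * (I + 1)) ≤ |K| := by
    refine ⟨min (1 / 8) (min (δ / 2) (|K| / (4 * (I + 1)))), by positivity, ?_, ?_, ?_⟩
    · exact (min_le_left _ _).trans_lt (by norm_num)
    · exact ((min_le_right _ _).trans (min_le_left _ _)).trans_lt (by linarith)
    · rw [← le_div_iff₀ (by positivity)]
      exact (min_le_right _ _).trans (min_le_right _ _)
  have hab : |ε| = ε := abs_of_pos hε0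
  have hab' : |(-ε)| = ε := by rw [abs_neg, hab]
  have k1 := key ε (by rw [hab]; exact hε4) (by rw [hab]; exact hεδ)
  have k2 := key (-ε) (by rw [hab']; exact hε4) (by rw [hab']; exact hεδ)
  have hε2 : ε ^ 2 < 1 / 16 := by nlinarith
  have hb1 : K ≤ 2 * ε * I := by
    have : 2 * ε * ((1 - ε ^ 2) * K) ≤ 2 * ε * (ε * I) := by nlinarith [sq_nonneg (ε ^ 2)]
    have h5 : (1 - ε ^ 2) * K ≤ ε * I := le_of_mul_le_mul_left this (by positivity)
    by_contra hcon
    push Not at hcon
    nlinarith [mul_pos (show (0:ℝ) < 1 - ε ^ 2 by linarith) (sub_pos.2 hcon), mul_nonneg hε0.le hI0]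
  have hb2 : -K ≤ 2 * ε * I := by
    have : 2 * ε * ((1 - ε ^ 2) * (-K)) ≤ 2 * ε * (ε * I) := by nlinarith [sq_nonneg (ε ^ 2)]
    have h5 : (1 - ε ^ 2) * (-K) ≤ ε * I := le_of_mul_le_mul_left this (by positivity)
    by_contra hcon
    push Not at hcon
    nlinarith [mul_pos (show (0:ℝ) < 1 - ε ^ 2 by linarith) (sub_pos.2 hcon), mul_nonneg hε0.le hI0]
  have hb : |K| ≤ 2 * ε * I := abs_le.2 ⟨by linarith, hb1⟩
  nlinarith [mul_nonneg hε0.le hI0]

end Pool.Ipm
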